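import Pool.Agent.Lib_helper76.K4M.IsogHecke
import Pool.Agent.Lib_helper24.K4D2.Closed
import Pool.Agent.Lib_helper86.K4.TRel

/-!
K4M, target 2, without hypotheses: (dt), (dg), (D1) for isogenies honest in `B₂(F)`, `F^*_ℚ`, `H(F)`,
and the Hecke relation in its isogeny form in `H(F)` modulo `Dec F`.
-/

set_option autoImplicit false
set_option linter.unusedSectionVars false

open Finset

namespace K4M

open WeierstrassCurve.Affine Pool.Agent.K4D2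

variable {F : Type*} [Field F] [DecidableEq F] [CharZero F] [IsAlgClosed F]
  {W W' : WeierstrassCurve.Affine F}

lemma elliptic_of (hΔ : W.Δ ≠ 0) : W.IsElliptic := ⟨isUnit_iff_ne_zero.mpr hΔ⟩

theorem Isog.dt_closed (hΔ : W.Δ ≠ 0) (hΔ' : W'.Δ ≠ 0) (Φ : Isog W W') [Fintype Φ.hom.ker]
    {t : TP W → TP W → B2 F} (ht : Pool.Agent.K4ParP.IsT t)
    (hC : ∀ P a b c d, fT (h2_closed hΔ) P a b c d = Pool.Agent.K4ParP.CR t P a b c d)
    {t' : TP W' → TP W' → B2 F} (ht' : Pool.Agent.K4ParP.IsT t')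
    (hC' : ∀ P a b c d, fT (h2_closed hΔ') P a b c d = Pool.Agent.K4ParP.CR t' P a b c d)
    (a b : TP W) :
    ∑ i ∈ Φ.kerT, ∑ j ∈ Φ.kerT, t (a + i) (b + j) = t' (Φ.homT a) (Φ.homT b) := by
  have := elliptic_of hΔ
  exact Φ.dtT (h2_closed hΔ) (h2_closed hΔ') finset_TP ht hC ht' hC' a b

theorem Isog.dg_closed (hΔ : W.Δ ≠ 0) (Φ : Isog W W') [Fintype Φ.hom.ker] :
    ∃ s e : FT F, ∀ a : TP W, ∑ i ∈ Φ.kerT, gT (a + i) =
      gT (Φ.homT a) + s + if Φ.homT a = 0 then e else 0 := by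
  have := elliptic_of hΔ
  obtain ⟨P₀, hP₀⟩ := Φ.exists_P₀ (td_closed hΔ)
  exact Φ.dgT hP₀

/-- **(D1) for an isogeny, in `H(F)`.** -/
theorem Isog.D1_closed (hΔ : W.Δ ≠ 0) (hΔ' : W'.Δ ≠ 0) (Φ : Isog W W') [Fintype Φ.hom.ker]
    {t : TP W → TP W → B2 F} (ht : Pool.Agent.K4ParP.IsT t)
    (hC : ∀ P a b c d, fT (h2_closed hΔ) P a b c d = Pool.Agent.K4ParP.CR t P a b c d)
    {t' : TP W' → TP W' → B2 F} (ht' : Pool.Agent.K4ParP.IsT t')
    (hC' : ∀ P a b c d, fT (h2_closed hΔ') P a b c d = Pool.Agent.K4ParP.CR t' P a b c d)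
    (a b : TP W) :
    ∑ i ∈ Φ.kerT, ∑ j ∈ Φ.kerT, Pool.Agent.K4ParP.xi (hkL F) t gT (a + i) (b + j) =
      (Fintype.card Φ.hom.ker : ℚ)⁻¹ •
        Pool.Agent.K4ParP.xi (hkL F) t' gT (Φ.homT a) (Φ.homT b) := by
  have := elliptic_of hΔ
  exact Φ.D1T (td_closed hΔ) (h2_closed hΔ) (h2_closed hΔ') ht hC
    (Pool.Agent.K4ParP.rel_of_CR (h2_closed hΔ) hC) ht' hC'
    (Pool.Agent.K4ParP.rel_of_CR (h2_closed hΔ') hC') a b

/-- **The Hecke relation modulo `Dec F`, isogeny form, without hypotheses.** -/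
theorem hecke_isog_closed (hΔ : W.Δ ≠ 0)
    {t : TP W → TP W → B2 F} (ht : Pool.Agent.K4ParP.IsT t)
    (hC : ∀ P a b c d, fT (h2_closed hΔ) P a b c d = Pool.Agent.K4ParP.CR t P a b c d)
    {l : ℕ} (hl : l.Prime)
    {W' : Pool.Agent.K4TL.subs (TF (TP W)) l → WeierstrassCurve.Affine F}
    (hΔ' : ∀ C, (W' C).Δ ≠ 0)
    (Φ : ∀ C, Isog W (W' C)) (hker : ∀ C (x : TP W), (Φ C).homT x = 0 ↔ x ∈ C.1)
    {t' : ∀ C, TP (W' C) → TP (W' C) → B2 F} (ht' : ∀ C, Pool.Agent.K4ParP.IsT (t' C))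
    (hC' : ∀ C P a b c d, fT (h2_closed (hΔ' C)) P a b c d =
      Pool.Agent.K4ParP.CR (t' C) P a b c d)
    (x y : TP W) :
    ∑ C, xq (t' C) gT ((Φ C).homT x) ((Φ C).homT y) =
      ∑ M ∈ Pool.Agent.K4TL.XX l,
        xq t gT (M.1 • x + M.2.1 • y) (M.2.2.1 • x + M.2.2.2 • y) := by
  have := elliptic_of hΔ
  exact hecke_isog (td_closed hΔ) (h2_closed hΔ) ht hC hl Φ hker (fun C => td_closed (hΔ' C))
    (fun C => h2_closed (hΔ' C)) ht' hC' x y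

end K4M
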