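import Pool.Agent.Lib_helper86.K4.ParP

/-!
Even reciprocity: the abstract form (definition only).
-/

set_option autoImplicit false

open Finset

namespace K4M

/-- **Even reciprocity for `k = j + 1` and `e`** (`2e = 0`), in terms of the cross ratio symbols
`CR t 0 a b c d` of the pencil `0`. -/
def ERab {A B : Type*} [AddCommGroup A] [AddCommGroup B] (t : A → A → B) (j : ℕ) (e : A) : Prop :=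
  ∀ (S₁ S₂ W₁ W₂ : Finset A) (b₁ b₂ c c₀ : A), (∀ z, z ∈ S₁ ↔ j • z = e) →
    (∀ z, z ∈ S₂ ↔ (j + 2) • z = e) → (∀ w, w ∈ W₁ ↔ (j + 1) • w + e = b₁) →
    (∀ w, w ∈ W₂ ↔ (j + 1) • w + e = b₂) →
    ((j • c ≠ e ∧ (j + 2) • c ≠ e) ∨ (c ≠ b₁ ∧ c ≠ -b₁ ∧ c ≠ b₂ ∧ c ≠ -b₂)) →
    ((j • c₀ ≠ e ∧ (j + 2) • c₀ ≠ e) ∨ (c₀ ≠ b₁ ∧ c₀ ≠ -b₁ ∧ c₀ ≠ b₂ ∧ c₀ ≠ -b₂)) →
    ∑ z ∈ S₁, (∑ w ∈ W₂, Pool.Agent.K4ParP.CR t 0 z w c c₀ + Pool.Agent.K4ParP.CR t 0 z b₁ c c₀ -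
        (∑ w ∈ W₁, Pool.Agent.K4ParP.CR t 0 z w c c₀ + Pool.Agent.K4ParP.CR t 0 z b₂ c c₀)) +
      ∑ z ∈ S₂, (∑ w ∈ W₂, Pool.Agent.K4ParP.CR t 0 z w c c₀ + Pool.Agent.K4ParP.CR t 0 z b₁ c c₀ -
        (∑ w ∈ W₁, Pool.Agent.K4ParP.CR t 0 z w c c₀ + Pool.Agent.K4ParP.CR t 0 z b₂ c c₀)) +
      2 • (∑ w ∈ W₂, ∑ w' ∈ W₁, Pool.Agent.K4ParP.CR t 0 w w' c c₀ +
        ∑ w ∈ W₂, Pool.Agent.K4ParP.CR t 0 w b₂ c c₀ +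
        ∑ w' ∈ W₁, Pool.Agent.K4ParP.CR t 0 b₁ w' c c₀ + Pool.Agent.K4ParP.CR t 0 b₁ b₂ c c₀) =
      2 • (Pool.Agent.K4ParP.CR t 0 ((j + 1) • c₀ + e) c₀ b₁ b₂ -
        Pool.Agent.K4ParP.CR t 0 ((j + 1) • c + e) c b₁ b₂)

end K4M
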