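import Pool.Agent.Lib_helper76.K4M.ERc
import Pool.Agent.Lib_helper76.K4M.ERdef

/-!
Even reciprocity IV: the final form, for torsion points.
-/

set_option autoImplicit false
set_option linter.unusedSectionVars false

open Finset Polynomial

namespace K4M

open WeierstrassCurve.Affine Pool.Agent.K4D2

variable {F : Type*} [Field F] [DecidableEq F] [CharZero F] [IsAlgClosed F]
  {W : WeierstrassCurve.Affine F}

lemma sum_ker_shift (hΔ : W.Δ ≠ 0) (j : ℕ)
    [Fintype (Isog.mulN hΔ (j + 1) j.succ_ne_zero).hom.ker] {e b a : TP W}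
    (ha : (j + 1) • a + e = b) {S : Finset (TP W)} (hS : ∀ w, w ∈ S ↔ (j + 1) • w + e = b)
    {B : Type*} [AddCommMonoid B] (f : W.Point → B) :
    ∑ i : (Isog.mulN hΔ (j + 1) j.succ_ne_zero).hom.ker, f ((a : W.Point) + (i : W.Point)) =
      ∑ w ∈ S, f (w : W.Point) := by
  classical
  have h1 := (Isog.mulN hΔ (j + 1) j.succ_ne_zero).sum_kerT
    (fun x : TP W => f ((a : W.Point) + (x : W.Point)))
  rw [← h1]
  have e1 : S = (Isog.mulN hΔ (j + 1) j.succ_ne_zero).kerT.image (fun x => a + x) := by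
    ext w
    rw [hS, mem_image]
    constructor
    · intro hw
      refine ⟨w - a, ?_, by abel⟩
      rw [Isog.mulN_mem_kerT, smul_sub, sub_eq_zero]
      exact add_right_cancel (hw.trans ha.symm)
    · rintro ⟨x, hx, rfl⟩
      rw [Isog.mulN_mem_kerT] at hx
      rw [smul_add, hx, add_zero, ha]
  rw [e1, sum_image (fun x _ y _ h => add_left_cancel h)]
  rfl

lemma exists_tor_notMem (hΔ : W.Δ ≠ 0) (S : Finset (TP W)) : ∃ z : TP W, z ∉ S := by
  classical
  by_contra h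
  push Not at h
  have h1 : (Finset.image (fun i : tor (TP W) (S.card + 1) => (i : TP W)) univ).card ≤ S.card :=
    card_le_card fun x _ => h x
  rw [card_image_of_injective _ Subtype.val_injective, card_univ, (td_closed hΔ).card] at h1
  nlinarith

/-- **Even reciprocity for the torsion points, cross ratio form.** -/
theorem er_cr (hΔ : W.Δ ≠ 0) (j : ℕ) {e : TP W} (he : e + e = 0) (hj : j = 0 → e ≠ 0)
    {S₁ S₂ : Finset (TP W)} (hS₁ : ∀ z, z ∈ S₁ ↔ j • z = e) (hS₂ : ∀ z, z ∈ S₂ ↔ (j + 2) • z = e)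
    {b₁ b₂ : TP W} {W₁ W₂ : Finset (TP W)} (hW₁ : ∀ w, w ∈ W₁ ↔ (j + 1) • w + e = b₁)
    (hW₂ : ∀ w, w ∈ W₂ ↔ (j + 1) • w + e = b₂) {c c₀ : TP W}
    (hc : (c ∉ S₁ ∧ c ∉ S₂) ∨ (c ≠ b₁ ∧ c ≠ -b₁ ∧ c ≠ b₂ ∧ c ≠ -b₂))
    (hc₀ : (c₀ ∉ S₁ ∧ c₀ ∉ S₂) ∨ (c₀ ≠ b₁ ∧ c₀ ≠ -b₁ ∧ c₀ ≠ b₂ ∧ c₀ ≠ -b₂))
    {C : TP W → TP W → TP W → TP W → B2 F}
    (hC : ∀ x y z w, C x y z w = cr (dx : W.Point → W.Point → F) x y z w)
    {Y : TP W → B2 F} (hY : ∀ z, Y z = ∑ w ∈ W₂, C z w c c₀ + C z b₁ c c₀ -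
      (∑ w ∈ W₁, C z w c c₀ + C z b₂ c c₀)) :
    ∑ z ∈ S₁, Y z + ∑ z ∈ S₂, Y z + 2 • (∑ w ∈ W₂, ∑ w' ∈ W₁, C w w' c c₀ +
      ∑ w ∈ W₂, C w b₂ c c₀ + ∑ w' ∈ W₁, C b₁ w' c c₀ + C b₁ b₂ c c₀) =
      2 • (C ((j + 1) • c₀ + e) c₀ b₁ b₂ - C ((j + 1) • c + e) c b₁ b₂) := by
  classical
  have hneg : -e = e := neg_eq_of_add_eq_zero_left he
  have hN := brV_nbracket (F := F)
  have hinf : Infinite F := inferInstance
  have hCs : ∀ x y, C x y c c₀ = cr brV (xT x) (xT y) (xT c) (xT c₀) := fun x y => hC x y c c₀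
  -- the case `b₁ = ± b₂`
  by_cases hb : dx (b₁ : W.Point) b₂ = 0
  · have hxb : xT b₁ = xT b₂ := xT_par hb
    have hWs : ∀ f : NV F → B2 F, ∑ w ∈ W₁, f (xT w) = ∑ w ∈ W₂, f (xT w) := by
      intro f
      rcases dx_eq_zero_iff.mp hb with h | h
      · have h' : b₁ = b₂ := Subtype.ext h
        have : W₁ = W₂ := by ext w; rw [hW₁, hW₂, h']
        rw [this]
      · have h' : b₁ = -b₂ := Subtype.ext h
        have : W₁ = W₂.image (fun w => -w) := by
          ext w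
          rw [hW₁, mem_image]
          constructor
          · intro hw
            refine ⟨-w, ?_, neg_neg _⟩
            rw [hW₂, smul_neg, ← hneg, ← neg_add, hw, h', neg_neg]
          · rintro ⟨w', hw', rfl⟩
            rw [hW₂] at hw'
            rw [smul_neg, ← hneg, ← neg_add, hw', h']
        rw [this, sum_image (fun x _ y _ h => neg_injective h)]
        refine sum_congr rfl fun w _ => ?_
        rw [xT_eq_iff.mpr (Or.inr rfl)]
    have hY0 : ∀ z, Y z = 0 := by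
      intro z
      rw [hY]
      simp only [hCs]
      rw [hWs (fun v => cr brV (xT z) v (xT c) (xT c₀)), hxb]
      abel
    have hanti : ∀ u v : NV F, cr brV u v (xT c) (xT c₀) + cr brV v u (xT c) (xT c₀) = 0 := by
      intro u v
      rw [cr_swap_ab hN.toBracket u v, add_neg_cancel]
    have hself : cr brV (xT b₂) (xT b₂) (xT c) (xT c₀) = 0 :=
      cr_zero_ab _ _ _ _ (brV_self _)
    have hR : ∀ x y, C x y b₁ b₂ = 0 := by
      intro x y
      rw [hC]
      exact cr_zero_cd _ _ _ _ hb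
    have hd : ∑ w ∈ W₂, ∑ w' ∈ W₁, C w w' c c₀ + ∑ w ∈ W₂, ∑ w' ∈ W₁, C w w' c c₀ = 0 := by
      have e1 : ∑ w ∈ W₂, ∑ w' ∈ W₁, C w w' c c₀ =
          ∑ w ∈ W₂, ∑ w' ∈ W₂, cr brV (xT w) (xT w') (xT c) (xT c₀) := by
        refine sum_congr rfl fun w _ => ?_
        simp only [hCs]
        exact hWs (fun v => cr brV (xT w) v (xT c) (xT c₀))
      rw [e1]
      nth_rewrite 2 [sum_comm]
      rw [← sum_add_distrib]
      refine sum_eq_zero fun w _ => ?_
      rw [← sum_add_distrib]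
      exact sum_eq_zero fun w' _ => hanti _ _
    have hAB : ∑ w ∈ W₂, C w b₂ c c₀ + ∑ w' ∈ W₁, C b₁ w' c c₀ = 0 := by
      simp only [hCs]
      rw [hWs (fun v => cr brV (xT b₁) v (xT c) (xT c₀)), hxb, ← sum_add_distrib]
      exact sum_eq_zero fun w _ => hanti _ _
    have hb0 : C b₁ b₂ c c₀ = 0 := by rw [hCs, hxb, hself]
    rw [hR, hR, sub_zero, smul_zero, sum_congr rfl fun z _ => hY0 z,
      sum_congr (s₁ := S₂) rfl fun z _ => hY0 z, sum_const_zero, sum_const_zero, hb0, add_zero,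
      zero_add, add_zero, two_smul]
    generalize (∑ w ∈ W₂, ∑ w' ∈ W₁, C w w' c c₀) = U at hd ⊢
    generalize (∑ w ∈ W₂, C w b₂ c c₀) = V at hAB ⊢
    generalize (∑ w' ∈ W₁, C b₁ w' c c₀) = V' at hAB ⊢
    calc U + V + V' + (U + V + V') = (U + U) + ((V + V') + (V + V')) := by abel
      _ = 0 := by rw [hd, hAB]; simp
  -- the main case
  have hWe : W.IsElliptic := elliptic_of hΔ
  set Φ := Isog.mulN hΔ (j + 1) j.succ_ne_zero with hΦ
  have : Fintype Φ.hom.ker := Fintype.ofFinite _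
  have hcard : Fintype.card Φ.hom.ker = (j + 1) ^ 2 := Isog.mulN_card hΔ _ _
  have heP : (e : W.Point) + e = 0 := by
    have := congrArg (Subtype.val) he
    simpa using this
  obtain ⟨Pe, Qe, h⟩ := exists_eform Φ heP
  obtain ⟨a₁, ha₁⟩ := (td_closed hΔ).div j (b₁ - e)
  obtain ⟨a₂, ha₂⟩ := (td_closed hΔ).div j (b₂ - e)
  have ha₁' : (j + 1) • a₁ + e = b₁ := by rw [ha₁]; abel
  have ha₂' : (j + 1) • a₂ + e = b₂ := by rw [ha₂]; abel
  have g : ∀ a b : TP W, (j + 1) • a + e = b → Φ.hom (a : W.Point) = (b : W.Point) + e := by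
    intro a b hab
    have h1 : Φ.hom (a : W.Point) = (((j + 1) • a : TP W) : W.Point) := rfl
    rw [h1, ← hab, AddSubgroup.coe_add, add_assoc, heP, add_zero]
  have hv : ∀ z : TP W, Φ.hom (z : W.Point) + (e : W.Point) = (((j + 1) • z + e : TP W) : W.Point) :=
    fun _ => rfl
  have hzero : ∀ z : TP W, dx (Φ.hom (z : W.Point) + (e : W.Point)) (z : W.Point) = 0 ↔ z ∈ S₁ ∨ z ∈ S₂ := by
    intro z
    have hcoe : ∀ x y : TP W, dx (x : W.Point) (y : W.Point) = 0 ↔ x = y ∨ x = -y := by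
      intro x y
      rw [dx_eq_zero_iff]
      constructor
      · rintro (h | h)
        · exact Or.inl (Subtype.ext h)
        · exact Or.inr (Subtype.ext h)
      · rintro (rfl | rfl)
        · exact Or.inl rfl
        · exact Or.inr rfl
    rw [hv, hcoe, hS₁, hS₂, add_smul, one_smul, add_smul, two_smul]
    constructor
    · rintro (h | h)
      · left
        have : j • z + e = 0 := by
          have h' : j • z + e + z = 0 + z := by
            rw [zero_add]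
            calc j • z + e + z = j • z + z + e := by abel
              _ = z := h
          exact add_right_cancel h'
        rw [eq_neg_of_add_eq_zero_left this, hneg]
      · right
        have : j • z + (z + z) + e = 0 := by
          have h' : j • z + (z + z) + e = (j • z + z + e) + z := by abel
          rw [h', h]; abel
        rw [eq_neg_of_add_eq_zero_left this, hneg]
    · rintro (h | h)
      · left
        rw [h]
        calc e + z + e = (e + e) + z := by abel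
          _ = z := by rw [he, zero_add]
      · right
        have h' : j • z + z + e = (j • z + (z + z)) + e - z := by abel
        rw [h', h, he, zero_sub]
  -- the polynomial
  have hF0 : Pe - X * Qe ≠ 0 := by
    intro h0
    obtain ⟨z, hz⟩ := exists_tor_notMem hΔ (S₁ ∪ S₂)
    obtain ⟨μ, hμ, h1, -⟩ := h.hev_F_xN heP (z : W.Point)
    rw [h0] at h1
    have h2 : hev (Fintype.card Φ.hom.ker + 1) (xN (z : W.Point)) (0 : F[X]) = 0 := by
      unfold hev; simp
    rw [h2] at h1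
    have h3 := (mul_eq_zero.mp h1.symm).resolve_left hμ
    rw [hzero] at h3
    exact hz (mem_union.mpr h3)
  have hdeg : (Pe - X * Qe).natDegree ≤ Fintype.card Φ.hom.ker + 1 := by
    refine (natDegree_sub_le _ _).trans (max_le ?_ ?_)
    · exact h.dP.trans (Nat.le_succ _)
    · refine natDegree_mul_le.trans ?_
      have := h.dQ
      rw [natDegree_X]
      omega
  obtain ⟨d, hd, La, hLa, hFd⟩ := exists_factor hF0 hdeg
  have hnd : ∀ c : TP W, ((c ∉ S₁ ∧ c ∉ S₂) ∨ (c ≠ b₁ ∧ c ≠ -b₁ ∧ c ≠ b₂ ∧ c ≠ -b₂)) →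
      (dx (Φ.hom (c : W.Point) + (e : W.Point)) (c : W.Point) ≠ 0 ∨
        (dx (Φ.hom (c : W.Point) + (e : W.Point)) (b₁ : W.Point) ≠ 0 ∧ dx (c : W.Point) (b₂ : W.Point) ≠ 0)) := by
    intro c hc
    by_cases h0 : dx (Φ.hom (c : W.Point) + (e : W.Point)) (c : W.Point) = 0
    · right
      rcases hc with hc | ⟨h1, h2, h3, h4⟩
      · exact absurd ((hzero c).mp h0) (by tauto)
      · have hne : ∀ b : TP W, c ≠ b → c ≠ -b → dx (c : W.Point) (b : W.Point) ≠ 0 := by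
          intro b hb1 hb2 h0
          rcases dx_eq_zero_iff.mp h0 with h | h
          · exact hb1 (Subtype.ext h)
          · exact hb2 (Subtype.ext h)
        refine ⟨?_, hne _ h3 h4⟩
        rcases dx_eq_zero_iff.mp h0 with h | h
        · rw [h]; exact hne _ h1 h2
        · rw [h, dx_neg_left]; exact hne _ h1 h2
    · exact Or.inl h0
  have key := h.er_core heP (g _ _ ha₁') (g _ _ ha₂') hb hd hLa hFd (hnd c hc) (hnd c₀ hc₀)
  set t : NV F := xN (c : W.Point) with ht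
  set t' : NV F := xN (c₀ : W.Point) with ht'
  set Lb : Multiset (NV F) := xN (b₁ : W.Point) ::ₘ
    ms (fun i : Φ.hom.ker => xN ((a₂ : W.Point) + (i : W.Point))) with hLb
  set Lc : Multiset (NV F) := xN (b₂ : W.Point) ::ₘ
    ms (fun i : Φ.hom.ker => xN ((a₁ : W.Point) + (i : W.Point))) with hLc
  set φ : NV F → B2 F := fun v => c1 t t' v Lb - c1 t t' v Lc with hφ
  have hφp : ∀ v w, brV v w = 0 → φ v = φ w := by
    intro v w hvw
    show c1 t t' v Lb - c1 t t' v Lc = c1 t t' w Lb - c1 t t' w Lc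
    rw [c1_par hvw, c1_par hvw]
  -- cardinalities
  have hS₁c : S₁.card = j ^ 2 := by
    rcases Nat.eq_zero_or_pos j with h0 | h0
    · have : S₁ = ∅ := by
        rw [eq_empty_iff_forall_notMem]
        intro z hz
        rw [hS₁, h0, zero_smul] at hz
        exact hj h0 hz.symm
      rw [this, h0, card_empty]; rfl
    · exact card_S hΔ h0.ne' hS₁
  have hS₂c : S₂.card = (j + 2) ^ 2 := card_S hΔ (by omega) hS₂
  have hVc : ((S₁ ∪ S₂).image xT).card = Fintype.card Φ.hom.ker + 1 := by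
    have h1 := sum_two he hS₁ hS₂ (fun _ : NV F => (1 : ℕ))
    simp only [sum_const, smul_eq_mul, mul_one] at h1
    rw [hS₁c, hS₂c] at h1
    rw [hcard]
    nlinarith
  have hmatch := sum_match φ hφp ((S₁ ∪ S₂).image xT) La (hLa.trans hVc.symm) (by
      intro v hv w hw hvw
      obtain ⟨z, -, rfl⟩ := mem_image.mp hv
      obtain ⟨z', -, rfl⟩ := mem_image.mp hw
      exact xT_par hvw) (by
      intro v hv
      obtain ⟨z, hz, rfl⟩ := mem_image.mp hv
      obtain ⟨μ, hμ, h1, -⟩ := h.hev_F_xN heP (z : W.Point)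
      rw [(hzero z).mpr (mem_union.mp hz), mul_zero, hFd, hev_C_mul, hev_pr _ _ hLa] at h1
      have h2 := (mul_eq_zero.mp h1).resolve_left hd
      obtain ⟨l, hl, hl'⟩ := ev_eq_zero.mp h2
      exact ⟨l, hl, hl'⟩)
  have hsum := sum_two he hS₁ hS₂ φ
  rw [← smul_sum, ← hmatch] at hsum
  have hφY : ∀ z : TP W, φ (xT z) = Y z := by
    intro z
    show c1 t t' (xT z) Lb - c1 t t' (xT z) Lc = Y z
    rw [hY, hLb, hLc, c1_cons, c1_cons, c1_ms, c1_ms,
      sum_ker_shift hΔ j ha₂' hW₂ (fun p => cr brV (xT z) (xN p) t t'),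
      sum_ker_shift hΔ j ha₁' hW₁ (fun p => cr brV (xT z) (xN p) t t')]
    simp only [hCs]
    rw [add_comm (cr brV (xT z) (xN (b₁ : W.Point)) t t'), add_comm (cr brV (xT z) (xN (b₂ : W.Point)) t t')]
    rfl
  rw [sum_congr rfl fun z _ => hφY z, sum_congr (s₁ := S₂) rfl fun z _ => hφY z] at hsum
  have hLsum : (La.map φ).sum = cs t t' La Lb + cs t t' Lc La := by
    rw [cs_anti La Lc, ← sub_eq_add_neg]
    unfold cs
    rw [← Multiset.sum_map_sub]
  have hbc : cs t t' Lb Lc = ∑ w ∈ W₂, ∑ w' ∈ W₁, C w w' c c₀ +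
      ∑ w ∈ W₂, C w b₂ c c₀ + ∑ w' ∈ W₁, C b₁ w' c c₀ + C b₁ b₂ c c₀ := by
    rw [hLb, cs_cons_left, hLc, c1_cons, c1_ms, cs_cons_right, c1_ms, cs_ms,
      sum_ker_shift hΔ j ha₁' hW₁ (fun p => cr brV (xN (b₁ : W.Point)) (xN p) t t'),
      sum_ker_shift hΔ j ha₂' hW₂ (fun p => cr brV (xN (b₂ : W.Point)) (xN p) t t'),
      sum_ker_shift hΔ j ha₂' hW₂ (fun p => ∑ i : Φ.hom.ker,
        cr brV (xN p) (xN ((a₁ : W.Point) + (i : W.Point))) t t')]
    have e1 : ∀ w : TP W, ∑ i : Φ.hom.ker,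
        cr brV (xN (w : W.Point)) (xN ((a₁ : W.Point) + (i : W.Point))) t t' =
          ∑ w' ∈ W₁, cr brV (xN (w : W.Point)) (xN (w' : W.Point)) t t' := fun w =>
      sum_ker_shift hΔ j ha₁' hW₁ (fun p => cr brV (xN (w : W.Point)) (xN p) t t')
    have e2 : ∀ w : TP W, C w b₂ c c₀ = - cr brV (xN (b₂ : W.Point)) (xN (w : W.Point)) t t' := by
      intro w
      rw [hCs, cr_swap_ab hN.toBracket]
      rfl
    have e3 : ∑ w ∈ W₂, C w b₂ c c₀ = - ∑ w ∈ W₂, cr brV (xN (b₂ : W.Point)) (xN (w : W.Point)) t t' := by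
      rw [← sum_neg_distrib]
      exact sum_congr rfl fun w _ => e2 w
    rw [e3]
    simp only [e1]
    simp only [hCs]
    show cr brV (xN (b₁ : W.Point)) (xN (b₂ : W.Point)) t t' +
      ∑ w ∈ W₁, cr brV (xN (b₁ : W.Point)) (xN (w : W.Point)) t t' +
      (∑ w ∈ W₂, ∑ w' ∈ W₁, cr brV (xN (w : W.Point)) (xN (w' : W.Point)) t t' -
        ∑ w ∈ W₂, cr brV (xN (b₂ : W.Point)) (xN (w : W.Point)) t t') =
      ∑ w ∈ W₂, ∑ w' ∈ W₁, cr brV (xN (w : W.Point)) (xN (w' : W.Point)) t t' +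
        -∑ w ∈ W₂, cr brV (xN (b₂ : W.Point)) (xN (w : W.Point)) t t' +
        ∑ w ∈ W₁, cr brV (xN (b₁ : W.Point)) (xN (w : W.Point)) t t' +
        cr brV (xN (b₁ : W.Point)) (xN (b₂ : W.Point)) t t'
    abel
  rw [hsum, hLsum, ← hbc, ← smul_add]
  congr 1
  rw [hC, hC, ← hv, ← hv, ← key]
  unfold S3
  abel

/-- **Even reciprocity, honest in `B₂(F)`**, in terms of `t`, for every `k = j + 1` and every
`e` with `2e = 0`, except `k = 1, e = 0`. -/
theorem er_T (hΔ : W.Δ ≠ 0) {t : TP W → TP W → B2 F}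
    (hC : ∀ P a b c d, fT (h2_closed hΔ) P a b c d = Pool.Agent.K4ParP.CR t P a b c d)
    (j : ℕ) {e : TP W} (he : e + e = 0) (hj : j = 0 → e ≠ 0) : ERab t j e := by
  have hCC : ∀ x y z w : TP W, Pool.Agent.K4ParP.CR t 0 x y z w =
      cr (dx : W.Point → W.Point → F) x y z w := by
    intro x y z w
    rw [← hC]
    show Pool.Agent.K4ParP.ff (h2_closed hΔ) ((0 : TP W) : W.Point) x y z w = _
    rw [Pool.Agent.K4ParP.ff_eq (h2_closed hΔ) (P := ((0 : TP W) : W.Point)) (R := 0) (by simp)]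
    simp only [add_zero]
  intro S₁ S₂ W₁ W₂ b₁ b₂ c c₀ hS₁ hS₂ hW₁ hW₂ hc hc₀
  refine er_cr hΔ j he hj hS₁ hS₂ hW₁ hW₂ ?_ ?_ (C := Pool.Agent.K4ParP.CR t 0) hCC (fun z => rfl)
  · rw [hS₁, hS₂]; exact hc
  · rw [hS₁, hS₂]; exact hc₀

end K4M
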