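import Pool.Agent.Lib_helper76.K4M.ZY2
import Pool.Agent.Lib_helper7.K4Z.Def

/-!
From even reciprocity to the relation between the sums `Z_l`, III: in terms of `Z t n b c`.
-/

set_option autoImplicit false
set_option linter.unusedSectionVars false

open Finset

namespace K4M

open Pool.Agent.K4ParP Pool.Agent.K4D2 Pool.Agent.K4Z

variable {A B : Type*} [AddCommGroup A] [AddCommGroup B] [Module ℚ B] {t : A → A → B}

lemma sum_shift_set {S S' : Finset A} {x : A} (h : ∀ z, z ∈ S' ↔ z - x ∈ S) (f : A → B) :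
    ∑ z ∈ S', f z = ∑ z ∈ S, f (z + x) := by
  classical
  have e : S' = S.image (fun z => z + x) := by
    ext z
    rw [h, mem_image]
    constructor
    · intro hz; exact ⟨z - x, hz, by abel⟩
    · rintro ⟨w, hw, rfl⟩; rwa [add_sub_cancel_right]
  rw [e, sum_image (fun x _ y _ h => add_right_cancel h)]

lemma TT_add (a b c x : A) : TT t (a + x) (b + x) (c + x) = TT t a b c := by
  unfold TT; congr 1 <;> abel

lemma AA_shift {S S' W W' : Finset A} {x : A} (hS : ∀ z, z ∈ S' ↔ z - x ∈ S)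
    (hW : ∀ z, z ∈ W' ↔ z - x ∈ W) (u b c : A) :
    AA t S' W' u (b + x) (c + x) = AA t S W u b c := by
  unfold AA
  rw [sum_shift_set hS (fun z => TT t z (b + x) (c + x)),
    sum_shift_set hW (fun w => TT t (b + x) w (c + x)),
    sum_shift_set hW (fun w => ∑ z ∈ S', TT t w z (c + x))]
  have e : ∀ w, ∑ z ∈ S', TT t (w + x) z (c + x) = ∑ z ∈ S, TT t w z c := by
    intro w
    rw [sum_shift_set hS (fun z => TT t (w + x) z (c + x))]
    exact sum_congr rfl fun z _ => TT_add w z c x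
  simp only [e, TT_add]
  congr 2; abel

variable [∀ n : ℕ, Fintype (tor A (n + 1))]

lemma Z_AA (n : ℕ) (b c : A) : Z t n b c = AA t (sol (n + 2) 0) (sol (n + 1) (-b)) ((n + 2) • c) b c :=
  rfl

/-- `Z` with a translation -/
lemma Z_eq_AA {n : ℕ} {τ e β γ b c : A} (he : e + e = 0) (hτ : (n + 2) • τ = e) {S V : Finset A}
    (hS : ∀ z, z ∈ S ↔ (n + 2) • z = e) (hV : ∀ w, w ∈ V ↔ (n + 1) • w + e = -β)
    (hb : b + τ = β) (hc : c + τ = γ) :
    AA t S V ((n + 1) • γ + e + γ) β γ = Z t n b c := by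
  subst hb hc
  have hτ' : (n + 1) • τ = e - τ := by
    rw [← hτ, show n + 2 = (n + 1) + 1 from rfl, succ_nsmul _ (n + 1), add_sub_cancel_right]
  rw [Z_AA, AA_shift (S := sol (n + 2) 0) (W := sol (n + 1) (-b))]
  · congr 1
    have : (n + 2) • (c + τ) = (n + 1) • (c + τ) + (c + τ) := succ_nsmul _ (n + 1)
    have h2 : (n + 2) • (c + τ) = (n + 2) • c + e := by rw [smul_add, hτ]
    calc (n + 1) • (c + τ) + e + (c + τ) = ((n + 1) • (c + τ) + (c + τ)) + e := by abel
      _ = (n + 2) • c + (e + e) := by rw [← this, h2]; abel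
      _ = (n + 2) • c := by rw [he, add_zero]
  · intro z
    rw [hS, mem_sol2, smul_sub, hτ, sub_eq_zero]
  · intro w
    rw [hV, mem_sol, smul_sub, hτ']
    constructor
    · intro h
      have h' : (n + 1) • w = -(b + τ) - e := by rw [← h]; abel
      rw [h']
      calc -(b + τ) - e - (e - τ) = -b - (e + e) := by abel
        _ = -b := by rw [he, sub_zero]
    · intro h
      have h' : (n + 1) • w = -b + (e - τ) := by rw [← h]; abel
      rw [h']
      calc -b + (e - τ) + e = -(b + τ) + (e + e) := by abel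
        _ = -(b + τ) := by rw [he, add_zero]

/-- the sums `Z_k` vanish off the exceptional pairs (trivially for `k = 1`) -/
lemma AA_zero (ht : IsT t) {n : ℕ} {e b γ : A} (he : e + e = 0) (hn : n = 0 → e ≠ 0)
    (div : ∀ a : A, ∃ b, (n + 1) • b = a)
    (hZ : ∀ m, n = m + 1 → ∀ b c : A, ¬ ((m + 2) • c = 0 ∧ b = c) → Z t m b c = 0)
    {W S : Finset A} (hW : ∀ w, w ∈ W ↔ (n + 1) • w + e = b) (hS : ∀ z, z ∈ S ↔ n • z = e)
    (hne : ¬ (n • γ = e ∧ γ = b)) {u : A} (hu : u = (n + 1) • γ + e - b) :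
    AA t W S u b γ = 0 := by
  subst hu
  have hneg : -e = e := neg_eq_of_add_eq_zero_left he
  rcases n with _ | m
  · have hS0 : S = ∅ := by
      rw [eq_empty_iff_forall_notMem]
      intro z hz
      rw [hS, zero_smul] at hz
      exact hn rfl hz.symm
    have hW0 : W = {b + e} := by
      ext w
      rw [hW, mem_singleton, zero_add, one_smul]
      constructor
      · rintro rfl; rw [add_assoc, he, add_zero]
      · rintro rfl; rw [add_assoc, he, add_zero]
    unfold AA
    rw [hS0, hW0, sum_singleton, sum_empty, sum_empty, add_zero, add_zero, zero_add, one_smul]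
    unfold TT
    rw [show b + e - b = e by abel]
    have h := ht.rot (γ + e - b) (b - γ)
    rw [show -(γ + e - b) - (b - γ) = -e by abel, hneg] at h
    rw [← h, ht.swap (b - γ) e]
    abel
  · obtain ⟨ω, hω⟩ := div (b + e)
    have hωW : ω ∈ W := by rw [hW, hω, add_assoc, he, add_zero]
    have h1 : AA t W S ((m + 1 + 1) • γ + e - b) (b - ω + ω) (γ - ω + ω) =
        AA t (sol (m + 2) 0) (sol (m + 1) (-(b - ω))) ((m + 1 + 1) • γ + e - b) (b - ω) (γ - ω) := by
      apply AA_shift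
      · intro z
        rw [hW, mem_sol2, smul_sub]
        show (m + 2) • z + e = b ↔ (m + 2) • z - (m + 2) • ω = 0
        rw [show (m + 2) • ω = b + e from hω]
        constructor
        · intro h
          rw [← h]
          calc (m + 2) • z - ((m + 2) • z + e + e) = -(e + e) := by abel
            _ = 0 := by rw [he, neg_zero]
        · intro h
          rw [sub_eq_zero.mp h, add_assoc, he, add_zero]
      · intro z
        rw [hS, mem_sol, smul_sub]
        have h2 : (m + 1) • ω = b + e - ω := by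
          rw [← hω, succ_nsmul _ (m + 1), add_sub_cancel_right]
        rw [h2]
        constructor
        · intro h
          rw [h]; abel
        · intro h
          have h' : (m + 1) • z = -(b - ω) + (b + e - ω) := by rw [← h]; abel
          rw [h']; abel
    rw [sub_add_cancel, sub_add_cancel] at h1
    have h3 : (m + 2) • (γ - ω) = (m + 1 + 1) • γ + e - b := by
      rw [smul_sub, show (m + 2) • ω = b + e from hω]
      calc (m + 2) • γ - (b + e) = (m + 1 + 1) • γ + -e - b := by abel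
        _ = _ := by rw [hneg]
    rw [h1, ← h3, ← Z_AA]
    apply hZ m rfl
    rintro ⟨h4, h5⟩
    apply hne
    have h6 : b = γ := sub_left_injective h5
    refine ⟨?_, h6.symm⟩
    rw [h3, h6, succ_nsmul _ (m + 1)] at h4
    have h7 : (m + 1) • γ + e = 0 := by rw [← h4]; abel
    rw [eq_neg_of_add_eq_zero_left h7, hneg]

/-- the admissible translations -/
def AllowedW (n : ℕ) (σ : A) : Prop := (n + 2) • σ = 0 ∧ (n = 0 → σ ≠ 0)

/-- the positions where even reciprocity holds -/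
def OKp (n : ℕ) (σ c b : A) : Prop := ¬ (((n + 2) • c = 0 ∨ n • c = σ) ∧ (b = c ∨ b = -c - σ))

theorem er_Z (hTD : TD A) (ht : IsT t) (n : ℕ)
    (td : ∀ a b, ∑ h : tor A (n + 1), ∑ h' : tor A (n + 1), t (a + h) (b + h') =
      t ((n + 1) • a) ((n + 1) • b))
    (hER : ∀ e : A, e + e = 0 → (n = 0 → e ≠ 0) → ERab t n e)
    (hZ : ∀ m, n = m + 1 → ∀ b c : A, ¬ ((m + 2) • c = 0 ∧ b = c) → Z t m b c = 0)
    {σ : A} (hσ : AllowedW n σ) {b₁ b₂ c c₀ : A} (o1 : OKp n σ c b₁) (o2 : OKp n σ c b₂)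
    (o3 : OKp n σ c₀ b₁) (o4 : OKp n σ c₀ b₂) :
    (Z t n b₁ c + Z t n (-b₁ - σ) c) - (Z t n b₂ c + Z t n (-b₂ - σ) c) =
      (Z t n b₁ c₀ + Z t n (-b₁ - σ) c₀) - (Z t n b₂ c₀ + Z t n (-b₂ - σ) c₀) := by
  classical
  obtain ⟨τ, hτ2⟩ : ∃ τ : A, τ + τ = σ := by
    obtain ⟨τ, h⟩ := hTD.div 1 σ
    exact ⟨τ, by rw [← h, two_nsmul]⟩
  set e : A := (n + 2) • τ with heτ
  have he : e + e = 0 := by rw [heτ, ← smul_add, hτ2, hσ.1]
  have hneg : -e = e := neg_eq_of_add_eq_zero_left he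
  have hn : n = 0 → e ≠ 0 := by
    intro h0
    rw [heτ, h0, zero_add, two_nsmul, hτ2]
    exact hσ.2 h0
  have hnτ : n • τ = e - σ := by
    rw [heτ, add_smul, two_nsmul, hτ2, add_sub_cancel_right]
  obtain ⟨S₁, hS₁, k1⟩ : ∃ S₁ : Finset A, (∀ z, z ∈ S₁ ↔ n • z = e) ∧ S₁.card = n ^ 2 := by
    rcases n with _ | m
    · refine ⟨∅, fun z => ?_, rfl⟩
      rw [zero_smul]
      exact ⟨fun h => absurd h (notMem_empty z), fun h => absurd h.symm (hn rfl)⟩
    · exact ⟨sol (m + 1) e, fun z => mem_sol, card_sol hTD m e⟩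
  set S₂ : Finset A := sol (n + 2) e with hS₂'
  have hS₂ : ∀ z, z ∈ S₂ ↔ (n + 2) • z = e := fun z => mem_sol2
  have hWx : ∀ b w : A, w ∈ sol (n + 1) (b + e) ↔ (n + 1) • w + e = b := by
    intro b w
    rw [mem_sol]
    constructor
    · intro h; rw [h, add_assoc, he, add_zero]
    · rintro rfl; rw [add_assoc, he, add_zero]
  have hok : ∀ c : A, OKp n σ c b₁ → OKp n σ c b₂ →
      ((n • (c + τ) ≠ e ∧ (n + 2) • (c + τ) ≠ e) ∨
        (c + τ ≠ b₁ + τ ∧ c + τ ≠ -(b₁ + τ) ∧ c + τ ≠ b₂ + τ ∧ c + τ ≠ -(b₂ + τ))) := by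
    intro c p1 p2
    by_cases h : (n + 2) • c = 0 ∨ n • c = σ
    · right
      have q : ∀ b, OKp n σ c b → c + τ ≠ b + τ ∧ c + τ ≠ -(b + τ) := by
        intro b hb
        constructor
        · intro h'
          exact hb ⟨h, Or.inl (add_right_cancel h').symm⟩
        · intro h'
          refine hb ⟨h, Or.inr ?_⟩
          rw [← hτ2]
          have : b + τ = -(c + τ) := by rw [h', neg_neg]
          calc b = (b + τ) - τ := by abel
            _ = -c - (τ + τ) := by rw [this]; abel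
      exact ⟨(q b₁ p1).1, (q b₁ p1).2, (q b₂ p2).1, (q b₂ p2).2⟩
    · left
      push Not at h
      constructor
      · intro h'
        rw [smul_add, hnτ] at h'
        apply h.2
        have : n • c = (n • c + (e - σ)) - (e - σ) := by abel
        rw [this, h']; abel
      · intro h'
        rw [smul_add, ← heτ] at h'
        exact h.1 (by simpa using h')
  have hne : ∀ c : A, ∀ b, OKp n σ c b → ¬ (n • (c + τ) = e ∧ c + τ = b + τ) ∧
      ¬ (n • (c + τ) = e ∧ c + τ = -(b + τ)) := by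
    intro c b hb
    have h0 : n • (c + τ) = e → n • c = σ := by
      intro h'
      rw [smul_add, hnτ] at h'
      have : n • c = (n • c + (e - σ)) - (e - σ) := by abel
      rw [this, h']; abel
    constructor
    · rintro ⟨h1, h2⟩
      exact hb ⟨Or.inr (h0 h1), Or.inl (add_right_cancel h2).symm⟩
    · rintro ⟨h1, h2⟩
      refine hb ⟨Or.inr (h0 h1), Or.inr ?_⟩
      rw [← hτ2]
      have : b + τ = -(c + τ) := by rw [h2, neg_neg]
      calc b = (b + τ) - τ := by abel
        _ = -c - (τ + τ) := by rw [this]; abel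
  have main := Y_rel ht (j := n) td (hTD.div n) he (hER e he hn) (b₁ := b₁ + τ) (b₂ := b₂ + τ)
    (c := c + τ) (c₀ := c₀ + τ) hS₁ hS₂ (hWx _) (hWx _) (hWx _) (hWx _) k1
    (card_sol hTD (n + 1) e) (card_sol hTD n _) (card_sol hTD n _) (hok c o1 o2) (hok c₀ o3 o4)
    (fun _ => rfl)
  have z1 : ∀ b c : A, AA t S₂ (sol (n + 1) (-(b + τ) + e)) ((n + 1) • (c + τ) + e + (c + τ)) (b + τ)
      (c + τ) = Z t n b c := fun b c =>
    Z_eq_AA he heτ.symm hS₂ (hWx (-(b + τ))) rfl rfl
  have z2 : ∀ b c : A, AA t S₂ (sol (n + 1) (b + τ + e)) ((n + 1) • (c + τ) + e + (c + τ)) (-(b + τ))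
      (c + τ) = Z t n (-b - σ) c := fun b c =>
    Z_eq_AA he heτ.symm hS₂ (fun w => by rw [neg_neg]; exact hWx (b + τ) w) (by rw [← hτ2]; abel) rfl
  have z3 : ∀ b c : A, OKp n σ c b → AA t (sol (n + 1) (b + τ + e)) S₁
      ((n + 1) • (c + τ) + e - (b + τ)) (b + τ) (c + τ) = 0 := fun b c h =>
    AA_zero ht he hn (hTD.div n) hZ (hWx (b + τ)) hS₁ (hne c b h).1 rfl
  have z4 : ∀ b c : A, OKp n σ c b → AA t (sol (n + 1) (-(b + τ) + e)) S₁
      ((n + 1) • (c + τ) + e + (b + τ)) (-(b + τ)) (c + τ) = 0 := fun b c h =>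
    AA_zero ht he hn (hTD.div n) hZ (hWx (-(b + τ))) hS₁ (hne c b h).2 (by abel)
  rw [z1, z1, z1, z1, z2, z2, z2, z2, z3 b₁ c o1, z3 b₂ c o2, z3 b₁ c₀ o3, z3 b₂ c₀ o4,
    z4 b₁ c o1, z4 b₂ c o2, z4 b₁ c₀ o3, z4 b₂ c₀ o4] at main
  simpa only [sub_zero] using main

end K4M
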