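import Pool.Agent.Lib_helper60.K4M.Geo

/-!
The symmetric biquadratic form: `(X - x(a+b)) (X - x(a-b)) (x_a - x_b)² = N(x_a, x_b, X)`.
-/

set_option autoImplicit false
set_option linter.unusedSectionVars false

namespace K4M

open WeierstrassCurve.Affine

section Biq

variable {F : Type*} [Field F]

/-- the symmetric biquadratic form of the addition law in the `x`-coordinates -/
def NN (W : WeierstrassCurve.Affine F) (u v w : F) : F :=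
  u ^ 2 * v ^ 2 + v ^ 2 * w ^ 2 + w ^ 2 * u ^ 2 - 2 * u * v * w * (u + v + w) - W.b₂ * u * v * w
    - W.b₄ * (u * v + v * w + w * u) - W.b₆ * (u + v + w) - W.b₈

lemma NN_swap (W : WeierstrassCurve.Affine F) (u v w : F) : NN W v u w = NN W u v w := by
  unfold NN; ring

lemma NN_swap' (W : WeierstrassCurve.Affine F) (u v w : F) : NN W u w v = NN W u v w := by
  unfold NN; ring

/-- the `x`-coordinate of a point, junk value at the origin -/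
def xc {W : WeierstrassCurve.Affine F} (a : W.Point) : F := (xv a).1

variable [DecidableEq F] {W : WeierstrassCurve.Affine F}

lemma xv_of_ne {a : W.Point} (ha : a ≠ 0) : xv a = (xc a, 1) := by
  rcases a with _ | ⟨x, y, h⟩
  · exact absurd rfl ha
  · rfl

/-- (S1) -/
theorem S1 {a b : W.Point} (ha : a ≠ 0) (hb : b ≠ 0) (hab : a ≠ b) (hab' : a ≠ -b) (X : F) :
    (X - xc (a + b)) * (X - xc (a - b)) * (xc a - xc b) ^ 2 = NN W (xc a) (xc b) X := by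
  rcases a with _ | ⟨x₁, y₁, h₁⟩
  · exact absurd rfl ha
  rcases b with _ | ⟨x₂, y₂, h₂⟩
  · exact absurd rfl hb
  have hx := x_ne hab hab'
  rw [sub_eq_add_neg (Point.some x₁ y₁ h₁), Point.neg_some, Point.add_of_X_ne hx,
    Point.add_of_X_ne hx]
  simp only [xc, xv]
  rw [slope_of_X_ne hx, slope_of_X_ne hx]
  have e1 := (equation_iff' x₁ y₁).mp h₁.1
  have e2 := (equation_iff' x₂ y₂).mp h₂.1
  have hd : x₁ - x₂ ≠ 0 := sub_ne_zero.mpr hx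
  set s : F := W.addX x₁ x₂ ((y₁ - y₂) / (x₁ - x₂)) with hs
  set t : F := W.addX x₁ x₂ ((y₁ - W.negY x₂ y₂) / (x₁ - x₂)) with ht
  have hs' : s * (x₁ - x₂) ^ 2 = (y₁ - y₂) ^ 2 + W.a₁ * (y₁ - y₂) * (x₁ - x₂)
      - (W.a₂ + x₁ + x₂) * (x₁ - x₂) ^ 2 := by
    rw [hs, addX]; field_simp; ring
  have ht' : t * (x₁ - x₂) ^ 2 = (y₁ - W.negY x₂ y₂) ^ 2 + W.a₁ * (y₁ - W.negY x₂ y₂) * (x₁ - x₂)
      - (W.a₂ + x₁ + x₂) * (x₁ - x₂) ^ 2 := by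
    rw [ht, addX]; field_simp; ring
  have hsum : (s + t) * (x₁ - x₂) ^ 2 = 2 * x₁ * x₂ * (x₁ + x₂) + W.b₂ * x₁ * x₂
      + W.b₄ * (x₁ + x₂) + W.b₆ := by
    rw [add_mul, hs', ht', WeierstrassCurve.b₂, WeierstrassCurve.b₄, WeierstrassCurve.b₆, negY]
    linear_combination 2 * e1 + 2 * e2
  have hprod : s * t * (x₁ - x₂) ^ 2 = x₁ ^ 2 * x₂ ^ 2 - W.b₄ * x₁ * x₂ - W.b₆ * (x₁ + x₂)
      - W.b₈ := by
    apply mul_right_cancel₀ (pow_ne_zero 2 hd)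
    have : s * t * (x₁ - x₂) ^ 2 * (x₁ - x₂) ^ 2 = (s * (x₁ - x₂) ^ 2) * (t * (x₁ - x₂) ^ 2) := by
      ring
    rw [this, hs', ht', WeierstrassCurve.b₄, WeierstrassCurve.b₆, WeierstrassCurve.b₈, negY]
    generalize W.a₁ = a₁ at *
    generalize W.a₂ = a₂ at *
    generalize W.a₃ = a₃ at *
    generalize W.a₄ = a₄ at *
    generalize W.a₆ = a₆ at *
    linear_combination (a₁*a₃*x₁ - a₁*a₃*x₂ + a₁*x₁*y₁ - 2*a₁*x₂*y₂ + a₁^2*x₁*x₂ - a₁^2*x₂^2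
        + 4*a₂*x₁*x₂ - a₂*x₁^2 - 2*a₂*x₂^2 + a₃*y₁ - 2*a₃*y₂ + a₄*x₁ + a₆ + 2*x₁*x₂^2 + 2*x₁^2*x₂
        - x₁^3 - 2*x₂^3 + y₁^2 - 2*y₂^2) * e1
      + (-a₁*a₃*x₁ + a₁*a₃*x₂ + a₁*x₂*y₂ + a₁^2*x₁*x₂ - a₁^2*x₁^2 + 4*a₂*x₁*x₂ - 4*a₂*x₁^2
        - a₂*x₂^2 + a₃*y₂ - 2*a₄*x₁ + a₄*x₂ - a₆ + 2*x₁*x₂^2 + 2*x₁^2*x₂ - 4*x₁^3 - x₂^3
        + y₂^2) * e2
  unfold NN
  linear_combination (-X) * hsum + hprod

/-- (S2) -/
theorem S2 {a : W.Point} (ha : a ≠ 0) (haa : a + a ≠ 0) (X : F) :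
    (X - xc (a + a)) * ps a ^ 2 = - NN W (xc a) (xc a) X := by
  have hps : ps a ≠ 0 := fun h => haa ((ps_eq_zero_iff ha).mp h)
  rcases a with _ | ⟨x₁, y₁, h₁⟩
  · exact absurd rfl ha
  have hy : y₁ ≠ W.negY x₁ y₁ := by
    intro h
    apply hps
    rw [ps_some, ← h, sub_self]
  rw [Point.add_self_of_Y_ne hy]
  simp only [xc, xv]
  rw [slope_of_Y_ne rfl hy]
  have e1 := (equation_iff' x₁ y₁).mp h₁.1
  have hd : y₁ - W.negY x₁ y₁ ≠ 0 := sub_ne_zero.mpr hy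
  set s : F := W.addX x₁ x₁ ((3 * x₁ ^ 2 + 2 * W.a₂ * x₁ + W.a₄ - W.a₁ * y₁) /
    (y₁ - W.negY x₁ y₁)) with hs
  have hs' : s * (y₁ - W.negY x₁ y₁) ^ 2 = (3 * x₁ ^ 2 + 2 * W.a₂ * x₁ + W.a₄ - W.a₁ * y₁) ^ 2
      + W.a₁ * (3 * x₁ ^ 2 + 2 * W.a₂ * x₁ + W.a₄ - W.a₁ * y₁) * (y₁ - W.negY x₁ y₁)
      - (W.a₂ + 2 * x₁) * (y₁ - W.negY x₁ y₁) ^ 2 := by
    rw [hs, addX]; field_simp; ring
  rw [ps_some, sub_mul, hs', NN, WeierstrassCurve.b₂, WeierstrassCurve.b₄, WeierstrassCurve.b₆,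
    WeierstrassCurve.b₈, negY]
  linear_combination (4 * X + W.a₁ ^ 2 + 4 * W.a₂ + 8 * x₁) * e1

end Biq

end K4M
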