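import Pool.Agent.Lib_helper86.K4.S2

/-!
K4M: the distribution relation (D1) for a homomorphism `π : A → A'` (isogenies).
`(dt)` `∑_{i,j ∈ ker π} t(a+i,b+j) = t'(πa,πb)`; `(DGh)` `∑_{i ∈ ker π} g(a+i) = g'(πa)+c+e[πa = 0]`;
conclusion `∑_{i,j ∈ ker π} ξ(a+i,b+j) = |ker π|⁻¹ ξ'(πa,πb)`.
-/

set_option autoImplicit false
set_option linter.unusedSectionVars false

namespace Pool.Agent.K4ParP

open Finset

variable {A A' B G H : Type*} [AddCommGroup A] [AddCommGroup A'] [AddCommGroup B] [Module ℚ B]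
  [AddCommGroup G] [Module ℚ G] [AddCommGroup H] [Module ℚ H]
  {m : B →ₗ[ℚ] G →ₗ[ℚ] H} {t : A → A → B} {g : A → G} {t' : A' → A' → B} {g' : A' → G}

/-- the distribution relation of `g` along `π`; `K` is the kernel -/
def DGh (π : A →+ A') (K : Finset A) (g : A → G) (g' : A' → G) (c e : G) [DecidableEq A'] : Prop :=
  ∀ a, ∑ i ∈ K, g (a + i) = g' (π a) + c + if π a = 0 then e else 0

lemma sum_ker_shift {M : Type*} [AddCommMonoid M] {π : A →+ A'} {K : Finset A}
    (hK : ∀ x, x ∈ K ↔ π x = 0) {j : A} (hj : π j = 0) (f : A → M) :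
    ∑ i ∈ K, f (j + i) = ∑ i ∈ K, f i := by
  refine Finset.sum_bij' (fun i _ => j + i) (fun i _ => -j + i) ?_ ?_ ?_ ?_ ?_
  · intro i hi; rw [hK] at hi ⊢; rw [map_add, hj, hi, add_zero]
  · intro i hi; rw [hK] at hi ⊢; rw [map_add, map_neg, hj, hi, neg_zero, add_zero]
  · intro i _; abel
  · intro i _; abel
  · intro i _; rfl

/-- (dt) along `π` -/
theorem dt_hom [DecidableEq A'] {w : G →ₗ[ℚ] G →ₗ[ℚ] B} (hw : ∀ x, w x x = 0) (hg' : IsG g')
    {π : A →+ A'} {K : Finset A} (hK : ∀ x, x ∈ K ↔ π x = 0) {c e : G}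
    (hd : DGh π K g g' c e) (a b : A) :
    ∑ i ∈ K, ∑ j ∈ K, om w g (a + i) (b + j) = om w g' (π a) (π b) := by
  obtain ⟨E, hE⟩ : ∃ E : A → G, ∀ x, E x = g' (π x) + c + if π x = 0 then e else 0 :=
    ⟨_, fun _ => rfl⟩
  have hd : ∀ x, ∑ i ∈ K, g (x + i) = E x := fun x => by rw [hE]; exact hd x
  have h1 : ∑ i ∈ K, ∑ j ∈ K, w (g (a + i)) (g (b + j)) = w (E a) (E b) := by
    rw [← hd a, map_sum, LinearMap.sum_apply]
    refine Finset.sum_congr rfl fun i _ => ?_
    rw [← hd b, map_sum]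
  have h2 : ∑ i ∈ K, ∑ j ∈ K, w (g (b + j)) (g (a + i + (b + j))) =
      w (E b) (E (a + b)) := by
    rw [Finset.sum_comm, ← hd b, map_sum, LinearMap.sum_apply]
    refine Finset.sum_congr rfl fun j hj => ?_
    rw [← hd (a + b), ← map_sum, ← sum_ker_shift hK ((hK j).mp hj) (fun i => g (a + b + i))]
    congr 1
    refine Finset.sum_congr rfl fun i _ => ?_
    congr 1; abel
  have h3 : ∑ i ∈ K, ∑ j ∈ K, w (g (a + i + (b + j))) (g (a + i)) =
      w (E (a + b)) (E a) := by
    rw [← hd a, map_sum]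
    refine Finset.sum_congr rfl fun i hi => ?_
    rw [← hd (a + b), ← sum_ker_shift hK ((hK i).mp hi) (fun i => g (a + b + i)), map_sum,
      LinearMap.sum_apply]
    refine Finset.sum_congr rfl fun j _ => ?_
    congr 3; abel
  have h4 : ∑ i ∈ K, ∑ j ∈ K, om w g (a + i) (b + j) =
      w (E a) (E b) + w (E b) (E (a + b)) + w (E (a + b)) (E a) := by
    rw [← h1, ← h2, ← h3]
    simp only [om, Finset.sum_add_distrib]
  rw [h4]
  have h5 : w (E a) (E b) + w (E b) (E (a + b)) + w (E (a + b)) (E a) =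
      w (g' (π a) + if π a = 0 then e else 0) (g' (π b) + if π b = 0 then e else 0) +
      w (g' (π b) + if π b = 0 then e else 0)
        (g' (π (a + b)) + if π (a + b) = 0 then e else 0) +
      w (g' (π (a + b)) + if π (a + b) = 0 then e else 0)
        (g' (π a) + if π a = 0 then e else 0) := by
    have e1 : ∀ x, E x = g' (π x) + (if π x = 0 then e else 0) + c := fun x => by
      rw [hE]; abel
    rw [e1, e1, e1]
    exact om_shift hw _ _ _ c
  rw [h5]
  unfold om
  rw [← map_add π a b]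
  by_cases ha : π a = 0
  · rw [map_add π a b, ha, zero_add]
    rw [hw, w_swap hw (g' (π b) + if π b = 0 then e else 0), hw, w_swap hw (g' (π b))]
    abel
  by_cases hb : π b = 0
  · rw [map_add π a b, hb, add_zero]
    rw [hw, w_swap hw (g' (π a) + if π a = 0 then e else 0), hw, w_swap hw (g' (π a))]
    abel
  by_cases hc : π (a + b) = 0
  · have hb' : π b = -(π a) := by
      rw [map_add π a b] at hc
      exact eq_neg_of_add_eq_zero_right hc
    rw [hc, hb', hg']
    simp only [neg_eq_zero, if_neg ha, add_zero, hw, w_swap hw (g' (π a))]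
    simp only [ite_true]
    abel
  · simp only [if_neg ha, if_neg hb, if_neg hc, add_zero]

variable [Fintype A]

lemma sum_t_hom (ht : IsT t) {π : A →+ A'} {K : Finset A}
    (hdt : ∀ a b, ∑ i ∈ K, ∑ j ∈ K, t (a + i) (b + j) = t' (π a) (π b)) (a : A) :
    ∑ x, t' (π a) (π x) = 0 := by
  simp only [← hdt]
  rw [Finset.sum_comm]
  refine Finset.sum_eq_zero fun i _ => ?_
  rw [Finset.sum_comm]
  refine Finset.sum_eq_zero fun j _ => ?_
  rw [← sum_t ht (a + i)]
  exact Equiv.sum_comp (Equiv.addRight j) (fun e => t (a + i) e)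

/-- the sum of `γ` over the kernel -/
lemma sum_gam_hom [DecidableEq A] [DecidableEq A'] (ht : IsT t) {π : A →+ A'} {K : Finset A}
    (hK : ∀ x, x ∈ K ↔ π x = 0) {c e : G} (hd : DGh π K g g' c e)
    (hdt : ∀ a b, ∑ i ∈ K, ∑ j ∈ K, t (a + i) (b + j) = t' (π a) (π b)) (a b : A) :
    (K.card : ℚ) • ∑ i ∈ K, ∑ j ∈ K, gam m t g (a + i) (b + j) =
      ∑ x, m (t' (π a) (π x)) (g' (π x + π b))
        + (K.card : ℚ) • m (t' (π a) (-(π b))) e := by
  obtain ⟨E, hE⟩ : ∃ E : A → G, ∀ x, E x = g' (π x) + c + if π x = 0 then e else 0 :=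
    ⟨_, fun _ => rfl⟩
  have hd : ∀ x, ∑ i ∈ K, g (x + i) = E x := fun x => by rw [hE]; exact hd x
  have h1 : ∑ i ∈ K, ∑ j ∈ K, gam m t g (a + i) (b + j) =
      ∑ x, m (∑ i ∈ K, t (a + i) x) (E (x + b)) := by
    unfold gam
    have : ∀ i ∈ K, ∑ j ∈ K, ∑ x, m (t (a + i) x) (g (x + (b + j))) =
        ∑ x, m (t (a + i) x) (E (x + b)) := by
      intro i _
      rw [Finset.sum_comm]
      refine Finset.sum_congr rfl fun x _ => ?_
      rw [← hd (x + b), map_sum]
      refine Finset.sum_congr rfl fun j _ => ?_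
      congr 2; abel
    rw [Finset.sum_congr rfl this, Finset.sum_comm]
    refine Finset.sum_congr rfl fun x _ => ?_
    rw [map_sum, LinearMap.sum_apply]
  have h2 : (K.card : ℚ) • ∑ x, m (∑ i ∈ K, t (a + i) x) (E (x + b)) =
      ∑ x, m (t' (π a) (π x)) (E (x + b)) := by
    have : ∀ j ∈ K, ∑ x, m (∑ i ∈ K, t (a + i) (x + j)) (E (x + b)) =
        ∑ x, m (∑ i ∈ K, t (a + i) x) (E (x + b)) := by
      intro j hj
      conv_rhs => rw [← Equiv.sum_comp (Equiv.addRight j) _]
      simp only [Equiv.coe_addRight]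
      refine Finset.sum_congr rfl fun x _ => ?_
      congr 1
      rw [hE, hE]
      have hk : π (x + j + b) = π (x + b) := by
        rw [map_add, map_add, map_add, (hK j).mp hj, add_zero]
      rw [hk]
    have h3 : ∑ j ∈ K, ∑ x, m (∑ i ∈ K, t (a + i) (x + j)) (E (x + b)) =
        (K.card : ℚ) • ∑ x, m (∑ i ∈ K, t (a + i) x) (E (x + b)) := by
      rw [Finset.sum_congr rfl this, Finset.sum_const, ← Nat.cast_smul_eq_nsmul ℚ]
    rw [← h3, Finset.sum_comm]
    refine Finset.sum_congr rfl fun x _ => ?_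
    rw [← hdt a x, ← LinearMap.sum_apply, ← map_sum, Finset.sum_comm]
  rw [h1, h2]
  have h4 : ∀ x, m (t' (π a) (π x)) (E (x + b)) = m (t' (π a) (π x)) (g' (π x + π b))
      + m (t' (π a) (π x)) c + (if π x + π b = 0 then m (t' (π a) (π x)) e else 0) := by
    intro x
    rw [hE, map_add π, map_add, map_add]
    congr 1
    split_ifs
    · rfl
    · exact map_zero _
  simp only [h4, Finset.sum_add_distrib]
  have h5 : ∑ x, m (t' (π a) (π x)) c = 0 := sum_left _ _ (sum_t_hom ht hdt a)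
  have h6 : ∑ x : A, (if π x + π b = 0 then m (t' (π a) (π x)) e else 0) =
      (K.card : ℚ) • m (t' (π a) (-(π b))) e := by
    rw [← Finset.sum_filter]
    have : ∀ x ∈ univ.filter (fun x : A => π x + π b = 0),
        m (t' (π a) (π x)) e = m (t' (π a) (-(π b))) e := by
      intro x hx
      rw [Finset.mem_filter] at hx
      rw [eq_neg_of_add_eq_zero_left hx.2]
    rw [Finset.sum_congr rfl this, Finset.sum_const, ← Nat.cast_smul_eq_nsmul ℚ]
    congr 2
    refine Finset.card_bij' (fun x _ => x + b) (fun x _ => x - b) ?_ ?_ ?_ ?_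
    · intro x hx; rw [Finset.mem_filter] at hx; rw [hK, map_add]; exact hx.2
    · intro x hx
      rw [hK] at hx
      rw [Finset.mem_filter]
      refine ⟨Finset.mem_univ _, ?_⟩
      rw [map_sub, hx]; abel
    · intro x _; abel
    · intro x _; abel
  rw [h5, h6]; abel

/-- **(D1) along a homomorphism** (no surjectivity needed) -/
theorem D1_hom [DecidableEq A] [DecidableEq A'] [Fintype A'] (ht : IsT t) (hg : IsG g)
    (hr : ∀ P, Rel m t g P) (ht' : IsT t') (hg' : IsG g') (hr' : ∀ P, Rel m t' g' P)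
    {π : A →+ A'} {K : Finset A} (hK : ∀ x, x ∈ K ↔ π x = 0) {c e : G} (hd : DGh π K g g' c e)
    (hdt : ∀ a b, ∑ i ∈ K, ∑ j ∈ K, t (a + i) (b + j) = t' (π a) (π b)) (a b : A) :
    ∑ i ∈ K, ∑ j ∈ K, xi m t g (a + i) (b + j) = (K.card : ℚ)⁻¹ • xi m t' g' (π a) (π b) := by
  have hn : (Fintype.card A : ℚ) ≠ 0 := Nat.cast_ne_zero.mpr Fintype.card_ne_zero
  have hN : (K.card : ℚ) ≠ 0 := by
    have : (0 : A) ∈ K := (hK 0).mpr (map_zero π)
    exact_mod_cast (Finset.card_pos.mpr ⟨0, this⟩).ne'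
  -- the relations for the pull-back
  have ht1 : IsT (fun a b : A => t' (π a) (π b)) :=
    { swap := fun a b => ht'.swap _ _
      rot := fun a b => by
        rw [← ht'.rot (π a) (π b)]; congr 1; rw [map_sub, map_neg]
      even := fun a b => by rw [map_neg, map_neg]; exact ht'.even _ _ }
  have hg1 : IsG (fun a : A => g' (π a)) := fun a => by
    show g' (π (-a)) = g' (π a)
    rw [map_neg]; exact hg' _
  have hr1 : ∀ P : A, Rel m (fun a b : A => t' (π a) (π b)) (fun a => g' (π a)) P := by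
    intro P a b c d _ _ _ _ _ _ _ _ _ _ _ _
    have hth : ∀ x y z, th (fun a b : A => t' (π a) (π b)) P x y z =
        th t' (π P) (π x) (π y) (π z) := by
      intro x y z
      unfold th
      simp only [map_add, map_sub, map_neg]
    have hss : ∀ x y, ss (fun a : A => g' (π a)) P x y = ss g' (π P) (π x) (π y) := by
      intro x y
      unfold ss
      simp only [map_add, map_sub]
    unfold CR
    rw [hth, hth, hth, hth, hss, hss, hss, hss]
    exact rel_all ht' (hr' (π P)) (π a) (π b) (π c) (π d)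
  have F := xi_gam (m := m) ht1 hg1 hr1 a b
  unfold gam xi at F
  simp only [map_add π] at F
  have S : (K.card : ℚ) • ((Fintype.card A : ℚ) •
      ∑ i ∈ K, ∑ j ∈ K, xi m t g (a + i) (b + j)) =
      (Fintype.card A : ℚ) • xi m t' g' (π a) (π b) := by
    have h1 : (Fintype.card A : ℚ) • ∑ i ∈ K, ∑ j ∈ K, xi m t g (a + i) (b + j) =
        (3 : ℚ) • (∑ i ∈ K, ∑ j ∈ K, gam m t g (a + i) (b + j)
          + ∑ i ∈ K, ∑ j ∈ K, gam m t g (b + i) (a + j)) := by
      rw [Finset.sum_comm (f := fun i j => gam m t g (b + i) (a + j)), ← Finset.sum_add_distrib]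
      simp only [Finset.smul_sum, ← Finset.sum_add_distrib]
      refine Finset.sum_congr rfl fun i _ => Finset.sum_congr rfl fun j _ => ?_
      exact xi_gam ht hg hr _ _
    rw [h1, smul_smul, mul_comm, ← smul_smul, smul_add, sum_gam_hom ht hK hd hdt,
      sum_gam_hom ht hK hd hdt]
    have h2 : t' (π b) (-(π a)) = - t' (π a) (-(π b)) := by
      rw [← ht'.even (π b), neg_neg, ht'.swap]
    unfold xi
    rw [F, h2, map_neg, LinearMap.neg_apply]
    module
  rw [← smul_right_injective H hn |>.eq_iff]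
  rw [← smul_right_injective H hN |>.eq_iff]
  show (K.card : ℚ) • ((Fintype.card A : ℚ) • _) =
    (K.card : ℚ) • ((Fintype.card A : ℚ) • _)
  rw [S, smul_smul, smul_smul]
  congr 1
  field_simp

end Pool.Agent.K4ParP
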