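import Pool.Agent.Lib_helper76.K4M.D1Isog

/-!
K4M: (D1) along a homomorphism of (infinite) torsion groups.
-/

set_option autoImplicit false
set_option linter.unusedSectionVars false

namespace Pool.Agent.K4ParP

open Finset

variable {A T T' B G H : Type*} [AddCommGroup A] [AddCommGroup T] [AddCommGroup T']
  [AddCommGroup B] [Module ℚ B]
  [AddCommGroup G] [Module ℚ G] [AddCommGroup H] [Module ℚ H]
  {m : B →ₗ[ℚ] G →ₗ[ℚ] H} {t : T → T → B} {g : T → G} {t' : T' → T' → B} {g' : T' → G}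

lemma IsT.res (ι : A →+ T) (ht : IsT t) : IsT (fun a b => t (ι a) (ι b)) where
  swap := fun a b => ht.swap _ _
  rot := fun a b => by
    rw [← ht.rot (ι a) (ι b)]; congr 1; rw [map_sub, map_neg]
  even := fun a b => by rw [map_neg, map_neg]; exact ht.even _ _

lemma IsG.res (ι : A →+ T) (hg : IsG g) : IsG (fun a => g (ι a)) := fun a => by
  show g (ι (-a)) = g (ι a)
  rw [map_neg]; exact hg _

lemma th_res (ι : A →+ T) (P x y z : A) :
    th (fun a b => t (ι a) (ι b)) P x y z = th t (ι P) (ι x) (ι y) (ι z) := by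
  unfold th
  simp only [map_add, map_sub, map_neg]

lemma ss_res (ι : A →+ T) (P x y : A) :
    ss (fun a => g (ι a)) P x y = ss g (ι P) (ι x) (ι y) := by
  unfold ss
  simp only [map_add, map_sub]

lemma CR_res (ι : A →+ T) (P a b c d : A) :
    CR (fun a b => t (ι a) (ι b)) P a b c d = CR t (ι P) (ι a) (ι b) (ι c) (ι d) := by
  unfold CR
  simp only [th_res]

lemma Rel.res (ι : A →+ T) (hι : Function.Injective ι) {P : A} (hr : Rel m t g (ι P)) :
    Rel m (fun a b => t (ι a) (ι b)) (fun a => g (ι a)) P := by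
  have hz : ∀ a b : A, a + b + P ≠ 0 → ι a + ι b + ι P ≠ 0 := by
    intro a b h h'
    apply h
    apply hι
    rw [map_add, map_add, map_zero, h']
  intro a b c d h1 h2 h3 h4 h5 h6 h7 h8 h9 h10 h11 h12
  rw [CR_res, ss_res, ss_res, ss_res, ss_res]
  exact hr _ _ _ _ (hι.ne h1) (hz _ _ h2) (hι.ne h3) (hz _ _ h4) (hι.ne h5) (hz _ _ h6)
    (hι.ne h7) (hz _ _ h8) (hι.ne h9) (hz _ _ h10) (hι.ne h11) (hz _ _ h12)

lemma sum_sub {M : Type*} [AddCommMonoid M] {A : AddSubgroup T} [DecidablePred (· ∈ A)]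
    {K : Finset T} (hKA : ∀ x ∈ K, x ∈ A) (f : T → M) :
    ∑ i ∈ K.subtype (· ∈ A), f i = ∑ i ∈ K, f i :=
  Finset.sum_subtype_of_mem f hKA

/-- **(D1) along a homomorphism of torsion groups.** `hf`: every finite set lies in a finite
subgroup. -/
theorem D1_homT [DecidableEq T'] (hf : ∀ S : Finset T, ∃ A : AddSubgroup T, Finite A ∧ ∀ x ∈ S, x ∈ A)
    (ht : IsT t) (hg : IsG g) (hr : ∀ P, Rel m t g P) (ht' : IsT t') (hg' : IsG g')
    (hr' : ∀ P, Rel m t' g' P)
    {π : T →+ T'} {K : Finset T} (hK : ∀ x, x ∈ K ↔ π x = 0) {c e : G} (hd : DGh π K g g' c e)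
    (hdt : ∀ a b, ∑ i ∈ K, ∑ j ∈ K, t (a + i) (b + j) = t' (π a) (π b)) (a b : T) :
    ∑ i ∈ K, ∑ j ∈ K, xi m t g (a + i) (b + j) = (K.card : ℚ)⁻¹ • xi m t' g' (π a) (π b) := by
  classical
  obtain ⟨A, hAf, hA⟩ := hf (insert a (insert b K))
  have ha : a ∈ A := hA a (by simp)
  have hb : b ∈ A := hA b (by simp)
  have hKA : ∀ x ∈ K, x ∈ A := fun x hx => hA x (by simp [hx])
  have : Fintype A := Fintype.ofFinite A
  have : Finite (A.map π) := by
    have : Function.Surjective (fun x : A => (⟨π x, AddSubgroup.mem_map_of_mem π x.2⟩ : A.map π)) := by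
      rintro ⟨y, hy⟩
      obtain ⟨x, hx, rfl⟩ := AddSubgroup.mem_map.mp hy
      exact ⟨⟨x, hx⟩, rfl⟩
    exact Finite.of_surjective _ this
  have : Fintype (A.map π) := Fintype.ofFinite _
  set π₀ : A →+ A.map π := (π.comp A.subtype).codRestrict (A.map π)
    (fun x => AddSubgroup.mem_map_of_mem π x.2) with hπ₀
  have hc : ∀ x : A, ((π₀ x : A.map π) : T') = π x := fun x => rfl
  set K₀ : Finset A := K.subtype (· ∈ A) with hK₀
  have hmem : ∀ x : A, x ∈ K₀ ↔ π₀ x = 0 := by
    intro x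
    rw [hK₀, Finset.mem_subtype, hK]
    constructor
    · intro h; exact Subtype.ext h
    · intro h; rw [← hc, h]; rfl
  have hsumG : ∀ (f : T → G), ∑ i ∈ K₀, f i = ∑ i ∈ K, f i := fun f => sum_sub hKA f
  have hsumB : ∀ (f : T → B), ∑ i ∈ K₀, f i = ∑ i ∈ K, f i := fun f => sum_sub hKA f
  have hsumH : ∀ (f : T → H), ∑ i ∈ K₀, f i = ∑ i ∈ K, f i := fun f => sum_sub hKA f
  have hcard : K₀.card = K.card := by
    rw [hK₀, Finset.card_subtype, Finset.filter_true_of_mem hKA]
  have ho := D1_hom (m := m) (ht.res A.subtype) (hg.res A.subtype)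
    (fun P => Rel.res A.subtype Subtype.coe_injective (hr _))
    (ht'.res (A.map π).subtype) (hg'.res (A.map π).subtype)
    (fun P => Rel.res (A.map π).subtype Subtype.coe_injective (hr' _)) hmem (c := c) (e := e)
    (by
      intro x
      have := hd x
      rw [← hsumG] at this
      show ∑ i ∈ K₀, g ((x + i : A) : T) = g' ((π₀ x : A.map π) : T') + c + _
      rw [hc]
      simp only [AddSubgroup.coe_add]
      rw [this]
      congr 1
      have : (π₀ x = 0) ↔ (π x = 0) := by rw [← hc]; exact Subtype.ext_iff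
      simp only [this])
    (by
      intro x y
      have := hdt x y
      rw [← hsumB] at this
      show ∑ i ∈ K₀, ∑ j ∈ K₀, t ((x + i : A) : T) ((y + j : A) : T) = t' (π x) (π y)
      rw [← this]
      refine Finset.sum_congr rfl fun i _ => ?_
      rw [← hsumB]
      rfl)
    ⟨a, ha⟩ ⟨b, hb⟩
  rw [hcard] at ho
  have e1 : ∀ i ∈ K, ∑ j ∈ K, xi m t g (a + i) (b + j) = ∑ j ∈ K₀, xi m t g (a + i) (b + j) := by
    intro i _
    rw [← hsumH (fun j => xi m t g (a + i) (b + j))]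
  rw [Finset.sum_congr rfl e1, ← hsumH (fun i => ∑ j ∈ K₀, xi m t g (a + i) (b + j))]
  exact ho

end Pool.Agent.K4ParP
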