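import Pool.Agent.Lib_helper76.K4M.IsogB
import Pool.Agent.Lib_helper60.K4M.Main

/-!
The distribution relation of `t` under an isogeny:
`t_{A'}(φ u, φ v) = ∑_{i, j ∈ ker φ} t_A(u + i, v + j)` in `B₂(F)`.
-/

set_option autoImplicit false
set_option linter.unusedSectionVars false

open Finset

namespace K4M

section avg

variable {A A' K B : Type*} [AddCommGroup A] [Fintype A] [AddCommGroup A'] [Fintype A']
  [AddCommGroup K] [Fintype K] [AddCommGroup B] [Module ℚ B]

lemma av_comm2 (f : A → K → B) :
    av (fun x => av fun y => f x y) = av fun y => av fun x => f x y := by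
  unfold av
  simp only [← smul_sum, smul_smul]
  rw [sum_comm, mul_comm]

/-- averages over the image of a homomorphism -/
lemma av_hom (π : A →+ A') (hπ : Function.Surjective π) (f : A' → B) :
    av f = av fun x => f (π x) := by
  have h1 : av f = av fun x : A => av fun y : A' => f (y + π x) := by
    rw [← av_const (A := A) (av f)]
    apply av_congr
    intro x
    exact (av_shift f (π x)).symm
  rw [h1, av_comm2, ← av_const (A := A') (av fun x => f (π x))]
  apply av_congr
  intro y
  obtain ⟨z, rfl⟩ := hπ y
  rw [← av_shift (fun x => f (π x)) z]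
  apply av_congr
  intro x
  rw [map_add, add_comm]

lemma sum_eq_av (f : K → B) : ∑ i, f i = (Fintype.card K : ℚ) • av f := by
  unfold av
  rw [smul_smul, mul_inv_cancel₀ card_ne, one_smul]

/-- the distribution relation of `t` from the distribution relation of the symbols -/
theorem tt_dist {C : A → A → A → A → B} {C' : A' → A' → A' → A' → B} (π : A →+ A')
    (hπ : Function.Surjective π) (κ : K →+ A)
    (h : ∀ a b c d, ∑ i, ∑ j, ∑ k, ∑ l, C (a + κ i) (b + κ j) (c + κ k) (d + κ l) =
      ((Fintype.card K : ℚ) ^ 2) • C' (π a) (π b) (π c) (π d)) (u v : A) :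
    tt C' (π u) (π v) = ∑ i, ∑ j, tt C (u + κ i) (v + κ j) := by
  set m : ℚ := (Fintype.card K : ℚ) with hm
  have hm0 : m ≠ 0 := card_ne
  have h' : ∀ a b c d, C' (π a) (π b) (π c) (π d) = (m ^ 2) •
      av fun i => av fun j => av fun k => av fun l =>
        C (a + κ i) (b + κ j) (c + κ k) (d + κ l) := by
    intro a b c d
    have e := h a b c d
    simp only [sum_eq_av] at e
    have e2 : ∀ (f : K → B) (c : ℚ), av (fun i => c • f i) = c • av f := by
      intro f c
      unfold av
      rw [← smul_sum, smul_comm]
    simp only [e2, smul_smul, ← hm] at e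
    have e3 : m ^ 2 • C' (π a) (π b) (π c) (π d) = m ^ 2 • (m ^ 2 •
      av fun i => av fun j => av fun k => av fun l =>
        C (a + κ i) (b + κ j) (c + κ k) (d + κ l)) := by
      rw [← e, smul_smul]
      congr 1
      ring
    have h0 : (m ^ 2) ≠ 0 := pow_ne_zero 2 hm0
    have := congrArg (fun x => (m ^ 2)⁻¹ • x) e3
    simpa only [smul_smul, inv_mul_cancel₀ h0, one_smul, ← mul_assoc, one_mul] using this
  have lhs : tt C' (π u) (π v) = - ((m ^ 2) • av fun b => av fun d =>
      av fun i => av fun j => av fun k => av fun l =>
        C (b + u + κ i) (b + κ j) (b - v + κ k) (d + κ l)) := by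
    unfold tt ka
    rw [av_neg, av_hom π hπ]
    congr 1
    have e2 : ∀ (f : A → B) (c : ℚ), av (fun i => c • f i) = c • av f := by
      intro f c
      unfold av
      rw [← smul_sum, smul_comm]
    rw [← e2]
    apply av_congr; intro b
    rw [av_hom π hπ, ← e2]
    apply av_congr; intro d
    rw [← map_add, ← map_sub, h']
  have rhs : ∑ i, ∑ j, tt C (u + κ i) (v + κ j) = - ((m ^ 2) • av fun i : K => av fun j : K =>
      av fun b => av fun d => C (b + (u + κ i)) b (b - (v + κ j)) d) := by
    simp only [sum_eq_av]
    have e2 : ∀ (f : K → B) (c : ℚ), av (fun i => c • f i) = c • av f := by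
      intro f c
      unfold av
      rw [← smul_sum, smul_comm]
    rw [e2, smul_smul, ← hm, ← sq]
    unfold tt ka
    simp only [av_neg, smul_neg]
  rw [lhs, rhs]
  congr 2
  -- move the averages over K outside
  have s1 : (av fun b : A => av fun d : A => av fun i : K => av fun j : K => av fun k : K =>
      av fun l : K => C (b + u + κ i) (b + κ j) (b - v + κ k) (d + κ l)) =
      av fun b : A => av fun d : A => av fun i : K => av fun j : K => av fun k : K =>
        C (b + u + κ i) (b + κ j) (b - v + κ k) d := by
    apply av_congr; intro b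
    rw [av_comm2]
    rw [av_comm2 (A := A) (K := K)]
    apply av_congr; intro i
    rw [av_comm2]
    rw [av_comm2 (A := A) (K := K)]
    apply av_congr; intro j
    rw [av_comm2]
    rw [av_comm2 (A := A) (K := K)]
    apply av_congr; intro k
    rw [av_comm2, ← av_const (A := K) (av fun d => C (b + u + κ i) (b + κ j) (b - v + κ k) d)]
    apply av_congr; intro l
    exact av_shift (fun d => C (b + u + κ i) (b + κ j) (b - v + κ k) d) (κ l)
  rw [s1]
  -- exchange and shift b
  have s2 : (av fun b : A => av fun d : A => av fun i : K => av fun j : K => av fun k : K =>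
        C (b + u + κ i) (b + κ j) (b - v + κ k) d) =
      av fun j : K => av fun i : K => av fun k : K => av fun b : A => av fun d : A =>
        C (b + u + κ i) (b + κ j) (b - v + κ k) d := by
    have t1 : ∀ b : A, (av fun d : A => av fun i : K => av fun j : K => av fun k : K =>
        C (b + u + κ i) (b + κ j) (b - v + κ k) d) =
        av fun j : K => av fun i : K => av fun k : K => av fun d : A =>
        C (b + u + κ i) (b + κ j) (b - v + κ k) d := by
      intro b
      rw [av_comm2]
      have t2 : ∀ i : K, (av fun d : A => av fun j : K => av fun k : K =>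
          C (b + u + κ i) (b + κ j) (b - v + κ k) d) = av fun j : K => av fun k : K =>
          av fun d : A => C (b + u + κ i) (b + κ j) (b - v + κ k) d := by
        intro i
        rw [av_comm2]
        apply av_congr; intro j
        rw [av_comm2]
      simp only [t2]
      rw [av_comm2]
    simp only [t1]
    rw [av_comm2]
    apply av_congr; intro j
    rw [av_comm2]
    apply av_congr; intro i
    rw [av_comm2]
  rw [s2, ← av_const (A := K) (av fun i : K => av fun j : K =>
      av fun b => av fun d => C (b + (u + κ i)) b (b - (v + κ j)) d)]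
  apply av_congr; intro j
  -- fixed j: shift b by -κ j, i and k by j
  have s3 : ∀ i k : K, (av fun b : A => av fun d : A =>
      C (b + u + κ i) (b + κ j) (b - v + κ k) d) = av fun b : A => av fun d : A =>
      C (b + (u + κ (i - j))) b (b - (v + κ (j - k))) d := by
    intro i k
    rw [← av_shift (fun b : A => av fun d : A =>
      C (b + u + κ i) (b + κ j) (b - v + κ k) d) (- κ j)]
    apply av_congr; intro b
    apply av_congr; intro d
    rw [map_sub, map_sub]
    congr 1 <;> abel
  simp only [s3]
  have s4 : (av fun i : K => av fun k : K => av fun b : A => av fun d : A =>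
      C (b + (u + κ (i - j))) b (b - (v + κ (j - k))) d) =
      av fun i : K => av fun k : K => av fun b : A => av fun d : A =>
      C (b + (u + κ i)) b (b - (v + κ k)) d := by
    rw [← av_bij (fun i : K => av fun k : K => av fun b : A => av fun d : A =>
      C (b + (u + κ i)) b (b - (v + κ k)) d) (e := fun i => i - j) (Equiv.subRight j).bijective]
    apply av_congr; intro i
    exact av_bij (fun k : K => av fun b : A => av fun d : A =>
      C (b + (u + κ (i - j))) b (b - (v + κ k)) d) (e := fun k => j - k) (Equiv.subLeft j).bijective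
  exact s4

end avg

section curve

open WeierstrassCurve.Affine

variable {F : Type*} [Field F] [DecidableEq F] {W W' : WeierstrassCurve.Affine F}

/-- the map `A → A'` induced by an isogeny -/
def Isog.res (Φ : Isog W W') {A : AddSubgroup W.Point} {A' : AddSubgroup W'.Point}
    (h : A.map Φ.hom = A') : A →+ A' :=
  (Φ.hom.comp A.subtype).codRestrict A' fun a => h ▸ AddSubgroup.mem_map_of_mem _ a.2

lemma Isog.res_coe (Φ : Isog W W') {A : AddSubgroup W.Point} {A' : AddSubgroup W'.Point}
    (h : A.map Φ.hom = A') (a : A) : (Φ.res h a : W'.Point) = Φ.hom a := rfl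

lemma Isog.res_surj (Φ : Isog W W') {A : AddSubgroup W.Point} {A' : AddSubgroup W'.Point}
    (h : A.map Φ.hom = A') : Function.Surjective (Φ.res h) := by
  rintro ⟨y, hy⟩
  have hy' := hy
  rw [← h] at hy'
  obtain ⟨a, ha, rfl⟩ := AddSubgroup.mem_map.mp hy'
  exact ⟨⟨a, ha⟩, rfl⟩

/-- **distribution relation of `t` in `B₂(F)`** under an isogeny with kernel contained in `A` -/
theorem Isog.tA_dist [IsAlgClosed F] [CharZero F] [W.IsElliptic] (Φ : Isog W W')
    {A : AddSubgroup W.Point} [Fintype A] {A' : AddSubgroup W'.Point} [Fintype A']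
    [Fintype Φ.hom.ker] (h : A.map Φ.hom = A') (hA : Φ.hom.ker ≤ A) (u v : A) :
    tA A' (Φ.res h u) (Φ.res h v) = ∑ i : Φ.hom.ker, ∑ j : Φ.hom.ker,
      tA A (u + AddSubgroup.inclusion hA i) (v + AddSubgroup.inclusion hA j) := by
  apply tt_dist (Φ.res h) (Φ.res_surj h) (AddSubgroup.inclusion hA)
  intro a b c d
  exact Φ.cr_sum (a : W.Point) b c d

end curve

end K4M
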