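import Pool.Agent.Lib_helper76.K4M.D1IsogT

/-!
K4M: distribution relation of `t` (honest, in `B₂`) along a homomorphism of torsion groups, from the
distribution relation of the symbols of the pencils.
-/

set_option autoImplicit false
set_option linter.unusedSectionVars false

namespace Pool.Agent.K4ParP

open Finset

variable {T T' B : Type*} [AddCommGroup T] [AddCommGroup T']
  [AddCommGroup B] [Module ℚ B] {t : T → T → B} {t' : T' → T' → B}

section sums

variable {π : T →+ T'} {K : Finset T}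

lemma sum_K_add (hK : ∀ x, x ∈ K ↔ π x = 0) {j : T} (hj : j ∈ K) (f : T → B) :
    ∑ i ∈ K, f (i + j) = ∑ i ∈ K, f i := by
  rw [← sum_ker_shift hK ((hK j).mp hj) f]
  exact Finset.sum_congr rfl fun i _ => by rw [add_comm]

lemma sum_K_neg (hK : ∀ x, x ∈ K ↔ π x = 0) (f : T → B) :
    ∑ i ∈ K, f (-i) = ∑ i ∈ K, f i := by
  refine Finset.sum_bij' (fun i _ => -i) (fun i _ => -i) ?_ ?_ ?_ ?_ ?_
  · intro i hi; rw [hK] at hi ⊢; rw [map_neg, hi, neg_zero]
  · intro i hi; rw [hK] at hi ⊢; rw [map_neg, hi, neg_zero]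
  · intro i _; exact neg_neg i
  · intro i _; exact neg_neg i
  · intro i _; rfl

lemma K_neg (hK : ∀ x, x ∈ K ↔ π x = 0) {j : T} (hj : j ∈ K) : -j ∈ K := by
  rw [hK] at hj ⊢; rw [map_neg, hj, neg_zero]

lemma sum_K_sub (hK : ∀ x, x ∈ K ↔ π x = 0) {j : T} (hj : j ∈ K) (f : T → B) :
    ∑ i ∈ K, f (i - j) = ∑ i ∈ K, f i := by
  rw [← sum_K_add hK (K_neg hK hj) f]
  exact Finset.sum_congr rfl fun i _ => by rw [sub_eq_add_neg]

lemma sum_K_rsub (hK : ∀ x, x ∈ K ↔ π x = 0) {j : T} (hj : j ∈ K) (f : T → B) :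
    ∑ i ∈ K, f (j - i) = ∑ i ∈ K, f i := by
  rw [← sum_K_neg hK f, ← sum_K_sub hK hj (fun i => f (-i))]
  exact Finset.sum_congr rfl fun i _ => by rw [neg_sub]

lemma sum_K_nadd (hK : ∀ x, x ∈ K ↔ π x = 0) {j : T} (hj : j ∈ K) (f : T → B) :
    ∑ i ∈ K, f (-(i + j)) = ∑ i ∈ K, f i := by
  rw [← sum_K_neg hK f, ← sum_K_add hK hj (fun i => f (-i))]

/-- the symmetrised function -/
def Sy (K : Finset T) (t : T → T → B) (a b : T) : B := ∑ i ∈ K, ∑ j ∈ K, t (a + i) (b + j)

lemma sum_th (hK : ∀ x, x ∈ K ↔ π x = 0) (P a b c : T) :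
    ∑ i ∈ K, ∑ j ∈ K, ∑ k ∈ K, th t P (a + i) (b + j) (c + k) =
      (K.card : ℚ) • th (Sy K t) P a b c := by
  rw [Finset.sum_comm]
  have key : ∀ j ∈ K, ∑ i ∈ K, ∑ k ∈ K, th t P (a + i) (b + j) (c + k) =
      th (Sy K t) P a b c := by
    intro j hj
    unfold th
    simp only [Finset.sum_add_distrib]
    have t1 : ∑ i ∈ K, ∑ k ∈ K, t (a + i - (b + j)) (b + j - (c + k)) =
        Sy K t (a - b) (b - c) := by
      unfold Sy
      rw [← sum_K_sub hK hj (fun i => ∑ k ∈ K, t (a - b + i) (b - c + k))]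
      refine Finset.sum_congr rfl fun i _ => ?_
      rw [← sum_K_rsub hK hj (fun k => t (a - b + (i - j)) (b - c + k))]
      refine Finset.sum_congr rfl fun k _ => ?_
      congr 1 <;> abel
    have t2 : ∑ i ∈ K, ∑ k ∈ K, t (a + i - (b + j)) (b + j + (c + k) + P) =
        Sy K t (a - b) (b + c + P) := by
      unfold Sy
      rw [← sum_K_sub hK hj (fun i => ∑ k ∈ K, t (a - b + i) (b + c + P + k))]
      refine Finset.sum_congr rfl fun i _ => ?_
      rw [← sum_K_add hK hj (fun k => t (a - b + (i - j)) (b + c + P + k))]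
      refine Finset.sum_congr rfl fun k _ => ?_
      congr 1 <;> abel
    have t3 : ∑ i ∈ K, ∑ k ∈ K, t (a + i + (b + j) + P) (-P - (b + j) - (c + k)) =
        Sy K t (a + b + P) (-P - b - c) := by
      unfold Sy
      rw [← sum_K_add hK hj (fun i => ∑ k ∈ K, t (a + b + P + i) (-P - b - c + k))]
      refine Finset.sum_congr rfl fun i _ => ?_
      rw [← sum_K_nadd hK hj (fun k => t (a + b + P + (i + j)) (-P - b - c + k))]
      refine Finset.sum_congr rfl fun k _ => ?_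
      congr 1 <;> abel
    have t4 : ∑ i ∈ K, ∑ k ∈ K, t (-P - (a + i) - (b + j)) (b + j - (c + k)) =
        Sy K t (-P - a - b) (b - c) := by
      unfold Sy
      rw [← sum_K_nadd hK hj (fun i => ∑ k ∈ K, t (-P - a - b + i) (b - c + k))]
      refine Finset.sum_congr rfl fun i _ => ?_
      rw [← sum_K_rsub hK hj (fun k => t (-P - a - b + -(i + j)) (b - c + k))]
      refine Finset.sum_congr rfl fun k _ => ?_
      congr 1 <;> abel
    rw [t1, t2, t3, t4]
  rw [Finset.sum_congr rfl key, Finset.sum_const, ← Nat.cast_smul_eq_nsmul ℚ]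

lemma sum_const_K (x : B) : ∑ _i ∈ K, x = (K.card : ℚ) • x := by
  rw [Finset.sum_const, ← Nat.cast_smul_eq_nsmul ℚ]

lemma sum_CR (hK : ∀ x, x ∈ K ↔ π x = 0) (P a b c d : T) :
    ∑ i ∈ K, ∑ j ∈ K, ∑ k ∈ K, ∑ l ∈ K, CR t P (a + i) (b + j) (c + k) (d + l) =
      ((K.card : ℚ) ^ 2) • CR (Sy K t) P a b c d := by
  unfold CR
  simp only [Finset.sum_add_distrib, Finset.sum_sub_distrib]
  have e1 : ∑ i ∈ K, ∑ j ∈ K, ∑ k ∈ K, ∑ l ∈ K, th t P (b + j) (c + k) (d + l) =
      ((K.card : ℚ) ^ 2) • th (Sy K t) P b c d := by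
    rw [sum_const_K, sum_th hK, smul_smul, sq]
  have e2 : ∑ i ∈ K, ∑ j ∈ K, ∑ k ∈ K, ∑ l ∈ K, th t P (a + i) (c + k) (d + l) =
      ((K.card : ℚ) ^ 2) • th (Sy K t) P a c d := by
    rw [Finset.sum_comm, sum_const_K, sum_th hK, smul_smul, sq]
  have e3 : ∑ i ∈ K, ∑ j ∈ K, ∑ k ∈ K, ∑ l ∈ K, th t P (a + i) (b + j) (d + l) =
      ((K.card : ℚ) ^ 2) • th (Sy K t) P a b d := by
    simp only [sum_const_K (K := K)]
    simp only [← Finset.smul_sum]
    rw [sum_th hK, smul_smul, sq]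
  have e4 : ∑ i ∈ K, ∑ j ∈ K, ∑ k ∈ K, ∑ l ∈ K, th t P (a + i) (b + j) (c + k) =
      ((K.card : ℚ) ^ 2) • th (Sy K t) P a b c := by
    simp only [sum_const_K (K := K)]
    simp only [← Finset.smul_sum]
    rw [sum_th hK, smul_smul, sq]
  rw [e1, e2, e3, e4]
  module

lemma IsT.sym (hK : ∀ x, x ∈ K ↔ π x = 0) (ht : IsT t) : IsT (Sy K t) where
  swap := fun a b => by
    unfold Sy
    rw [Finset.sum_comm, ← Finset.sum_neg_distrib]
    refine Finset.sum_congr rfl fun i _ => ?_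
    rw [← Finset.sum_neg_distrib]
    exact Finset.sum_congr rfl fun j _ => ht.swap _ _
  rot := fun a b => by
    unfold Sy
    conv_rhs => rw [Finset.sum_comm]
    refine Finset.sum_congr rfl fun j hj => ?_
    rw [← sum_K_nadd hK hj (fun i => t (b + j) (-a - b + i))]
    refine Finset.sum_congr rfl fun i _ => ?_
    rw [← ht.rot (a + i) (b + j)]
    congr 1; abel
  even := fun a b => by
    unfold Sy
    rw [← sum_K_neg hK (fun i => ∑ j ∈ K, t (-a + i) (-b + j))]
    refine Finset.sum_congr rfl fun i _ => ?_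
    rw [← sum_K_neg hK (fun j => t (-a + -i) (-b + j))]
    refine Finset.sum_congr rfl fun j _ => ?_
    rw [← ht.even (a + i) (b + j)]
    congr 1 <;> abel

end sums

/-- **(dt) from the distribution relation of the symbols.** -/
theorem dt_of_CR (hf : ∀ S : Finset T, ∃ A : AddSubgroup T, Finite A ∧ ∀ x ∈ S, x ∈ A)
    (ht : IsT t) (ht' : IsT t') {π : T →+ T'} {K : Finset T} (hK : ∀ x, x ∈ K ↔ π x = 0)
    (h : ∀ P a b c d : T, ∑ i ∈ K, ∑ j ∈ K, ∑ k ∈ K, ∑ l ∈ K,
      CR t P (a + i) (b + j) (c + k) (d + l) =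
        ((K.card : ℚ) ^ 2) • CR t' (π P) (π a) (π b) (π c) (π d)) (a b : T) :
    ∑ i ∈ K, ∑ j ∈ K, t (a + i) (b + j) = t' (π a) (π b) := by
  classical
  obtain ⟨A, hAf, hA⟩ := hf {a, b}
  have ha : a ∈ A := hA a (by simp)
  have hb : b ∈ A := hA b (by simp)
  have : Fintype A := Fintype.ofFinite A
  have hN : (K.card : ℚ) ≠ 0 := by
    have : (0 : T) ∈ K := (hK 0).mpr (map_zero π)
    exact_mod_cast (Finset.card_pos.mpr ⟨0, this⟩).ne'
  have hS := ht.sym hK
  have hP := ht'.res π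
  have hu : IsT (fun u v => Sy K t u v - t' (π u) (π v)) :=
    { swap := fun a b => by
        show Sy K t b a - t' (π b) (π a) = -(Sy K t a b - t' (π a) (π b))
        rw [hS.swap a b, ht'.swap (π a) (π b)]; abel
      rot := fun a b => by
        show Sy K t b (-a - b) - t' (π b) (π (-a - b)) = Sy K t a b - t' (π a) (π b)
        rw [hS.rot]
        have := hP.rot a b
        rw [this]
      even := fun a b => by
        show Sy K t (-a) (-b) - t' (π (-a)) (π (-b)) = Sy K t a b - t' (π a) (π b)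
        rw [hS.even]
        have := hP.even a b
        rw [this] }
  have hz : ∀ P a b c d : T, CR (fun u v => Sy K t u v - t' (π u) (π v)) P a b c d = 0 := by
    intro P a b c d
    have e : CR (fun u v => Sy K t u v - t' (π u) (π v)) P a b c d =
        CR (Sy K t) P a b c d - CR (fun u v => t' (π u) (π v)) P a b c d := by
      unfold CR th
      dsimp only
      abel
    have h1 := h P a b c d
    rw [sum_CR hK, ← sub_eq_zero, ← smul_sub] at h1
    have h2 := (smul_eq_zero.mp h1).resolve_left (pow_ne_zero 2 hN)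
    rw [e, CR_res, h2]
  have key := isT_zero (hu.res A.subtype) (fun P a b c d =>
    (CR_res (t := fun u v => Sy K t u v - t' (π u) (π v)) A.subtype P a b c d).trans
      (hz _ _ _ _ _)) ⟨a, ha⟩ ⟨b, hb⟩
  exact sub_eq_zero.mp key

end Pool.Agent.K4ParP
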