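import Pool.Agent.Lib_helper76.K4M.IsogMul

/-!
Even reciprocity I: the forms of `z ↦ x(φ(z) + e)` for an isogeny `φ` and a point `e` with `2e = 0`.
-/

set_option autoImplicit false
set_option linter.unusedSectionVars false

open Finset Polynomial

namespace K4M

open WeierstrassCurve.Affine

variable {F : Type*} [Field F] [DecidableEq F] {W W' : WeierstrassCurve.Affine F}

/-- translation by a point of order two on the `x`-line -/
lemma mob [CharZero F] (e : W.Point) (he : e + e = 0) : ∃ m11 m12 m21 m22 : F, m11 * m22 - m12 * m21 ≠ 0 ∧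
    ∀ b : W.Point, ∃ s : F, s ≠ 0 ∧ s * (xv (b + e)).1 = m11 * (xv b).1 + m12 * (xv b).2 ∧
      s * (xv (b + e)).2 = m21 * (xv b).1 + m22 * (xv b).2 := by
  by_cases h0 : e = 0
  · subst h0
    refine ⟨1, 0, 0, 1, by simp, fun b => ⟨1, one_ne_zero, ?_, ?_⟩⟩
    · rw [add_zero]; ring
    · rw [add_zero]; ring
  · have hk : ph e ≠ 0 := ph_ne_zero h0 he
    refine ⟨xc e, ph e - xc e ^ 2, 1, - xc e, ?_, fun b => ?_⟩
    · intro h; apply hk; linear_combination -h
    · by_cases hb : b = 0
      · subst hb
        refine ⟨1, one_ne_zero, ?_, ?_⟩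
        · rw [zero_add, xv_of_ne h0]
          show 1 * xc e = xc e * 1 + (ph e - xc e ^ 2) * 0
          ring
        · rw [zero_add, xv_of_ne h0]
          show (1 : F) * 1 = 1 * 1 + - xc e * 0
          ring
      · by_cases hbe : b = e
        · subst hbe
          refine ⟨ph b, hk, ?_, ?_⟩
          · rw [he, xv_of_ne h0]
            show ph b * 1 = xc b * xc b + (ph b - xc b ^ 2) * 1
            ring
          · rw [he, xv_of_ne h0]
            show ph b * 0 = 1 * xc b + - xc b * 1
            ring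
        · have hbe' : b + e ≠ 0 := by
            intro h
            apply hbe
            have : e = -e := eq_neg_of_add_eq_zero_left he
            rw [this]
            exact eq_neg_of_add_eq_zero_left h
          have hF := F2 hb h0 he hbe
          unfold dx at hF
          rw [xv_of_ne hbe', xv_of_ne h0, xv_of_ne hb] at hF
          have hF' : (xc (b + e) - xc e) * (xc b - xc e) = ph e := by
            rw [← hF]; ring
          have hne : xc b - xc e ≠ 0 := by
            intro h
            rw [h, mul_zero] at hF'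
            exact hk hF'.symm
          refine ⟨xc b - xc e, hne, ?_, ?_⟩
          · rw [xv_of_ne hbe', xv_of_ne hb]
            show (xc b - xc e) * xc (b + e) = xc e * xc b + (ph e - xc e ^ 2) * 1
            linear_combination hF'
          · rw [xv_of_ne hbe', xv_of_ne hb]
            show (xc b - xc e) * 1 = 1 * xc b + - xc e * 1
            ring

/-- the forms of `x(φ(z) + e)` -/
structure EForm (Φ : Isog W W') [Fintype Φ.hom.ker] (e : W'.Point) (Pe Qe : F[X]) : Prop where
  dP : Pe.natDegree ≤ Fintype.card Φ.hom.ker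
  dQ : Qe.natDegree ≤ Fintype.card Φ.hom.ker
  ne : ∀ t : NV F, hev (Fintype.card Φ.hom.ker) t Pe ≠ 0 ∨ hev (Fintype.card Φ.hom.ker) t Qe ≠ 0
  fib : ∀ (a : W.Point) (b : W'.Point), Φ.hom a = b + e → ∃ c : F, c ≠ 0 ∧
    C c * ∏ i : Φ.hom.ker, lin (xN (a + (i : W.Point))) = C (xv b).2 * Pe - C (xv b).1 * Qe

theorem exists_eform [IsAlgClosed F] [CharZero F] [W.IsElliptic] (Φ : Isog W W') [Fintype Φ.hom.ker]
    {e : W'.Point} (he : e + e = 0) : ∃ Pe Qe : F[X], EForm Φ e Pe Qe := by
  obtain ⟨m11, m12, m21, m22, hdet, hm⟩ := mob e he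
  have dPQ : ∀ u v : F, (C u * Φ.P - C v * Φ.Q).natDegree ≤ Fintype.card Φ.hom.ker := by
    intro u v
    refine (natDegree_sub_le _ _).trans (max_le ?_ ?_)
    · exact (natDegree_C_mul_le _ _).trans Φ.degP'.le
    · exact (natDegree_C_mul_le _ _).trans (by rw [← Φ.degP', Φ.degP]; exact Φ.degQ.le)
  refine ⟨C m22 * Φ.P - C m12 * Φ.Q, C (-m21) * Φ.P - C (-m11) * Φ.Q, dPQ _ _, dPQ _ _, ?_, ?_⟩
  · intro t
    by_contra h
    push Not at h
    obtain ⟨h1, h2⟩ := h
    rw [sub_eq_add_neg, ← neg_mul, ← C_neg, hev_add, hev_C_mul, hev_C_mul] at h1 h2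
    rcases Φ.hev_ne t with h3 | h3
    · apply h3
      apply mul_left_cancel₀ hdet
      linear_combination m11 * h1 + m12 * h2
    · apply h3
      apply mul_left_cancel₀ hdet
      linear_combination m21 * h1 + m22 * h2
  · intro a b hab
    obtain ⟨k, hk, h⟩ := Φ.fib_form a
    obtain ⟨s, hs, h1, h2⟩ := hm b
    refine ⟨s * k, mul_ne_zero hs hk, ?_⟩
    rw [C_mul, mul_assoc, h, hab]
    have e1 : (xN (b + e)).1 = xv (b + e) := rfl
    have h1' := congrArg (C : F → F[X]) h1
    have h2' := congrArg (C : F → F[X]) h2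
    simp only [C_mul, C_add] at h1' h2'
    rw [e1]
    simp only [C_neg]
    linear_combination Φ.P * h2' - Φ.Q * h1'

end K4M
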