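import Pool.Agent.Lib_helper76.K4M.ERa

/-!
Even reciprocity II: reciprocity on the `x`-line for the cross ratio of `x(φ(z)+e)`, `x(z)`,
`x_{b₁}`, `x_{b₂}`.
-/

set_option autoImplicit false
set_option linter.unusedSectionVars false

open Finset Polynomial

namespace K4M

open WeierstrassCurve.Affine

variable {F : Type*} [Field F] [DecidableEq F] {W : WeierstrassCurve.Affine F}

namespace EForm

variable {Φ : Isog W W} [Fintype Φ.hom.ker] {e : W.Point} {Pe Qe : F[X]}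

lemma val (he : e + e = 0) (h : EForm Φ e Pe Qe) (z : W.Point) : ∃ μ : F, μ ≠ 0 ∧
    hev (Fintype.card Φ.hom.ker) (xN z) Pe = μ * (xv (Φ.hom z + e)).1 ∧
    hev (Fintype.card Φ.hom.ker) (xN z) Qe = μ * (xv (Φ.hom z + e)).2 := by
  obtain ⟨c, hc, hf⟩ := h.fib z (Φ.hom z + e) (by rw [add_assoc, he, add_zero])
  have h1 := hev_form (v := xN (Φ.hom z + e)) rfl hf (xN z)
  have h0 : ev (ms fun i : Φ.hom.ker => xN (z + (i : W.Point))) (xN z) = 0 := by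
    rw [ev_eq_zero]
    refine ⟨xN (z + ((0 : Φ.hom.ker) : W.Point)), Multiset.mem_map.mpr ⟨0, mem_univ _, rfl⟩, ?_⟩
    rw [AddSubgroup.coe_zero, add_zero]
    exact brV_self _
  rw [h0, mul_zero] at h1
  have hne := h.ne (xN z)
  by_cases hz : Φ.hom z + e = 0
  · have hx : (xN (Φ.hom z + e)).1 = ((1 : F), (0 : F)) := by rw [hz]; rfl
    rw [hx] at h1
    have hq : hev (Fintype.card Φ.hom.ker) (xN z) Qe = 0 := by
      linear_combination h1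
    refine ⟨_, hne.resolve_right (not_not.mpr hq), ?_, ?_⟩
    · rw [hz]; show _ = _ * 1; ring
    · rw [hz, hq]; show _ = _ * 0; ring
  · have hx : (xN (Φ.hom z + e)).1 = (xc (Φ.hom z + e), (1 : F)) := xv_of_ne hz
    rw [hx] at h1
    have hp : hev (Fintype.card Φ.hom.ker) (xN z) Pe =
        hev (Fintype.card Φ.hom.ker) (xN z) Qe * xc (Φ.hom z + e) := by
      linear_combination -h1
    refine ⟨hev (Fintype.card Φ.hom.ker) (xN z) Qe, ?_, ?_, ?_⟩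
    · intro hq
      rcases hne with h' | h'
      · apply h'; rw [hp, hq, zero_mul]
      · exact h' hq
    · rw [hp, xv_of_ne hz]
    · rw [xv_of_ne hz]; show _ = _ * 1; ring

lemma hev_F (h : EForm Φ e Pe Qe) (t : NV F) :
    hev (Fintype.card Φ.hom.ker + 1) t (Pe - X * Qe) =
      hev (Fintype.card Φ.hom.ker) t Pe * t.1.2 - hev (Fintype.card Φ.hom.ker) t Qe * t.1.1 := by
  have e1 : Pe - X * Qe = C (-1) * (lin (pinf F) * Pe) + C (-1) * (lin (pt 0) * Qe) := by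
    rw [lin_pinf, lin_pt, C_neg, C_1, C_0]; ring
  rw [e1, hev_add, hev_C_mul, hev_C_mul, hev_lin_mul _ _ h.dP, hev_lin_mul _ _ h.dQ]
  unfold brV br pinf pt
  ring

lemma hev_F_xN (he : e + e = 0) (h : EForm Φ e Pe Qe) (z : W.Point) : ∃ μ : F, μ ≠ 0 ∧
    hev (Fintype.card Φ.hom.ker + 1) (xN z) (Pe - X * Qe) = μ * dx (Φ.hom z + e) z ∧
    ∀ b : W.Point, hev (Fintype.card Φ.hom.ker) (xN z) (C (xv b).2 * Pe - C (xv b).1 * Qe) =
      μ * dx (Φ.hom z + e) b := by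
  obtain ⟨μ, hμ, h1, h2⟩ := h.val he z
  refine ⟨μ, hμ, ?_, fun b => ?_⟩
  · rw [h.hev_F, h1, h2]
    unfold dx
    show μ * (xv (Φ.hom z + e)).1 * (xv z).2 - μ * (xv (Φ.hom z + e)).2 * (xv z).1 = _
    ring
  · rw [sub_eq_add_neg, ← neg_mul, ← C_neg, hev_add, hev_C_mul, hev_C_mul, h1, h2]
    unfold dx
    ring

theorem er_core [IsAlgClosed F] (he : e + e = 0) (h : EForm Φ e Pe Qe) {a₁ a₂ b₁ b₂ : W.Point}
    (h1 : Φ.hom a₁ = b₁ + e) (h2 : Φ.hom a₂ = b₂ + e) (hb : dx b₁ b₂ ≠ 0)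
    {d : F} (hd : d ≠ 0) {La : Multiset (NV F)} (hLa : Multiset.card La = Fintype.card Φ.hom.ker + 1)
    (hF : Pe - X * Qe = C d * pr La) {c c₀ : W.Point}
    (hc : dx (Φ.hom c + e) c ≠ 0 ∨ (dx (Φ.hom c + e) b₁ ≠ 0 ∧ dx c b₂ ≠ 0))
    (hc₀ : dx (Φ.hom c₀ + e) c₀ ≠ 0 ∨ (dx (Φ.hom c₀ + e) b₁ ≠ 0 ∧ dx c₀ b₂ ≠ 0)) :
    S3 (xN c) (xN c₀) La (xN b₁ ::ₘ ms (fun i : Φ.hom.ker => xN (a₂ + (i : W.Point))))
      (xN b₂ ::ₘ ms (fun i : Φ.hom.ker => xN (a₁ + (i : W.Point)))) =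
      cr (dx : W.Point → W.Point → F) (Φ.hom c₀ + e) c₀ b₁ b₂ -
        cr (dx : W.Point → W.Point → F) (Φ.hom c + e) c b₁ b₂ := by
  obtain ⟨k₁, hk₁, f1⟩ := h.fib a₁ b₁ h1
  obtain ⟨k₂, hk₂, f2⟩ := h.fib a₂ b₂ h2
  have hcard : ∀ (b : W.Point) (a : W.Point), Multiset.card
      (xN b ::ₘ ms (fun i : Φ.hom.ker => xN (a + (i : W.Point)))) = Fintype.card Φ.hom.ker + 1 := by
    intro b a
    rw [Multiset.card_cons, card_ms]
  have hid : C (d * dx b₁ b₂) * pr La +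
      C k₂ * pr (xN b₁ ::ₘ ms (fun i : Φ.hom.ker => xN (a₂ + (i : W.Point)))) =
      C k₁ * pr (xN b₂ ::ₘ ms (fun i : Φ.hom.ker => xN (a₁ + (i : W.Point)))) := by
    rw [pr_cons, pr_cons, pr_ms, pr_ms, C_mul,
      show C k₂ * (lin (xN b₁) * ∏ i : Φ.hom.ker, lin (xN (a₂ + (i : W.Point)))) =
        lin (xN b₁) * (C k₂ * ∏ i : Φ.hom.ker, lin (xN (a₂ + (i : W.Point)))) by ring,
      show C k₁ * (lin (xN b₂) * ∏ i : Φ.hom.ker, lin (xN (a₁ + (i : W.Point)))) =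
        lin (xN b₂) * (C k₁ * ∏ i : Φ.hom.ker, lin (xN (a₁ + (i : W.Point)))) by ring,
      f1, f2, show C d * C (dx b₁ b₂) * pr La = C (dx b₁ b₂) * (C d * pr La) by ring, ← hF]
    unfold lin dx
    show C ((xv b₁).1 * (xv b₂).2 - (xv b₁).2 * (xv b₂).1) * _ + (C (xv b₁).2 * X - C (xv b₁).1) * _ =
      (C (xv b₂).2 * X - C (xv b₂).1) * _
    simp only [C_sub, C_mul]
    ring
  have hvalA : ∀ z : W.Point, ∃ μ : F, μ ≠ 0 ∧ d * dx b₁ b₂ * ev La (xN z) =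
      μ * (dx (Φ.hom z + e) z * dx b₁ b₂) ∧
      k₁ * ev (xN b₂ ::ₘ ms (fun i : Φ.hom.ker => xN (a₁ + (i : W.Point)))) (xN z) =
        μ * (dx (Φ.hom z + e) b₁ * dx z b₂) := by
    intro z
    obtain ⟨μ, hμ, g1, g2⟩ := h.hev_F_xN he z
    refine ⟨μ, hμ, ?_, ?_⟩
    · rw [hF, hev_C_mul, hev_pr _ _ hLa] at g1
      linear_combination dx b₁ b₂ * g1
    · have g3 := g2 b₁
      rw [← f1, hev_C_mul, ← pr_ms, hev_pr _ _ (card_ms _)] at g3
      rw [ev_cons, brV_xN]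
      linear_combination dx z b₂ * g3
  have hnd : ∀ z : W.Point, (dx (Φ.hom z + e) z ≠ 0 ∨ (dx (Φ.hom z + e) b₁ ≠ 0 ∧ dx z b₂ ≠ 0)) →
      (ev La (xN z) ≠ 0 ∨
        ev (xN b₂ ::ₘ ms (fun i : Φ.hom.ker => xN (a₁ + (i : W.Point)))) (xN z) ≠ 0) ∧
      sy (d * dx b₁ b₂ * ev La (xN z) /
        (k₁ * ev (xN b₂ ::ₘ ms (fun i : Φ.hom.ker => xN (a₁ + (i : W.Point)))) (xN z))) =
        cr (dx : W.Point → W.Point → F) (Φ.hom z + e) z b₁ b₂ := by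
    intro z hz
    obtain ⟨μ, hμ, g1, g2⟩ := hvalA z
    constructor
    · rcases hz with hz | ⟨hz1, hz2⟩
      · left
        intro h0
        rw [h0, mul_zero] at g1
        exact mul_ne_zero hμ (mul_ne_zero hz hb) g1.symm
      · right
        intro h0
        rw [h0, mul_zero] at g2
        exact mul_ne_zero hμ (mul_ne_zero hz1 hz2) g2.symm
    · rw [g1, g2, mul_div_mul_left _ _ hμ]
      rfl
  rw [S3_eq _ La _ _ hLa (hcard _ _) (hcard _ _) _ _ _ (mul_ne_zero hd hb) hk₂ hk₁ hid _ _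
    (hnd c hc).1 (hnd c₀ hc₀).1, (hnd c hc).2, (hnd c₀ hc₀).2]

end EForm

end K4M
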