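import Pool.Agent.Lib_helper76.K4M.ERb

/-!
Even reciprocity III: the sums over the torsion points.
-/

set_option autoImplicit false
set_option linter.unusedSectionVars false

open Finset Polynomial

namespace K4M

open WeierstrassCurve.Affine Pool.Agent.K4D2

section match'

variable {F : Type*} [Field F]

lemma sum_match {B : Type*} [AddCommMonoid B] (φ : NV F → B)
    (hφ : ∀ v w, brV v w = 0 → φ v = φ w) (V : Finset (NV F)) : ∀ (L : Multiset (NV F)),
    Multiset.card L = V.card → (∀ v ∈ V, ∀ w ∈ V, brV v w = 0 → v = w) →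
    (∀ v ∈ V, ∃ l ∈ L, brV v l = 0) → (L.map φ).sum = ∑ v ∈ V, φ v := by
  classical
  have hN := brV_nbracket (F := F)
  induction V using Finset.induction_on with
  | empty =>
    intro L hL _ _
    rw [card_empty, Multiset.card_eq_zero] at hL
    rw [hL, Multiset.map_zero, Multiset.sum_zero, sum_empty]
  | insert v V hv ih =>
    intro L hL hpar hex
    obtain ⟨l, hl, hvl⟩ := hex v (mem_insert_self _ _)
    obtain ⟨L', rfl⟩ := Multiset.exists_cons_of_mem hl
    rw [Multiset.card_cons, card_insert_of_notMem hv] at hL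
    rw [Multiset.map_cons, Multiset.sum_cons, sum_insert hv, hφ v l hvl,
      ih L' (by omega) (fun a ha b hb => hpar a (mem_insert_of_mem ha) b (mem_insert_of_mem hb)) ?_]
    intro w hw
    obtain ⟨l', hl', hwl'⟩ := hex w (mem_insert_of_mem hw)
    rcases Multiset.mem_cons.mp hl' with h | h
    · exfalso
      rw [h] at hwl'
      have : brV w v = 0 := hN.trans _ _ _ hwl' (hN.symm0 hvl)
      have := hpar w (mem_insert_of_mem hw) v (mem_insert_self _ _) this
      exact hv (this ▸ hw)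
    · exact ⟨l', h, hwl'⟩

end match'

variable {F : Type*} [Field F] [DecidableEq F] [CharZero F] [IsAlgClosed F]
  {W : WeierstrassCurve.Affine F}

/-- the `x`-vector of a torsion point -/
def xT (z : TP W) : NV F := xN (z : W.Point)

lemma xT_eq_iff {z z' : TP W} : xT z = xT z' ↔ z = z' ∨ z = -z' := by
  constructor
  · intro h
    have h1 : dx (z : W.Point) z' = 0 := by
      rw [← brV_xN]
      show brV (xT z) (xT z') = 0
      rw [h]; exact brV_self _
    rcases dx_eq_zero_iff.mp h1 with h | h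
    · exact Or.inl (Subtype.ext h)
    · exact Or.inr (Subtype.ext h)
  · rintro (rfl | rfl)
    · rfl
    · exact Subtype.ext (xv_neg' (z' : W.Point))

lemma xT_par {z z' : TP W} (h : brV (xT z) (xT z') = 0) : xT z = xT z' := by
  rw [xT_eq_iff]
  rcases dx_eq_zero_iff.mp (show dx (z : W.Point) z' = 0 from h) with h | h
  · exact Or.inl (Subtype.ext h)
  · exact Or.inr (Subtype.ext h)

lemma card_S (hΔ : W.Δ ≠ 0) {m : ℕ} (hm : m ≠ 0) {e : TP W} {S : Finset (TP W)}
    (hS : ∀ z, z ∈ S ↔ m • z = e) : S.card = m ^ 2 := by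
  classical
  obtain ⟨n, rfl⟩ := Nat.exists_eq_succ_of_ne_zero hm
  obtain ⟨z₀, hz₀⟩ := (td_closed hΔ).div n e
  rw [← (td_closed hΔ).card n, ← Finset.card_univ]
  have e1 : S = Finset.image (fun i : tor (TP W) (n + 1) => (i : TP W) + z₀) univ := by
    ext z
    rw [hS, Finset.mem_image]
    constructor
    · intro hz
      refine ⟨⟨z - z₀, ?_⟩, mem_univ _, sub_add_cancel _ _⟩
      rw [mem_tor, smul_sub, hz₀]
      exact sub_eq_zero.mpr hz
    · rintro ⟨i, -, rfl⟩
      show (n + 1) • ((i : TP W) + z₀) = e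
      rw [smul_add, hz₀, mem_tor.mp i.2, zero_add]
  rw [e1, Finset.card_image_of_injective]
  intro i i' h
  exact Subtype.ext (add_right_cancel h)

section fib

variable [DecidableEq (TP W)]

/-- the two lists cover every `x`-coordinate twice -/
lemma fiber_two {j : ℕ} {e : TP W} (he : e + e = 0) {S₁ S₂ : Finset (TP W)}
    (hS₁ : ∀ z, z ∈ S₁ ↔ j • z = e) (hS₂ : ∀ z, z ∈ S₂ ↔ (j + 2) • z = e) {z₀ : TP W}
    (h0 : z₀ ∈ S₁ ∨ z₀ ∈ S₂) :
    (S₁.filter fun z => z = z₀ ∨ z = -z₀).card + (S₂.filter fun z => z = z₀ ∨ z = -z₀).card = 2 := by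
  have hneg : -e = e := neg_eq_of_add_eq_zero_left he
  have hS₁' : -z₀ ∈ S₁ ↔ z₀ ∈ S₁ := by
    rw [hS₁, hS₁, smul_neg]
    constructor
    · intro h; rw [← hneg, ← h, neg_neg]
    · intro h; rw [h, hneg]
  have hS₂' : -z₀ ∈ S₂ ↔ z₀ ∈ S₂ := by
    rw [hS₂, hS₂, smul_neg]
    constructor
    · intro h; rw [← hneg, ← h, neg_neg]
    · intro h; rw [h, hneg]
  by_cases h2 : z₀ + z₀ = 0
  · have hn : -z₀ = z₀ := neg_eq_of_add_eq_zero_left h2
    have hiff : z₀ ∈ S₁ ↔ z₀ ∈ S₂ := by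
      rw [hS₁, hS₂, add_smul, two_nsmul, h2, add_zero]
    have h1 : z₀ ∈ S₁ := by tauto
    have h2' : z₀ ∈ S₂ := by tauto
    have e1 : ∀ S : Finset (TP W), z₀ ∈ S → (S.filter fun z => z = z₀ ∨ z = -z₀) = {z₀} := by
      intro S hS
      ext z
      rw [mem_filter, mem_singleton, hn, or_self]
      exact ⟨fun h => h.2, fun h => ⟨h ▸ hS, h⟩⟩
    rw [e1 S₁ h1, e1 S₂ h2', card_singleton]
  · have hnm : ¬ (z₀ ∈ S₁ ∧ z₀ ∈ S₂) := by
      rintro ⟨h1, h2'⟩
      rw [hS₁] at h1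
      rw [hS₂, add_smul, two_nsmul, h1] at h2'
      exact h2 (by simpa using h2')
    have hne : z₀ ≠ -z₀ := by
      intro h
      apply h2
      nth_rewrite 1 [h]
      exact neg_add_cancel _
    have e1 : ∀ S : Finset (TP W), z₀ ∈ S → -z₀ ∈ S →
        (S.filter fun z => z = z₀ ∨ z = -z₀) = {z₀, -z₀} := by
      intro S hS hS'
      ext z
      rw [mem_filter, mem_insert, mem_singleton]
      constructor
      · exact fun h => h.2
      · rintro (h | h)
        · exact ⟨h ▸ hS, Or.inl h⟩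
        · exact ⟨h ▸ hS', Or.inr h⟩
    have e2 : ∀ S : Finset (TP W), z₀ ∉ S → -z₀ ∉ S →
        (S.filter fun z => z = z₀ ∨ z = -z₀) = ∅ := by
      intro S hS hS'
      rw [filter_eq_empty_iff]
      rintro z hz (h | h)
      · exact hS (h ▸ hz)
      · exact hS' (h ▸ hz)
    rcases h0 with h1 | h1
    · have h3 : z₀ ∉ S₂ := fun h => hnm ⟨h1, h⟩
      rw [e1 S₁ h1 (hS₁'.mpr h1), e2 S₂ h3 (fun h => h3 (hS₂'.mp h)), card_pair hne, card_empty]
    · have h3 : z₀ ∉ S₁ := fun h => hnm ⟨h, h1⟩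
      rw [e1 S₂ h1 (hS₂'.mpr h1), e2 S₁ h3 (fun h => h3 (hS₁'.mp h)), card_pair hne, card_empty]

lemma sum_two {j : ℕ} {e : TP W} (he : e + e = 0) {S₁ S₂ : Finset (TP W)}
    (hS₁ : ∀ z, z ∈ S₁ ↔ j • z = e) (hS₂ : ∀ z, z ∈ S₂ ↔ (j + 2) • z = e)
    {B : Type*} [AddCommMonoid B] (φ : NV F → B) [DecidableEq (NV F)] :
    ∑ z ∈ S₁, φ (xT z) + ∑ z ∈ S₂, φ (xT z) = ∑ v ∈ (S₁ ∪ S₂).image xT, 2 • φ v := by
  have hm1 : ∀ z ∈ S₁, xT z ∈ (S₁ ∪ S₂).image xT := fun z hz =>
    mem_image_of_mem _ (mem_union_left _ hz)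
  have hm2 : ∀ z ∈ S₂, xT z ∈ (S₁ ∪ S₂).image xT := fun z hz =>
    mem_image_of_mem _ (mem_union_right _ hz)
  rw [← Finset.sum_fiberwise_of_maps_to hm1, ← Finset.sum_fiberwise_of_maps_to hm2,
    ← Finset.sum_add_distrib]
  refine Finset.sum_congr rfl fun v hv => ?_
  obtain ⟨z₀, hz₀, rfl⟩ := mem_image.mp hv
  have h1 : ∀ S : Finset (TP W), ∑ z ∈ S.filter (fun z => xT z = xT z₀), φ (xT z) =
      (S.filter fun z => z = z₀ ∨ z = -z₀).card • φ (xT z₀) := by
    intro S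
    rw [Finset.sum_congr rfl fun z hz => congrArg φ (mem_filter.mp hz).2, Finset.sum_const]
    congr 2
    ext z
    rw [mem_filter, mem_filter, xT_eq_iff]
  rw [h1, h1, ← add_smul, fiber_two he hS₁ hS₂ (mem_union.mp hz₀)]

end fib

end K4M
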