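import Pool.Agent.Lib_helper76.K4M.Val5

/-!
The reciprocity formula for the cross ratio symbols of the divisors of `f` and `1 - f` on the
projective line over an algebraically closed field.
-/

set_option autoImplicit false
set_option linter.unusedSectionVars false

open Polynomial

namespace K4M

section

variable {F : Type*} [Field F]

/-- the bracket `v₁ w₂ - v₂ w₁` of two vectors of `F²` -/
def br (v w : F × F) : F := v.1 * w.2 - v.2 * w.1

variable (F) in
/-- the nonzero vectors of `F²` -/
abbrev NV : Type _ := {v : F × F // v ≠ 0}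

/-- the bracket of two nonzero vectors -/
def brV (v w : NV F) : F := br v.1 w.1

lemma nv_ne (v : NV F) : v.1.1 ≠ 0 ∨ v.1.2 ≠ 0 := by
  by_contra h
  push Not at h
  exact v.2 (Prod.ext h.1 h.2)

lemma brV_nbracket : NBracket (brV : NV F → NV F → F) where
  anti a b := by unfold brV br; ring
  pl a b c d := by unfold brV br; ring
  trans := by
    intro a b c h1 h2
    unfold brV br at *
    rcases nv_ne b with hb | hb
    · apply mul_left_cancel₀ hb
      linear_combination c.1.1 * h1 + a.1.1 * h2
    · apply mul_left_cancel₀ hb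
      linear_combination c.1.2 * h1 + a.1.2 * h2

lemma brV_anti (a b : NV F) : brV b a = - brV a b := brV_nbracket.anti a b

lemma brV_self (a : NV F) : brV a a = 0 := brV_nbracket.toBracket.self a

/-- the linear form `v ↦ [v, w]` in the affine coordinate `v = (X, 1)` -/
noncomputable def lin (w : NV F) : F[X] := C w.1.2 * X - C w.1.1

lemma lin_ne (w : NV F) : lin w ≠ 0 := by
  intro h
  unfold lin at h
  rcases nv_ne w with hw | hw
  · have := congrArg (fun p => coeff p 0) h
    simp at this
    exact hw this
  · have := congrArg (fun p => coeff p 1) h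
    simp at this
    exact hw this

lemma lin_natDegree (w : NV F) : (lin w).natDegree ≤ 1 := by
  unfold lin
  compute_degree

/-- parallel vectors have proportional forms -/
lemma lin_par {v w : NV F} (h : brV v w = 0) :
    ∃ k : F, k ≠ 0 ∧ lin w = C k * lin v ∧ ∀ t : NV F, brV t w = k * brV t v := by
  unfold brV br at h
  rcases nv_ne v with hv | hv
  · refine ⟨w.1.1 / v.1.1, ?_, ?_, ?_⟩
    · refine div_ne_zero ?_ hv
      intro h0
      rw [h0, mul_zero, sub_zero] at h
      rcases nv_ne w with h' | h'
      · exact h' h0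
      · exact mul_ne_zero hv h' h
    · have e : w.1.2 = w.1.1 / v.1.1 * v.1.2 := by
        field_simp
        linear_combination h
      unfold lin
      rw [mul_sub, ← mul_assoc, ← C_mul, ← C_mul, div_mul_cancel₀ _ hv, ← e]
    · intro t
      unfold brV br
      field_simp
      linear_combination t.1.1 * h
  · refine ⟨w.1.2 / v.1.2, ?_, ?_, ?_⟩
    · refine div_ne_zero ?_ hv
      intro h0
      rw [h0, mul_zero, zero_sub, neg_eq_zero] at h
      rcases nv_ne w with h' | h'
      · exact mul_ne_zero hv h' h
      · exact h' h0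
    · have e : w.1.1 = w.1.2 / v.1.2 * v.1.1 := by
        field_simp
        linear_combination -h
      unfold lin
      rw [mul_sub, ← mul_assoc, ← C_mul, ← C_mul, div_mul_cancel₀ _ hv, ← e]
    · intro t
      unfold brV br
      field_simp
      linear_combination t.1.2 * h

/-- the product of the forms of a multiset of vectors -/
noncomputable def pr (L : Multiset (NV F)) : F[X] := (L.map lin).prod

/-- the value at `t` of the product of the forms of a multiset of vectors -/
def ev (L : Multiset (NV F)) (t : NV F) : F := (L.map (brV t)).prod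

lemma pr_cons (w : NV F) (L : Multiset (NV F)) : pr (w ::ₘ L) = lin w * pr L := by
  unfold pr; rw [Multiset.map_cons, Multiset.prod_cons]

lemma ev_cons (w : NV F) (L : Multiset (NV F)) (t : NV F) : ev (w ::ₘ L) t = brV t w * ev L t := by
  unfold ev; rw [Multiset.map_cons, Multiset.prod_cons]

lemma pr_zero : pr (0 : Multiset (NV F)) = 1 := by unfold pr; simp

lemma ev_zero (t : NV F) : ev (0 : Multiset (NV F)) t = 1 := by unfold ev; simp

lemma pr_ne (L : Multiset (NV F)) : pr L ≠ 0 := by
  unfold pr
  apply Multiset.prod_ne_zero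
  intro h
  rw [Multiset.mem_map] at h
  obtain ⟨w, -, hw⟩ := h
  exact lin_ne w hw

lemma pr_natDegree (L : Multiset (NV F)) : (pr L).natDegree ≤ Multiset.card L := by
  induction L using Multiset.induction_on with
  | empty => rw [pr_zero]; simp
  | cons w L ih =>
    rw [pr_cons, Multiset.card_cons]
    refine natDegree_mul_le.trans ?_
    have := lin_natDegree w
    omega

lemma ev_eq_zero {L : Multiset (NV F)} {t : NV F} : ev L t = 0 ↔ ∃ w ∈ L, brV t w = 0 := by
  unfold ev
  rw [Multiset.prod_eq_zero_iff, Multiset.mem_map]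

/-- the homogeneous value of a polynomial considered as a form of degree `n` -/
def hev (n : ℕ) (t : NV F) (p : F[X]) : F := ∑ k ∈ Finset.range (n + 1), p.coeff k * (t.1.1 ^ k * t.1.2 ^ (n - k))

lemma hev_add (n : ℕ) (t : NV F) (p q : F[X]) : hev n t (p + q) = hev n t p + hev n t q := by
  unfold hev
  rw [← Finset.sum_add_distrib]
  refine Finset.sum_congr rfl fun k _ => ?_
  rw [coeff_add, add_mul]

lemma hev_C_mul (n : ℕ) (t : NV F) (a : F) (p : F[X]) : hev n t (C a * p) = a * hev n t p := by
  unfold hev
  rw [Finset.mul_sum]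
  refine Finset.sum_congr rfl fun k _ => ?_
  rw [coeff_C_mul, mul_assoc]

lemma hev_lin_mul {n : ℕ} (t w : NV F) {p : F[X]} (hp : p.natDegree ≤ n) :
    hev (n + 1) t (lin w * p) = brV t w * hev n t p := by
  have h1 : ∀ k, (lin w * p).coeff k = w.1.2 * (X * p).coeff k - w.1.1 * p.coeff k := by
    intro k
    unfold lin
    rw [sub_mul, coeff_sub, mul_assoc, coeff_C_mul, coeff_C_mul]
  have h2 : hev (n + 1) t (lin w * p) = w.1.2 * (t.1.1 * hev n t p) - w.1.1 * (t.1.2 * hev n t p) := by
    have e1 : ∑ k ∈ Finset.range (n + 1 + 1), (X * p).coeff k * (t.1.1 ^ k * t.1.2 ^ (n + 1 - k)) =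
        t.1.1 * hev n t p := by
      rw [Finset.sum_range_succ']
      simp only [coeff_X_mul]
      rw [coeff_X_mul_zero, zero_mul, add_zero]
      unfold hev
      rw [Finset.mul_sum]
      refine Finset.sum_congr rfl fun k _ => ?_
      rw [pow_succ, Nat.add_sub_add_right]
      ring
    have e2 : ∑ k ∈ Finset.range (n + 1 + 1), p.coeff k * (t.1.1 ^ k * t.1.2 ^ (n + 1 - k)) =
        t.1.2 * hev n t p := by
      rw [Finset.sum_range_succ, coeff_eq_zero_of_natDegree_lt (by omega), zero_mul, add_zero]
      unfold hev
      rw [Finset.mul_sum]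
      refine Finset.sum_congr rfl fun k hk => ?_
      rw [Finset.mem_range] at hk
      rw [show n + 1 - k = (n - k) + 1 by omega, pow_succ]
      ring
    rw [← e1, ← e2]
    unfold hev
    rw [Finset.mul_sum, Finset.mul_sum, ← Finset.sum_sub_distrib]
    refine Finset.sum_congr rfl fun k _ => ?_
    rw [h1]
    ring
  rw [h2]
  unfold brV br
  ring

lemma hev_pr {n : ℕ} (t : NV F) (L : Multiset (NV F)) (hL : Multiset.card L = n) :
    hev n t (pr L) = ev L t := by
  subst hL
  induction L using Multiset.induction_on with
  | empty =>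
    rw [pr_zero, ev_zero]
    unfold hev
    simp
  | cons w L ih =>
    rw [pr_cons, ev_cons, Multiset.card_cons, hev_lin_mul t w (pr_natDegree L), ih]

/-- an identity between products of linear forms can be evaluated at any vector -/
lemma hom3 {n : ℕ} {La Lb Lc : Multiset (NV F)} (ha : Multiset.card La = n)
    (hb : Multiset.card Lb = n) (hc : Multiset.card Lc = n) {a b c : F}
    (h : C a * pr La + C b * pr Lb = C c * pr Lc) (t : NV F) :
    a * ev La t + b * ev Lb t = c * ev Lc t := by
  have := congrArg (hev n t) h
  rw [hev_add, hev_C_mul, hev_C_mul, hev_C_mul, hev_pr t La ha, hev_pr t Lb hb,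
    hev_pr t Lc hc] at this
  exact this

/-- the point `(r, 1)` -/
def pt (r : F) : NV F := ⟨(r, 1), fun h => one_ne_zero (congrArg Prod.snd h)⟩

variable (F) in
/-- the point `(1, 0)` -/
def pinf : NV F := ⟨(1, 0), fun h => one_ne_zero (congrArg Prod.fst h)⟩

lemma lin_pt (r : F) : lin (pt r) = X - C r := by
  unfold lin pt; simp

lemma lin_pinf : lin (pinf F) = C (-1) := by
  unfold lin pinf; simp

/-- factorisation of a form of degree `n` over an algebraically closed field -/
lemma exists_factor [IsAlgClosed F] {p : F[X]} (hp : p ≠ 0) {n : ℕ} (hn : p.natDegree ≤ n) :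
    ∃ d : F, d ≠ 0 ∧ ∃ L : Multiset (NV F), Multiset.card L = n ∧ p = C d * pr L := by
  have hs := IsAlgClosed.splits p
  have hcard := hs.natDegree_eq_card_roots
  refine ⟨p.leadingCoeff * (-1) ^ (n - p.natDegree), mul_ne_zero
    (leadingCoeff_ne_zero.mpr hp) (pow_ne_zero _ (neg_ne_zero.mpr one_ne_zero)),
    p.roots.map pt + Multiset.replicate (n - p.natDegree) (pinf F), ?_, ?_⟩
  · rw [Multiset.card_add, Multiset.card_map, Multiset.card_replicate, ← hcard]
    omega
  · unfold pr
    rw [Multiset.map_add, Multiset.prod_add, Multiset.map_map, Multiset.map_replicate,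
      Multiset.prod_replicate, lin_pinf, ← C_pow]
    have e : (Multiset.map (lin ∘ pt) p.roots) = p.roots.map (fun r => X - C r) := by
      refine Multiset.map_congr rfl fun r _ => ?_
      exact lin_pt r
    rw [e]
    have h1 : C (p.leadingCoeff * (-1) ^ (n - p.natDegree)) *
        ((p.roots.map (fun r => X - C r)).prod * C ((-1) ^ (n - p.natDegree))) =
        C p.leadingCoeff * (p.roots.map (fun r => X - C r)).prod *
          (C ((-1) ^ (n - p.natDegree)) * C ((-1) ^ (n - p.natDegree))) := by
      rw [C_mul]; ring
    rw [h1, ← C_mul, ← pow_add, ← two_mul, pow_mul]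
    simp only [even_two, Even.neg_pow, one_pow, C_1, mul_one]
    exact hs.eq_prod_roots

end

end K4M
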