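import Pool.Agent.Lib_helper76.K4M.Recip

/-!
The distribution relation of the cross ratio symbols for a rational map of degree `m`: the sum of
the symbols of all quadruples in four fibres is `m²` times the symbol of the four values.
-/

set_option autoImplicit false
set_option linter.unusedSectionVars false

open Polynomial Finset

namespace K4M

section

variable {F : Type*} [Field F] {ι : Type*} [Fintype ι]

/-- the multiset of the values of a family -/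
def ms (Y : ι → NV F) : Multiset (NV F) := (univ : Finset ι).val.map Y

lemma card_ms (Y : ι → NV F) : Multiset.card (ms Y) = Fintype.card ι := by
  unfold ms; rw [Multiset.card_map]; rfl

lemma pr_ms (Y : ι → NV F) : pr (ms Y) = ∏ i, lin (Y i) := by
  unfold pr ms; rw [Multiset.map_map]; rfl

lemma ev_ms (Y : ι → NV F) (t : NV F) : ev (ms Y) t = ∏ i, brV t (Y i) := by
  unfold ev ms; rw [Multiset.map_map]; rfl

lemma c1_ms (t t' a : NV F) (Y : ι → NV F) : c1 t t' a (ms Y) = ∑ i, cr brV a (Y i) t t' := by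
  unfold c1 ms; rw [Multiset.map_map]; rfl

lemma cs_ms (t t' : NV F) (X Y : ι → NV F) :
    cs t t' (ms X) (ms Y) = ∑ i, ∑ j, cr brV (X i) (Y j) t t' := by
  unfold cs
  simp only [c1_ms]
  unfold ms; rw [Multiset.map_map]; rfl

lemma cyc_coc [Infinite F] (a b c t t' : NV F) :
    cr brV a c t t' + cr brV c b t t' + cr brV b a t t' = cr brV a b c t - cr brV a b c t' := by
  have hN := brV_nbracket (F := F)
  have hB := hN.toBracket
  have key := coc_eq_zero hN a b c t t'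
  unfold coc at key
  rw [cr_swap_ab hB b c t t', cr_swap_ab hB a b t t', ← sub_eq_zero, ← neg_eq_zero, ← key]
  abel

/-- the values of the map `(P : Q)` -/
lemma hev_form {m : ℕ} {P Q : F[X]} {k : F} {Y : ι → NV F} (hm : Fintype.card ι = m) {v : NV F}
    (h : C k * ∏ i, lin (Y i) = C v.1.2 * P - C v.1.1 * Q) (t : NV F) :
    k * ev (ms Y) t = hev m t P * v.1.2 - hev m t Q * v.1.1 := by
  have h1 := congrArg (hev m t) h
  rw [hev_C_mul, ← pr_ms, hev_pr t _ ((card_ms Y).trans hm)] at h1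
  rw [h1, sub_eq_add_neg, ← neg_mul, ← C_neg, hev_add, hev_C_mul, hev_C_mul]
  ring

theorem fibre_sum [IsAlgClosed F] [CharZero F] [Nonempty ι] {P Q : F[X]} {k₁ k₂ k₃ k₄ : F}
    (hk₁ : k₁ ≠ 0) (hk₂ : k₂ ≠ 0) (hk₃ : k₃ ≠ 0) {Y₁ Y₂ Y₃ Y₄ : ι → NV F}
    {v₁ v₂ v₃ v₄ : NV F}
    (hPQ : ∀ t : NV F, hev (Fintype.card ι) t P ≠ 0 ∨ hev (Fintype.card ι) t Q ≠ 0)
    (h₁ : C k₁ * ∏ i, lin (Y₁ i) = C v₁.1.2 * P - C v₁.1.1 * Q)
    (h₂ : C k₂ * ∏ i, lin (Y₂ i) = C v₂.1.2 * P - C v₂.1.1 * Q)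
    (h₃ : C k₃ * ∏ i, lin (Y₃ i) = C v₃.1.2 * P - C v₃.1.1 * Q)
    (h₄ : C k₄ * ∏ i, lin (Y₄ i) = C v₄.1.2 * P - C v₄.1.1 * Q)
    (n₁₂ : brV v₁ v₂ ≠ 0) (n₁₃ : brV v₁ v₃ ≠ 0) (n₂₃ : brV v₂ v₃ ≠ 0) (n₂₄ : brV v₂ v₄ ≠ 0) :
    ∑ i, ∑ j, ∑ k, ∑ l, cr brV (Y₁ i) (Y₂ j) (Y₃ k) (Y₄ l) =
      ((Fintype.card ι : ℚ) ^ 2) • cr brV v₁ v₂ v₃ v₄ := by
  have hinf : Infinite F := inferInstance
  have hN := brV_nbracket (F := F)
  have hB := hN.toBracket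
  set m := Fintype.card ι with hm
  have hm0 : (m : ℚ) ≠ 0 := Nat.cast_ne_zero.mpr Fintype.card_ne_zero
  -- the value vector
  have val : ∀ t : NV F, ∃ z : NV F, hev m t P = z.1.1 ∧ hev m t Q = z.1.2 := by
    intro t
    refine ⟨⟨(hev m t P, hev m t Q), ?_⟩, rfl, rfl⟩
    intro h0
    rcases hPQ t with h | h
    · exact h (congrArg Prod.fst h0)
    · exact h (congrArg Prod.snd h0)
  have evz : ∀ {Y : ι → NV F} {k : F} {v : NV F},
      (C k * ∏ i, lin (Y i) = C v.1.2 * P - C v.1.1 * Q) → ∀ {t z : NV F},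
      hev m t P = z.1.1 → hev m t Q = z.1.2 → k * ev (ms Y) t = brV z v := by
    intro Y k v h t z e1 e2
    rw [hev_form hm.symm h t, e1, e2]
    rfl
  -- the identity of forms
  have hid : C (k₁ * brV v₂ v₃) * pr (ms Y₁) + C (k₃ * brV v₁ v₂) * pr (ms Y₃) =
      C (k₂ * brV v₁ v₃) * pr (ms Y₂) := by
    rw [pr_ms, pr_ms, pr_ms]
    unfold brV br
    simp only [C_mul, C_sub]
    linear_combination (C v₂.1.1 * C v₃.1.2 - C v₂.1.2 * C v₃.1.1) * h₁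
      + (C v₁.1.1 * C v₂.1.2 - C v₁.1.2 * C v₂.1.1) * h₃
      - (C v₁.1.1 * C v₃.1.2 - C v₁.1.2 * C v₃.1.1) * h₂
  have hne : ∀ t : NV F, ev (ms Y₁) t ≠ 0 ∨ ev (ms Y₂) t ≠ 0 := by
    intro t
    by_contra h0
    push Not at h0
    obtain ⟨z, e1, e2⟩ := val t
    have g1 := evz h₁ e1 e2
    have g2 := evz h₂ e1 e2
    rw [h0.1, mul_zero] at g1
    rw [h0.2, mul_zero] at g2
    exact n₁₂ (hN.trans _ _ _ (hN.symm0 g1.symm) g2.symm)
  have key : ∀ k l, S3 (Y₄ l) (Y₃ k) (ms Y₁) (ms Y₃) (ms Y₂) = cr brV v₁ v₂ v₃ v₄ := by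
    intro k l
    rw [S3_eq m (ms Y₁) (ms Y₃) (ms Y₂) (card_ms _) (card_ms _) (card_ms _) _ _ _
      (mul_ne_zero hk₁ n₂₃) (mul_ne_zero hk₃ n₁₂) (mul_ne_zero hk₂ n₁₃) hid _ _ (hne _) (hne _)]
    have f3 : sy (k₁ * brV v₂ v₃ * ev (ms Y₁) (Y₃ k) / (k₂ * brV v₁ v₃ * ev (ms Y₂) (Y₃ k))) = 0 := by
      have h0 : ev (ms Y₃) (Y₃ k) = 0 := ev_eq_zero.mpr ⟨Y₃ k, Multiset.mem_map.mpr ⟨k, mem_univ k, rfl⟩, brV_self _⟩
      have h1 := hom3 (card_ms Y₁) (card_ms Y₃) (card_ms Y₂) hid (Y₃ k)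
      rw [h0, mul_zero, add_zero] at h1
      rw [h1]
      by_cases h2 : k₂ * brV v₁ v₃ * ev (ms Y₂) (Y₃ k) = 0
      · rw [h2, div_zero, sy_zero]
      · rw [div_self h2, sy_one]
    have f4 : sy (k₁ * brV v₂ v₃ * ev (ms Y₁) (Y₄ l) / (k₂ * brV v₁ v₃ * ev (ms Y₂) (Y₄ l))) =
        - cr brV v₁ v₂ v₃ v₄ := by
      obtain ⟨z, e1, e2⟩ := val (Y₄ l)
      have g1 := evz h₁ e1 e2
      have g2 := evz h₂ e1 e2
      have g4 := evz h₄ e1 e2
      have h0 : ev (ms Y₄) (Y₄ l) = 0 := ev_eq_zero.mpr ⟨Y₄ l, Multiset.mem_map.mpr ⟨l, mem_univ l, rfl⟩, brV_self _⟩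
      rw [h0, mul_zero] at g4
      rw [show k₁ * brV v₂ v₃ * ev (ms Y₁) (Y₄ l) = brV v₂ v₃ * brV z v₁ by rw [← g1]; ring,
        show k₂ * brV v₁ v₃ * ev (ms Y₂) (Y₄ l) = brV v₁ v₃ * brV z v₂ by rw [← g2]; ring]
      have hz2 : brV z v₂ ≠ 0 := by
        intro h
        apply n₂₄
        exact hN.trans _ _ _ (hN.symm0 h) g4.symm
      obtain ⟨c, hc, -, hc'⟩ := lin_par g4.symm
      rw [← neg_neg (sy _), ← sy_compl]
      congr 1
      unfold cr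
      congr 1
      rw [hB.anti v₄ v₃, hB.anti v₄ v₂, one_sub_div (mul_ne_zero n₁₃ hz2),
        div_eq_div_iff (mul_ne_zero n₁₃ hz2) (by
          rw [← hB.anti v₄ v₂]; exact mul_ne_zero n₁₃ n₂₄)]
      have q1 : brV v₄ v₃ = c * brV z v₃ := by
        have := hc' v₃
        rw [hB.anti v₄ v₃, hB.anti z v₃] at this
        linear_combination -this
      have q2 : brV v₄ v₂ = c * brV z v₂ := by
        have := hc' v₂
        rw [hB.anti v₄ v₂, hB.anti z v₂] at this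
        linear_combination -this
      rw [q1, q2]
      have hp := hB.pl z v₁ v₂ v₃
      linear_combination (c * brV v₁ v₃ * brV z v₂) * hp
    rw [f3, f4]
    abel
  -- summation
  have hT : ∀ t t' : NV F, (m : ℚ) • S3 t t' (ms Y₁) (ms Y₃) (ms Y₂) =
      (∑ i, ∑ j, ∑ k, cr brV (Y₁ i) (Y₂ j) (Y₃ k) t) -
        ∑ i, ∑ j, ∑ k, cr brV (Y₁ i) (Y₂ j) (Y₃ k) t' := by
    intro t t'
    rw [← Finset.sum_sub_distrib]
    simp only [← Finset.sum_sub_distrib, ← cyc_coc]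
    simp only [Finset.sum_add_distrib]
    unfold S3
    rw [cs_ms, cs_ms, cs_ms, smul_add, smul_add]
    congr 1
    · congr 1
      · rw [Finset.smul_sum]
        refine Finset.sum_congr rfl fun i _ => ?_
        rw [Finset.sum_const, card_univ, ← hm, ← Nat.cast_smul_eq_nsmul ℚ]
      · rw [Finset.sum_const, card_univ, ← hm, ← Nat.cast_smul_eq_nsmul ℚ, Finset.sum_comm]
    · rw [Finset.sum_comm, Finset.smul_sum]
      refine Finset.sum_congr rfl fun j _ => ?_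
      rw [Finset.smul_sum]
      refine Finset.sum_congr rfl fun i _ => ?_
      rw [Finset.sum_const, card_univ, ← hm, ← Nat.cast_smul_eq_nsmul ℚ]
  have hz : ∑ k', ∑ i, ∑ j, ∑ k, cr brV (Y₁ i) (Y₂ j) (Y₃ k) (Y₃ k') = 0 := by
    have e : ∑ k', ∑ i, ∑ j, ∑ k, cr brV (Y₁ i) (Y₂ j) (Y₃ k) (Y₃ k') =
        ∑ i, ∑ j, ∑ k', ∑ k, cr brV (Y₁ i) (Y₂ j) (Y₃ k) (Y₃ k') := by
      rw [Finset.sum_comm]
      refine Finset.sum_congr rfl fun i _ => ?_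
      rw [Finset.sum_comm]
    rw [e]
    refine Finset.sum_eq_zero fun i _ => Finset.sum_eq_zero fun j _ => ?_
    have h2 : ∑ k', ∑ k, cr brV (Y₁ i) (Y₂ j) (Y₃ k) (Y₃ k') =
        - ∑ k', ∑ k, cr brV (Y₁ i) (Y₂ j) (Y₃ k) (Y₃ k') := by
      conv_lhs => rw [Finset.sum_comm]
      rw [← Finset.sum_neg_distrib]
      refine Finset.sum_congr rfl fun k _ => ?_
      rw [← Finset.sum_neg_distrib]
      refine Finset.sum_congr rfl fun k' _ => ?_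
      exact cr_swap_cd hB _ _ _ _
    have h3 : (2 : ℚ) • ∑ k', ∑ k, cr brV (Y₁ i) (Y₂ j) (Y₃ k) (Y₃ k') = 0 := by
      rw [two_smul]
      nth_rewrite 1 [h2]
      exact neg_add_cancel _
    exact (smul_eq_zero.mp h3).resolve_left two_ne_zero
  have hsum : ∑ l, ∑ k', ((m : ℚ) • S3 (Y₄ l) (Y₃ k') (ms Y₁) (ms Y₃) (ms Y₂)) =
      (m : ℚ) • ∑ i, ∑ j, ∑ k, ∑ l, cr brV (Y₁ i) (Y₂ j) (Y₃ k) (Y₄ l) := by
    have e1 : ∀ l, ∑ k', ((m : ℚ) • S3 (Y₄ l) (Y₃ k') (ms Y₁) (ms Y₃) (ms Y₂)) =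
        (m : ℚ) • ∑ i, ∑ j, ∑ k, cr brV (Y₁ i) (Y₂ j) (Y₃ k) (Y₄ l) := by
      intro l
      simp only [hT]
      rw [Finset.sum_sub_distrib, hz, sub_zero, Finset.sum_const, card_univ, ← hm,
        ← Nat.cast_smul_eq_nsmul ℚ]
    simp only [e1]
    rw [← Finset.smul_sum]
    congr 1
    rw [Finset.sum_comm]
    refine Finset.sum_congr rfl fun i _ => ?_
    rw [Finset.sum_comm]
    refine Finset.sum_congr rfl fun j _ => ?_
    rw [Finset.sum_comm]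
  have hfin : (m : ℚ) • ∑ i, ∑ j, ∑ k, ∑ l, cr brV (Y₁ i) (Y₂ j) (Y₃ k) (Y₄ l) =
      (m : ℚ) • ((m : ℚ) ^ 2 • cr brV v₁ v₂ v₃ v₄) := by
    rw [← hsum]
    simp only [key]
    rw [Finset.sum_const, Finset.sum_const, card_univ, ← hm, ← Nat.cast_smul_eq_nsmul ℚ,
      ← Nat.cast_smul_eq_nsmul ℚ, smul_smul, smul_smul, smul_smul]
    congr 1
    ring
  have h0 : (m : ℚ) • (∑ i, ∑ j, ∑ k, ∑ l, cr brV (Y₁ i) (Y₂ j) (Y₃ k) (Y₄ l) -
      (m : ℚ) ^ 2 • cr brV v₁ v₂ v₃ v₄) = 0 := by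
    rw [smul_sub, hfin, sub_self]
  exact sub_eq_zero.mp ((smul_eq_zero.mp h0).resolve_left hm0)

end

end K4M
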