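import Pool.Agent.Lib_helper76.K4M.Biq
import Pool.Agent.Lib_helper76.K4M.FibreSum

/-!
Isogenies as data, and the fibres of the induced map of the `x`-line with multiplicities.
-/

set_option autoImplicit false
set_option linter.unusedSectionVars false

open Polynomial Finset

namespace K4M

open WeierstrassCurve.Affine

/-- an isogeny of Weierstrass curves: a homomorphism of the groups of points with finite kernel
and a rational function `P / Q` of degree `|ker|` with `x(φ(a)) = P(x(a)) / Q(x(a))` -/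
structure Isog {F : Type*} [Field F] [DecidableEq F] (W W' : WeierstrassCurve.Affine F) where
  hom : W.Point →+ W'.Point
  fin : Finite hom.ker
  P : F[X]
  Q : F[X]
  cop : IsCoprime P Q
  degP : P.natDegree = Nat.card hom.ker
  degQ : Q.natDegree < Nat.card hom.ker
  val_zero : ∀ a : W.Point, a ≠ 0 → hom a = 0 → Q.eval (xc a) = 0
  val : ∀ a : W.Point, hom a ≠ 0 → P.eval (xc a) = xc (hom a) * Q.eval (xc a)

section Isog

variable {F : Type*} [Field F] [DecidableEq F] {W W' : WeierstrassCurve.Affine F}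

lemma xc_eq_iff {a b : W.Point} (ha : a ≠ 0) (hb : b ≠ 0) : xc a = xc b ↔ a = b ∨ a = -b := by
  rw [← dx_eq_zero_iff]
  unfold dx
  rw [xv_of_ne ha, xv_of_ne hb, mul_one, one_mul, sub_eq_zero]

lemma ig_ps_sq (a : W.Point) (ha : a ≠ 0) :
    ps a ^ 2 = 4 * xc a ^ 3 + W.b₂ * xc a ^ 2 + 2 * W.b₄ * xc a + W.b₆ := by
  rcases a with _ | ⟨x, y, h⟩
  · exact absurd rfl ha
  · have e := (equation_iff' x y).mp h.1
    simp only [xc, xv, ps]
    rw [WeierstrassCurve.b₂, WeierstrassCurve.b₄, WeierstrassCurve.b₆]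
    linear_combination 4 * e

/-- over an algebraically closed field every element is the `x`-coordinate of a point -/
lemma ig_exists_pt [IsAlgClosed F] [W.IsElliptic] (x : F) : ∃ a : W.Point, a ≠ 0 ∧ xc a = x := by
  obtain ⟨y, hy⟩ := IsAlgClosed.exists_root (X ^ 2 + C (W.a₁ * x + W.a₃) * X
    - C (x ^ 3 + W.a₂ * x ^ 2 + W.a₄ * x + W.a₆)) (by
      have : (X ^ 2 + C (W.a₁ * x + W.a₃) * X
        - C (x ^ 3 + W.a₂ * x ^ 2 + W.a₄ * x + W.a₆) : F[X]).degree = 2 := by compute_degree!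
      rw [this]; decide)
  have he : W.Equation x y := by
    rw [equation_iff']
    simp only [IsRoot.def, eval_sub, eval_add, eval_pow, eval_X, eval_mul, eval_C] at hy
    linear_combination hy
  exact ⟨Point.some x y (equation_iff_nonsingular.mp he), by
    intro h; exact Point.some_ne_zero _ h, rfl⟩

namespace Isog

variable (Φ : Isog W W')

lemma Q_ne {a : W.Point} (ha : Φ.hom a ≠ 0) : Φ.Q.eval (xc a) ≠ 0 := by
  intro h
  have h1 := Φ.val a ha
  rw [h, mul_zero] at h1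
  obtain ⟨u, v, huv⟩ := Φ.cop
  have := congrArg (eval (xc a)) huv
  rw [eval_add, eval_mul, eval_mul, h1, h, mul_zero, mul_zero, add_zero, eval_one] at this
  exact zero_ne_one this

lemma hom_add (a : W.Point) (i : Φ.hom.ker) : Φ.hom (a + i) = Φ.hom a := by
  rw [map_add, AddMonoidHom.mem_ker.mp i.2, add_zero]

lemma ne_zero_of {a : W.Point} (ha : Φ.hom a ≠ 0) : a ≠ 0 := by
  rintro rfl; exact ha (map_zero _)

lemma P_ne : Φ.P ≠ 0 := by
  intro h
  have h1 := Φ.degP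
  have h2 := Φ.degQ
  rw [h, natDegree_zero] at h1
  omega

variable [Fintype Φ.hom.ker]

lemma degP' : Φ.P.natDegree = Fintype.card Φ.hom.ker := by
  rw [Φ.degP, Nat.card_eq_fintype_card]

lemma deg_lt (c : F) : (C c * Φ.Q).degree < Φ.P.degree := by
  have h1 : (C c * Φ.Q).natDegree < Φ.P.natDegree :=
    lt_of_le_of_lt (natDegree_C_mul_le _ _) (by rw [Φ.degP]; exact Φ.degQ)
  exact degree_lt_degree h1

lemma lead (c : F) : (Φ.P - C c * Φ.Q).leadingCoeff = Φ.P.leadingCoeff :=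
  leadingCoeff_sub_of_degree_lt (Φ.deg_lt c)

lemma degree_G (c : F) : (Φ.P - C c * Φ.Q).degree = Φ.P.degree :=
  degree_sub_eq_left_of_degree_lt (Φ.deg_lt c)

/-- `∏ (X - x(a + i))` -/
noncomputable def Kp (a : W.Point) : F[X] := ∏ i : Φ.hom.ker, (X - C (xc (a + (i : W.Point))))

lemma Kp_monic (a : W.Point) : (Φ.Kp a).Monic := monic_prod_of_monic _ _ fun i _ => monic_X_sub_C _

lemma Kp_natDegree (a : W.Point) : (Φ.Kp a).natDegree = Fintype.card Φ.hom.ker := by
  unfold Kp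
  rw [natDegree_prod_of_monic _ _ fun i _ => monic_X_sub_C _]
  simp

/-- the generic fibre -/
lemma gen {a : W.Point} (haa : Φ.hom (a + a) ≠ 0) :
    Φ.P - C (xc (Φ.hom a)) * Φ.Q = C Φ.P.leadingCoeff * Φ.Kp a := by
  have ha : Φ.hom a ≠ 0 := by
    intro h; apply haa; rw [map_add, h, add_zero]
  have hP := Φ.P_ne
  have hl : Φ.P.leadingCoeff ≠ 0 := leadingCoeff_ne_zero.mpr hP
  rw [← sub_eq_zero]
  apply eq_zero_of_natDegree_lt_card_of_eval_eq_zero _ (f := fun i : Φ.hom.ker => xc (a + (i : W.Point)))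
  · intro i j hij
    have hi : a + i ≠ 0 := Φ.ne_zero_of (by rw [Φ.hom_add]; exact ha)
    have hj : a + j ≠ 0 := Φ.ne_zero_of (by rw [Φ.hom_add]; exact ha)
    rcases (xc_eq_iff hi hj).mp hij with h | h
    · exact Subtype.ext (add_left_cancel h)
    · exfalso
      apply haa
      have : a + a = -((i : W.Point) + j) := by
        have h2 : a + a = (a + i) + (a + j) - ((i : W.Point) + j) := by abel
        rw [h2, h]; abel
      rw [this, map_neg, map_add, AddMonoidHom.mem_ker.mp i.2, AddMonoidHom.mem_ker.mp j.2,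
        add_zero, neg_zero]
  · intro i
    have hi : Φ.hom (a + i) ≠ 0 := by rw [Φ.hom_add]; exact ha
    have h1 := Φ.val (a + (i : W.Point)) hi
    rw [Φ.hom_add] at h1
    have h2 : eval (xc (a + (i : W.Point))) (Φ.Kp a) = 0 := by
      unfold Kp
      rw [eval_prod]
      apply prod_eq_zero (mem_univ i)
      rw [eval_sub, eval_X, eval_C, sub_self]
    rw [eval_sub, eval_sub, eval_mul, eval_C, eval_mul, h2, mul_zero, h1, sub_self, sub_zero]
  · have hG0 : Φ.P - C (xc (Φ.hom a)) * Φ.Q ≠ 0 := by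
      intro h
      have := Φ.degree_G (xc (Φ.hom a))
      rw [h, degree_zero, eq_comm, degree_eq_bot] at this
      exact hP this
    have hdeg : (C Φ.P.leadingCoeff * Φ.Kp a).degree = Φ.P.degree := by
      rw [degree_C_mul hl, degree_eq_natDegree (Φ.Kp_monic a).ne_zero, Φ.Kp_natDegree,
        degree_eq_natDegree hP, Φ.degP']
    have hlt := degree_sub_lt_left (p := Φ.P - C (xc (Φ.hom a)) * Φ.Q)
      (q := C Φ.P.leadingCoeff * Φ.Kp a) (by rw [Φ.degree_G, hdeg]) hG0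
      (by rw [Φ.lead, leadingCoeff_mul, (Φ.Kp_monic a).leadingCoeff, mul_one, leadingCoeff_C])
    rw [Φ.degree_G, degree_eq_natDegree hP, Φ.degP'] at hlt
    by_cases h0 : Φ.P - C (xc (Φ.hom a)) * Φ.Q - C Φ.P.leadingCoeff * Φ.Kp a = 0
    · rw [h0, natDegree_zero]
      exact Fintype.card_pos
    · rw [degree_eq_natDegree h0] at hlt
      exact_mod_cast hlt

/-- `∏_{i ≠ 0} (u - x_i)` -/
noncomputable def pi0 (u : F) : F := ∏ i ∈ (univ : Finset Φ.hom.ker).erase 0, (u - xc (i : W.Point))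

lemma pi0_ne {a : W.Point} (ha : Φ.hom a ≠ 0) : Φ.pi0 (xc a) ≠ 0 := by
  unfold pi0
  rw [prod_ne_zero_iff]
  intro i hi
  have hi0 : (i : W.Point) ≠ 0 := fun h => (mem_erase.mp hi).1 (Subtype.ext h)
  rw [sub_ne_zero]
  intro h
  rcases (xc_eq_iff (Φ.ne_zero_of ha) hi0).mp h with h | h
  · apply ha; rw [h]; exact i.2
  · apply ha; rw [h, map_neg, AddMonoidHom.mem_ker.mp i.2, neg_zero]

/-- the square of `∏ (s - x(a + i))` as a rational function of `x_a` -/
lemma KK {a : W.Point} (ha : Φ.hom a ≠ 0) (s : F) :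
    Φ.pi0 (xc a) ^ 2 * (Φ.Kp a).eval s ^ 2 = (s - xc a) ^ 2 *
      ∏ i ∈ (univ : Finset Φ.hom.ker).erase 0, NN W (xc a) (xc (i : W.Point)) s := by
  have e1 : (Φ.Kp a).eval s = ∏ i : Φ.hom.ker, (s - xc (a + (i : W.Point))) := by
    unfold Kp
    rw [eval_prod]
    exact prod_congr rfl fun i _ => by rw [eval_sub, eval_X, eval_C]
  have e2 : (Φ.Kp a).eval s = ∏ i : Φ.hom.ker, (s - xc (a - (i : W.Point))) := by
    rw [e1, ← Equiv.prod_comp (Equiv.neg Φ.hom.ker)]
    refine prod_congr rfl fun i _ => ?_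
    rw [Equiv.neg_apply, AddSubgroup.coe_neg, ← sub_eq_add_neg]
  have e3 : (Φ.Kp a).eval s ^ 2 = ∏ i : Φ.hom.ker, ((s - xc (a + (i : W.Point))) * (s - xc (a - (i : W.Point)))) := by
    rw [prod_mul_distrib, ← e1, ← e2, sq]
  rw [e3, ← mul_prod_erase univ _ (mem_univ (0 : Φ.hom.ker)), AddSubgroup.coe_zero, add_zero,
    sub_zero]
  unfold pi0
  rw [← prod_pow]
  rw [show ∀ A B D : F, A * (B * B * D) = B ^ 2 * (D * A) by intros; ring, ← prod_mul_distrib]
  congr 1
  refine prod_congr rfl fun i hi => ?_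
  have hi0 : (i : W.Point) ≠ 0 := fun h => (mem_erase.mp hi).1 (Subtype.ext h)
  apply S1 (Φ.ne_zero_of ha) hi0
  · intro h; apply ha; rw [h]; exact i.2
  · intro h; apply ha; rw [h, map_neg, AddMonoidHom.mem_ker.mp i.2, neg_zero]

/-- the biquadratic form as a polynomial in the first variable -/
noncomputable def NNp (W : WeierstrassCurve.Affine F) (v w : F) : F[X] :=
  X ^ 2 * C (v ^ 2) + C (v ^ 2 * w ^ 2) + C (w ^ 2) * X ^ 2 - 2 * X * C (v * w) * (X + C v + C w)
    - C (W.b₂ * v * w) * X - C W.b₄ * (X * C v + C (v * w) + C w * X)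
    - C W.b₆ * (X + C v + C w) - C W.b₈

lemma NNp_eval (v w u : F) : (NNp W v w).eval u = NN W u v w := by
  unfold NNp NN
  simp only [eval_sub, eval_add, eval_mul, eval_pow, eval_X, eval_C, eval_ofNat]
  ring

/-- `N(u, u, w)` as a polynomial in `u` -/
noncomputable def NNq (W : WeierstrassCurve.Affine F) (w : F) : F[X] :=
  X ^ 4 + (C (-4 * w) * X ^ 3 + C (-(W.b₂ * w) - W.b₄) * X ^ 2 + C (-(2 * W.b₄ * w) - 2 * W.b₆) * X
    + C (-(W.b₆ * w) - W.b₈))

lemma NNq_eval (w u : F) : (NNq W w).eval u = NN W u u w := by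
  unfold NNq NN
  simp only [eval_add, eval_mul, eval_pow, eval_X, eval_C]
  ring

lemma NNq_ne (w : F) : NNq W w ≠ 0 := by
  have : (NNq W w).Monic := by
    unfold NNq
    monicity!
  exact this.ne_zero

/-- `ψ₂²` as a polynomial -/
noncomputable def psq (W : WeierstrassCurve.Affine F) : F[X] :=
  C 4 * X ^ 3 + C W.b₂ * X ^ 2 + C (2 * W.b₄) * X + C W.b₆

lemma psq_ne [CharZero F] : psq W ≠ 0 := by
  intro h
  have := congrArg (fun p => coeff p 3) h
  unfold psq at this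
  simp at this

/-- the polynomial whose nonroots are generic -/
noncomputable def Zp : F[X] :=
  psq W * ∏ i ∈ (univ : Finset Φ.hom.ker).erase 0, NNq W (xc (i : W.Point))

lemma Zp_ne [CharZero F] : Φ.Zp ≠ 0 := by
  unfold Zp
  apply mul_ne_zero psq_ne
  rw [prod_ne_zero_iff]
  intro i _
  exact NNq_ne _

lemma generic_of {a : W.Point} (ha0 : a ≠ 0) (hz : Φ.Zp.eval (xc a) ≠ 0) : Φ.hom (a + a) ≠ 0 := by
  intro h
  unfold Zp at hz
  rw [eval_mul, eval_prod] at hz
  have h1 := left_ne_zero_of_mul hz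
  have h2 := right_ne_zero_of_mul hz
  rw [prod_ne_zero_iff] at h2
  have hps : (psq W).eval (xc a) = ps a ^ 2 := by
    rw [ig_ps_sq a ha0]
    unfold psq
    simp only [eval_add, eval_mul, eval_pow, eval_X, eval_C]
  rw [hps] at h1
  have haa : a + a ≠ 0 := fun h0 => h1 (by rw [ps_two_torsion ha0 h0]; ring)
  have h3 := h2 ⟨a + a, AddMonoidHom.mem_ker.mpr h⟩ (mem_erase.mpr ⟨fun h0 => haa (congrArg Subtype.val h0), mem_univ _⟩)
  apply h3
  rw [NNq_eval]
  have := S2 ha0 haa (xc (a + a))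
  rw [sub_self, zero_mul] at this
  exact neg_eq_zero.mp this.symm

/-- the main identity -/
lemma star [IsAlgClosed F] [CharZero F] [W.IsElliptic] (s u : F) :
    Φ.pi0 u ^ 2 * (Φ.P.eval s * Φ.Q.eval u - Φ.P.eval u * Φ.Q.eval s) ^ 2 =
      Φ.P.leadingCoeff ^ 2 * Φ.Q.eval u ^ 2 * ((s - u) ^ 2 *
        ∏ i ∈ (univ : Finset Φ.hom.ker).erase 0, NN W u (xc (i : W.Point)) s) := by
  set A : F[X] := (∏ i ∈ (univ : Finset Φ.hom.ker).erase 0, (X - C (xc (i : W.Point)))) ^ 2 *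
    (C (Φ.P.eval s) * Φ.Q - Φ.P * C (Φ.Q.eval s)) ^ 2 with hA
  set B : F[X] := C (Φ.P.leadingCoeff ^ 2) * Φ.Q ^ 2 * ((C s - X) ^ 2 *
    ∏ i ∈ (univ : Finset Φ.hom.ker).erase 0, NNp W (xc (i : W.Point)) s) with hB
  have eA : ∀ v, A.eval v = Φ.pi0 v ^ 2 *
      (Φ.P.eval s * Φ.Q.eval v - Φ.P.eval v * Φ.Q.eval s) ^ 2 := by
    intro v
    rw [hA]
    simp only [eval_mul, eval_pow, eval_prod, eval_sub, eval_X, eval_C]
    rfl
  have eB : ∀ v, B.eval v = Φ.P.leadingCoeff ^ 2 * Φ.Q.eval v ^ 2 * ((s - v) ^ 2 *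
        ∏ i ∈ (univ : Finset Φ.hom.ker).erase 0, NN W v (xc (i : W.Point)) s) := by
    intro v
    rw [hB]
    simp only [eval_mul, eval_pow, eval_prod, eval_sub, eval_X, eval_C, NNp_eval]
  have key : (A - B) * Φ.Zp = 0 := by
    apply Polynomial.funext
    intro v
    rw [eval_mul, eval_zero]
    by_cases hz : Φ.Zp.eval v = 0
    · rw [hz, mul_zero]
    · obtain ⟨a, ha0, rfl⟩ := ig_exists_pt (W := W) v
      have haa := Φ.generic_of ha0 hz
      have ha : Φ.hom a ≠ 0 := by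
        intro h; apply haa; rw [map_add, h, add_zero]
      have hg := congrArg (eval s) (Φ.gen haa)
      rw [eval_sub, eval_mul, eval_C, eval_mul, eval_C] at hg
      rw [eval_sub, eA, eB, ← Φ.KK ha s, Φ.val a ha]
      have e : Φ.P.eval s * Φ.Q.eval (xc a) - xc (Φ.hom a) * Φ.Q.eval (xc a) * Φ.Q.eval s =
          Φ.Q.eval (xc a) * (Φ.P.leadingCoeff * (Φ.Kp a).eval s) := by
        rw [← hg]; ring
      rw [e]
      ring
  have hAB : A = B := sub_eq_zero.mp ((mul_eq_zero.mp key).resolve_right Φ.Zp_ne)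
  rw [← eA, ← eB, hAB]

/-- every fibre, with multiplicities -/
theorem fib [IsAlgClosed F] [CharZero F] [W.IsElliptic] {a : W.Point} (ha : Φ.hom a ≠ 0) :
    Φ.P - C (xc (Φ.hom a)) * Φ.Q = C Φ.P.leadingCoeff * Φ.Kp a := by
  have hq := Φ.Q_ne ha
  have hpi := Φ.pi0_ne ha
  have hl : Φ.P.leadingCoeff ≠ 0 := leadingCoeff_ne_zero.mpr Φ.P_ne
  have hsq : (Φ.P - C (xc (Φ.hom a)) * Φ.Q) ^ 2 = (C Φ.P.leadingCoeff * Φ.Kp a) ^ 2 := by
    apply Polynomial.funext
    intro s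
    have h := Φ.star s (xc a)
    rw [← Φ.KK ha s, Φ.val a ha] at h
    rw [eval_pow, eval_pow, eval_sub, eval_mul, eval_C, eval_mul, eval_C]
    have hne : Φ.pi0 (xc a) ^ 2 * Φ.Q.eval (xc a) ^ 2 ≠ 0 :=
      mul_ne_zero (pow_ne_zero 2 hpi) (pow_ne_zero 2 hq)
    apply mul_left_cancel₀ hne
    linear_combination h
  rcases sq_eq_sq_iff_eq_or_eq_neg.mp hsq with h | h
  · exact h
  · exfalso
    have h1 := Φ.lead (xc (Φ.hom a))
    rw [h, leadingCoeff_neg, leadingCoeff_mul, leadingCoeff_C, (Φ.Kp_monic a).leadingCoeff,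
      mul_one] at h1
    apply hl
    have : (2 : F) * Φ.P.leadingCoeff = 0 := by linear_combination -h1
    exact (mul_eq_zero.mp this).resolve_left two_ne_zero

lemma exists_hom_ne [IsAlgClosed F] [CharZero F] [W.IsElliptic] : ∃ a : W.Point, Φ.hom a ≠ 0 := by
  obtain ⟨v, hv⟩ : ∃ v, Φ.Zp.eval v ≠ 0 := by
    by_contra h
    push Not at h
    exact Φ.Zp_ne (Polynomial.funext fun v => by rw [h v, eval_zero])
  obtain ⟨a, ha0, rfl⟩ := ig_exists_pt (W := W) v
  have haa := Φ.generic_of ha0 hv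
  exact ⟨a, fun h => haa (by rw [map_add, h, add_zero])⟩

/-- the fibre of infinity -/
theorem fibQ [IsAlgClosed F] [CharZero F] [W.IsElliptic] : ∃ q : F, q ≠ 0 ∧
    Φ.Q = C q * ∏ i ∈ (univ : Finset Φ.hom.ker).erase 0, (X - C (xc (i : W.Point))) := by
  obtain ⟨b, hb⟩ := Φ.exists_hom_ne
  have hq := Φ.Q_ne hb
  have hpi := Φ.pi0_ne hb
  have hl : Φ.P.leadingCoeff ≠ 0 := leadingCoeff_ne_zero.mpr Φ.P_ne
  set π : F[X] := ∏ i ∈ (univ : Finset Φ.hom.ker).erase 0, (X - C (xc (i : W.Point))) with hπ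
  have eπ : ∀ v, π.eval v = Φ.pi0 v := by
    intro v
    rw [hπ]
    simp only [eval_prod, eval_sub, eval_X, eval_C]
    rfl
  have key : ((C (Φ.pi0 (xc b)) * Φ.Q) ^ 2 - (C (Φ.Q.eval (xc b)) * π) ^ 2) * (Φ.Kp b) ^ 2 = 0 := by
    apply Polynomial.funext
    intro u
    have h := Φ.star (xc b) u
    have hf := congrArg (eval u) (Φ.fib hb)
    have hk := Φ.KK hb u
    rw [eval_sub, eval_mul, eval_C, eval_mul, eval_C] at hf
    have e1 : ∏ i ∈ (univ : Finset Φ.hom.ker).erase 0, NN W u (xc (i : W.Point)) (xc b) =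
        ∏ i ∈ (univ : Finset Φ.hom.ker).erase 0, NN W (xc b) (xc (i : W.Point)) u := by
      refine prod_congr rfl fun i _ => ?_
      unfold NN; ring
    rw [e1, show (xc b - u) ^ 2 = (u - xc b) ^ 2 by ring, ← hk, Φ.val b hb] at h
    rw [eval_mul, eval_sub, eval_pow, eval_pow, eval_pow, eval_mul, eval_mul, eval_C, eval_C, eπ,
      eval_zero]
    apply mul_left_cancel₀ (pow_ne_zero 2 hl)
    have e2 : xc (Φ.hom b) * Φ.Q.eval (xc b) * Φ.Q.eval u - Φ.P.eval u * Φ.Q.eval (xc b) =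
        -(Φ.Q.eval (xc b) * (Φ.P.leadingCoeff * (Φ.Kp b).eval u)) := by
      rw [← hf]; ring
    rw [e2] at h
    linear_combination -h
  have h1 := (mul_eq_zero.mp key).resolve_right (pow_ne_zero 2 (Φ.Kp_monic b).ne_zero)
  rcases sq_eq_sq_iff_eq_or_eq_neg.mp (sub_eq_zero.mp h1) with h | h
  · refine ⟨Φ.Q.eval (xc b) / Φ.pi0 (xc b), div_ne_zero hq hpi, ?_⟩
    have hC : C (Φ.pi0 (xc b)) ≠ 0 := by rw [Ne, C_eq_zero]; exact hpi
    apply mul_left_cancel₀ hC
    rw [h, ← mul_assoc, ← C_mul, mul_div_cancel₀ _ hpi]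
  · exfalso
    have h2 := congrArg (eval (xc b)) h
    rw [eval_mul, eval_C, eval_neg, eval_mul, eval_C, eπ] at h2
    have h3 : (2 : F) * (Φ.pi0 (xc b) * Φ.Q.eval (xc b)) = 0 := by linear_combination h2
    exact mul_ne_zero two_ne_zero (mul_ne_zero hpi hq) h3

end Isog

end Isog

end K4M
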