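import Pool.Agent.Lib_helper76.K4M.Isog

/-!
The distribution relation of the cross ratio symbols of points under an isogeny.
-/

set_option autoImplicit false
set_option linter.unusedSectionVars false

open Polynomial Finset

namespace K4M

open WeierstrassCurve.Affine

section IsogB

variable {F : Type*} [Field F] [DecidableEq F] {W W' : WeierstrassCurve.Affine F}

/-- the `x`-coordinate as a nonzero vector -/
def xN (a : W.Point) : NV F := ⟨xv a, by
  rcases a with _ | ⟨x, y, h⟩
  · exact fun h => one_ne_zero (congrArg Prod.fst h)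
  · exact fun h => one_ne_zero (congrArg Prod.snd h)⟩

lemma lin_xN {a : W.Point} (ha : a ≠ 0) : lin (xN a) = X - C (xc a) := by
  show C (xv a).2 * X - C (xv a).1 = X - C (xc a)
  rw [xv_of_ne ha, C_1, one_mul]

lemma lin_xN_zero : lin (xN (0 : W.Point)) = -1 := by
  have : (xN (0 : W.Point)).1 = (1, 0) := rfl
  unfold lin
  rw [this]
  simp

lemma cr_xN (a b c d : W.Point) : cr brV (xN a) (xN b) (xN c) (xN d) =
    cr (dx : W.Point → W.Point → F) a b c d := rfl

lemma brV_xN (a b : W.Point) : brV (xN a) (xN b) = dx a b := rfl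

lemma cr_neg_left (a b c d : W.Point) : cr (dx : W.Point → W.Point → F) (-a) b c d =
    cr (dx : W.Point → W.Point → F) a b c d := by
  have : xN (-a) = xN a := Subtype.ext (xv_neg' a)
  rw [← cr_xN, this, cr_xN]

namespace Isog

variable (Φ : Isog W W') [Fintype Φ.hom.ker]

/-- the form of the fibre of any point -/
lemma fib_form [IsAlgClosed F] [CharZero F] [W.IsElliptic] (a : W.Point) :
    ∃ k : F, k ≠ 0 ∧ C k * ∏ i : Φ.hom.ker, lin (xN (a + (i : W.Point))) =
      C (xN (Φ.hom a)).1.2 * Φ.P - C (xN (Φ.hom a)).1.1 * Φ.Q := by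
  by_cases ha : Φ.hom a = 0
  · obtain ⟨q, hq, hQ⟩ := Φ.fibQ
    refine ⟨q, hq, ?_⟩
    have e : ∏ i : Φ.hom.ker, lin (xN (a + (i : W.Point))) =
        ∏ i : Φ.hom.ker, lin (xN (i : W.Point)) := by
      rw [← Equiv.prod_comp (Equiv.addLeft (⟨a, ha⟩ : Φ.hom.ker))
        (fun i : Φ.hom.ker => lin (xN (i : W.Point)))]
      rfl
    rw [e, ← mul_prod_erase univ _ (mem_univ (0 : Φ.hom.ker)), AddSubgroup.coe_zero, lin_xN_zero, ha]
    have e2 : ∏ i ∈ (univ : Finset Φ.hom.ker).erase 0, lin (xN (i : W.Point)) =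
        ∏ i ∈ (univ : Finset Φ.hom.ker).erase 0, (X - C (xc (i : W.Point))) := by
      refine prod_congr rfl fun i hi => ?_
      exact lin_xN fun h => (mem_erase.mp hi).1 (Subtype.ext h)
    have e3 : (xN (0 : W'.Point)).1 = ((1 : F), (0 : F)) := rfl
    rw [e2, e3, C_0, zero_mul, zero_sub, C_1, one_mul, hQ]
    simp only [hQ.symm]
    rw [hQ]
    ring
  · refine ⟨Φ.P.leadingCoeff, leadingCoeff_ne_zero.mpr Φ.P_ne, ?_⟩
    have h := Φ.fib ha
    have e : ∏ i : Φ.hom.ker, lin (xN (a + (i : W.Point))) = Φ.Kp a := by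
      unfold Kp
      refine prod_congr rfl fun i _ => ?_
      exact lin_xN (Φ.ne_zero_of (by rw [Φ.hom_add]; exact ha))
    have e3 : (xN (Φ.hom a)).1 = (xc (Φ.hom a), (1 : F)) := xv_of_ne ha
    rw [e, e3, C_1, one_mul, h]

lemma hev_ne (t : NV F) : hev (Fintype.card Φ.hom.ker) t Φ.P ≠ 0 ∨
    hev (Fintype.card Φ.hom.ker) t Φ.Q ≠ 0 := by
  set m := Fintype.card Φ.hom.ker with hm
  have hP : Φ.P.natDegree = m := Φ.degP'
  have hQ : Φ.Q.natDegree < m := by rw [hm, ← Φ.degP', Φ.degP]; exact Φ.degQ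
  by_cases h2 : t.1.2 = 0
  · left
    have h1 : t.1.1 ≠ 0 := by
      rcases nv_ne t with h | h
      · exact h
      · exact absurd h2 h
    unfold hev
    rw [sum_eq_single m]
    · rw [Nat.sub_self, pow_zero, mul_one, ← hP, coeff_natDegree]
      exact mul_ne_zero (leadingCoeff_ne_zero.mpr Φ.P_ne) (pow_ne_zero _ h1)
    · intro k hk hkm
      rw [mem_range] at hk
      rw [h2, zero_pow (by omega), mul_zero, mul_zero]
    · intro h
      exact absurd (mem_range.mpr (Nat.lt_succ_self m)) h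
  · have e : ∀ p : F[X], p.natDegree ≤ m → hev m t p = t.1.2 ^ m * p.eval (t.1.1 / t.1.2) := by
      intro p hp
      unfold hev
      rw [eval_eq_sum_range' (lt_of_le_of_lt hp (Nat.lt_succ_self m)), mul_sum]
      refine sum_congr rfl fun k hk => ?_
      rw [mem_range] at hk
      have : t.1.2 ^ m = t.1.2 ^ k * t.1.2 ^ (m - k) := by rw [← pow_add]; congr 1; omega
      rw [this, div_pow]
      field_simp
    rw [e _ hP.le, e _ hQ.le]
    by_contra h0
    push Not at h0
    have h3 := (mul_eq_zero.mp h0.1).resolve_left (pow_ne_zero _ h2)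
    have h4 := (mul_eq_zero.mp h0.2).resolve_left (pow_ne_zero _ h2)
    obtain ⟨u, v, huv⟩ := Φ.cop
    have := congrArg (eval (t.1.1 / t.1.2)) huv
    rw [eval_add, eval_mul, eval_mul, h3, h4, mul_zero, mul_zero, add_zero, eval_one] at this
    exact zero_ne_one this

/-- antisymmetric sums over two copies of the same fibre vanish -/
lemma sum_swap_zero {B : Type*} [AddCommGroup B] [Module ℚ B] {f : W.Point → W.Point → B}
    (hf : ∀ x y, f y x = - f x y) (hn : ∀ x y, f (-x) y = f x y) {a b : W.Point}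
    (h : Φ.hom a = Φ.hom b ∨ Φ.hom a = - Φ.hom b) :
    ∑ i : Φ.hom.ker, ∑ j : Φ.hom.ker, f (a + (i : W.Point)) (b + (j : W.Point)) = 0 := by
  have main : ∀ a : W.Point, ∑ i : Φ.hom.ker, ∑ j : Φ.hom.ker,
      f (a + (i : W.Point)) (a + (j : W.Point)) = 0 := by
    intro a
    have h2 : ∑ i : Φ.hom.ker, ∑ j : Φ.hom.ker, f (a + (i : W.Point)) (a + (j : W.Point)) =
        - ∑ i : Φ.hom.ker, ∑ j : Φ.hom.ker, f (a + (i : W.Point)) (a + (j : W.Point)) := by
      conv_lhs => rw [sum_comm]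
      rw [← sum_neg_distrib]
      refine sum_congr rfl fun j _ => ?_
      rw [← sum_neg_distrib]
      exact sum_congr rfl fun i _ => hf _ _
    have h3 : (2 : ℚ) • ∑ i : Φ.hom.ker, ∑ j : Φ.hom.ker,
        f (a + (i : W.Point)) (a + (j : W.Point)) = 0 := by
      rw [two_smul]
      nth_rewrite 1 [h2]
      exact neg_add_cancel _
    exact (smul_eq_zero.mp h3).resolve_left two_ne_zero
  have shift : ∀ x b : W.Point, Φ.hom x = Φ.hom b → ∑ i : Φ.hom.ker, ∑ j : Φ.hom.ker,
      f (x + (i : W.Point)) (b + (j : W.Point)) = 0 := by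
    intro x b hx
    rw [← main x]
    refine sum_congr rfl fun i _ => ?_
    have hk : Φ.hom (b - x) = 0 := by rw [map_sub, hx, sub_self]
    rw [← Equiv.sum_comp (Equiv.addLeft (⟨b - x, hk⟩ : Φ.hom.ker))
      (fun j : Φ.hom.ker => f (x + (i : W.Point)) (x + (j : W.Point)))]
    refine sum_congr rfl fun j _ => ?_
    congr 1
    simp only [Equiv.coe_addLeft, AddSubgroup.coe_add]
    abel
  rcases h with h | h
  · exact shift a b h
  · rw [← Equiv.sum_comp (Equiv.neg Φ.hom.ker), ← shift (-a) b (by rw [map_neg, h, neg_neg])]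
    refine sum_congr rfl fun i _ => sum_congr rfl fun j _ => ?_
    rw [← hn]
    congr 1
    simp only [Equiv.neg_apply, AddSubgroup.coe_neg]
    abel

/-- **the distribution relation of the cross ratio symbols under an isogeny** -/
theorem cr_sum [IsAlgClosed F] [CharZero F] [W.IsElliptic] (a b c d : W.Point) :
    ∑ i : Φ.hom.ker, ∑ j : Φ.hom.ker, ∑ k : Φ.hom.ker, ∑ l : Φ.hom.ker,
      cr (dx : W.Point → W.Point → F) (a + (i : W.Point)) (b + (j : W.Point))
        (c + (k : W.Point)) (d + (l : W.Point)) =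
      ((Fintype.card Φ.hom.ker : ℚ) ^ 2) •
        cr (dx : W'.Point → W'.Point → F) (Φ.hom a) (Φ.hom b) (Φ.hom c) (Φ.hom d) := by
  have hinf : Infinite F := inferInstance
  have hB : Bracket (dx : W.Point → W.Point → F) := dx_bracket
  -- degenerate positions
  by_cases h12 : dx (Φ.hom a) (Φ.hom b) = 0
  · rw [cr_zero_ab _ _ _ _ h12, smul_zero]
    refine Φ.sum_swap_zero (f := fun x y => ∑ k : Φ.hom.ker, ∑ l : Φ.hom.ker,
        cr (dx : W.Point → W.Point → F) x y (c + (k : W.Point)) (d + (l : W.Point)))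
        ?_ ?_ (dx_eq_zero_iff.mp h12)
    · intro x y
      rw [← sum_neg_distrib]
      refine sum_congr rfl fun k _ => ?_
      rw [← sum_neg_distrib]
      exact sum_congr rfl fun l _ => cr_swap_ab hB _ _ _ _
    · intro x y
      refine sum_congr rfl fun k _ => sum_congr rfl fun l _ => ?_
      exact cr_neg_left _ _ _ _
  by_cases h13 : dx (Φ.hom a) (Φ.hom c) = 0
  · rw [cr_zero_ac _ _ _ _ h13, smul_zero, sum_congr rfl fun i _ => sum_comm]
    refine Φ.sum_swap_zero (f := fun x z => ∑ j : Φ.hom.ker, ∑ l : Φ.hom.ker,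
        cr (dx : W.Point → W.Point → F) x (b + (j : W.Point)) z (d + (l : W.Point)))
        ?_ ?_ (dx_eq_zero_iff.mp h13)
    · intro x z
      rw [← sum_neg_distrib]
      refine sum_congr rfl fun k _ => ?_
      rw [← sum_neg_distrib]
      refine sum_congr rfl fun l _ => ?_
      rw [cr_swap_ab hB, cr_swap_bc, neg_neg, cr_swap_ab hB]
    · intro x z
      refine sum_congr rfl fun k _ => sum_congr rfl fun l _ => ?_
      exact cr_neg_left _ _ _ _
  by_cases h23 : dx (Φ.hom b) (Φ.hom c) = 0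
  · rw [cr_zero_bc dx_bracket _ _ _ _ h23, smul_zero]
    refine sum_eq_zero fun i _ => ?_
    refine Φ.sum_swap_zero (f := fun y z => ∑ l : Φ.hom.ker,
        cr (dx : W.Point → W.Point → F) (a + (i : W.Point)) y z (d + (l : W.Point)))
        ?_ ?_ (dx_eq_zero_iff.mp h23)
    · intro y z
      rw [← sum_neg_distrib]
      exact sum_congr rfl fun l _ => cr_swap_bc _ _ _ _
    · intro y z
      refine sum_congr rfl fun l _ => ?_
      rw [cr_swap_ab hB, cr_neg_left, ← cr_swap_ab hB]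
  by_cases h24 : dx (Φ.hom b) (Φ.hom d) = 0
  · rw [cr_zero_bd _ _ _ _ h24, smul_zero]
    refine sum_eq_zero fun i _ => ?_
    rw [sum_congr rfl fun j _ => sum_comm]
    refine Φ.sum_swap_zero (f := fun y u => ∑ k : Φ.hom.ker,
        cr (dx : W.Point → W.Point → F) (a + (i : W.Point)) y (c + (k : W.Point)) u)
        ?_ ?_ (dx_eq_zero_iff.mp h24)
    · intro y u
      rw [← sum_neg_distrib]
      refine sum_congr rfl fun k _ => ?_
      rw [cr_swap_bc, cr_swap_cd hB, cr_swap_bc, neg_neg]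
    · intro y u
      refine sum_congr rfl fun k _ => ?_
      rw [cr_swap_ab hB, cr_neg_left, ← cr_swap_ab hB]
  obtain ⟨k₁, hk₁, f₁⟩ := Φ.fib_form a
  obtain ⟨k₂, hk₂, f₂⟩ := Φ.fib_form b
  obtain ⟨k₃, hk₃, f₃⟩ := Φ.fib_form c
  obtain ⟨k₄, hk₄, f₄⟩ := Φ.fib_form d
  have h := fibre_sum (Y₁ := fun i : Φ.hom.ker => xN (a + (i : W.Point)))
    (Y₂ := fun i : Φ.hom.ker => xN (b + (i : W.Point)))
    (Y₃ := fun i : Φ.hom.ker => xN (c + (i : W.Point)))
    (Y₄ := fun i : Φ.hom.ker => xN (d + (i : W.Point)))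
    hk₁ hk₂ hk₃ Φ.hev_ne f₁ f₂ f₃ f₄ h12 h13 h23 h24
  exact h

end Isog

end IsogB

end K4M
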