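import Pool.Agent.Lib_helper76.K4M.Dt
import Pool.Agent.Lib_helper60.K4M.SiegelAll

/-!
The distribution relation of the units `g` under an isogeny.
-/

set_option autoImplicit false
set_option linter.unusedSectionVars false

open Finset

namespace K4M

section abs

variable {A A' V : Type*} [AddCommGroup A] [Finite A] [AddCommGroup A'] [AddCommGroup V]
  [Module ℚ V]

/-- a function with the quadratic functional equation outside the degenerate positions vanishes -/
lemma quad_zero (π : A →+ A') {w : A → V} (h0 : ∀ a, π a = 0 → w a = 0)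
    (hinv : ∀ a b, π a = π b → w a = w b)
    (hr : ∀ a b, π a ≠ 0 → π b ≠ 0 → π a ≠ π b → π a ≠ - π b →
      w (a + b) + w (a - b) = (2 : ℚ) • w a + (2 : ℚ) • w b)
    {P : A} (hP : ∀ k : ℕ, 1 ≤ k → k ≤ 6 → π (k • P) ≠ 0) (a : A) : w a = 0 := by
  have hρ : ∀ a b, π (a + a) ≠ 0 → π (b + b) ≠ 0 → π a ≠ π b → π a ≠ - π b →
      w (a + a) - (4 : ℚ) • w a = - (w (b + b) - (4 : ℚ) • w b) := by
    intro a b ha hb hab hab'
    have na : π a ≠ 0 := fun h => ha (by rw [map_add, h, add_zero])
    have nb : π b ≠ 0 := fun h => hb (by rw [map_add, h, add_zero])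
    have e1 := hr a b na nb hab hab'
    have e2 := hr (a + b) (a - b)
      (by rw [map_add]; exact fun h => hab' (eq_neg_of_add_eq_zero_left h))
      (by rw [map_sub]; exact fun h => hab (sub_eq_zero.mp h))
      (by
        intro h
        apply hb
        have h2 : π ((a + b) - (a - b)) = 0 := by rw [map_sub, h, sub_self]
        rw [show b + b = (a + b) - (a - b) by abel]; exact h2)
      (by
        intro h
        apply ha
        have h2 : π ((a + b) + (a - b)) = 0 := by rw [map_add, h, neg_add_cancel]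
        rw [show a + a = (a + b) + (a - b) by abel]; exact h2)
    rw [show a + b + (a - b) = a + a by abel, show a + b - (a - b) = b + b by abel] at e2
    have e3 : (2 : ℚ) • w (a + b) + (2 : ℚ) • w (a - b) = (4 : ℚ) • w a + (4 : ℚ) • w b := by
      rw [← smul_add, e1]; module
    rw [e3] at e2
    rw [← sub_eq_zero] at e2 ⊢
    rw [← e2]; module
  have hm : ∀ j k : ℕ, 1 ≤ j → j < k → k ≤ 3 → π (j • P) ≠ π (k • P) ∧
      π (j • P) ≠ - π (k • P) := by
    intro j k hj hjk hk
    constructor
    · intro h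
      apply hP (k - j) (by omega) (by omega)
      rw [show k • P = (k - j) • P + j • P by rw [← add_smul]; congr 1; omega, map_add] at h
      exact add_eq_right.mp h.symm
    · intro h
      apply hP (j + k) (by omega) (by omega)
      rw [add_smul, map_add, h, neg_add_cancel]
  have hm2 : ∀ j : ℕ, 1 ≤ j → j ≤ 3 → π (j • P + j • P) ≠ 0 := by
    intro j hj hj3
    rw [← add_smul]
    exact hP (j + j) (by omega) (by omega)
  -- ρ(P) = 0 and so on
  have r12 := hρ (1 • P) (2 • P) (hm2 1 (by norm_num) (by norm_num)) (hm2 2 (by norm_num) (by norm_num))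
    (hm 1 2 (by norm_num) (by norm_num) (by norm_num)).1 (hm 1 2 (by norm_num) (by norm_num) (by norm_num)).2
  have r13 := hρ (1 • P) (3 • P) (hm2 1 (by norm_num) (by norm_num)) (hm2 3 (by norm_num) (by norm_num))
    (hm 1 3 (by norm_num) (by norm_num) (by norm_num)).1 (hm 1 3 (by norm_num) (by norm_num) (by norm_num)).2
  have r23 := hρ (2 • P) (3 • P) (hm2 2 (by norm_num) (by norm_num)) (hm2 3 (by norm_num) (by norm_num))
    (hm 2 3 (by norm_num) (by norm_num) (by norm_num)).1 (hm 2 3 (by norm_num) (by norm_num) (by norm_num)).2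
  have r1 : w (1 • P + 1 • P) - (4 : ℚ) • w (1 • P) = 0 := by
    have h2 : (2 : ℚ) • (w (1 • P + 1 • P) - (4 : ℚ) • w (1 • P)) = 0 := by
      rw [two_smul]
      nth_rewrite 1 [r12]
      rw [r13, r23]
      abel
    exact (smul_eq_zero.mp h2).resolve_left two_ne_zero
  have r2 : w (2 • P + 2 • P) - (4 : ℚ) • w (2 • P) = 0 := by
    rw [r1] at r12
    exact (neg_eq_zero.mp r12.symm)
  have hρ0 : ∀ a, π (a + a) ≠ 0 → w (a + a) - (4 : ℚ) • w a = 0 := by
    intro a ha
    by_cases h1 : π a = π (1 • P) ∨ π a = - π (1 • P)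
    · have h12 := hm 1 2 (by norm_num) (by norm_num) (by norm_num)
      have n1 : π a ≠ π (2 • P) := by
        rcases h1 with h | h
        · rw [h]; exact h12.1
        · rw [h]; intro h'; exact h12.2 (by rw [← h', neg_neg])
      have n2 : π a ≠ - π (2 • P) := by
        rcases h1 with h | h
        · rw [h]; exact h12.2
        · rw [h]; intro h'; exact h12.1 (neg_injective h')
      rw [hρ a (2 • P) ha (hm2 2 (by norm_num) (by norm_num)) n1 n2, r2, neg_zero]
    · push Not at h1
      rw [hρ a (1 • P) ha (hm2 1 (by norm_num) (by norm_num)) h1.1 h1.2, r1, neg_zero]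
  have htwo : ∀ i, π i ≠ 0 → π (i + i) = 0 → w i = 0 := by
    intro i hi hii
    have hin : - π i = π i := by
      rw [neg_eq_iff_add_eq_zero, ← map_add]; exact hii
    have ha0 : π (1 • P) ≠ 0 := hP 1 (by norm_num) (by norm_num)
    have hai : π (1 • P) ≠ π i := by
      intro h
      apply hm2 1 (by norm_num) (by norm_num)
      rw [map_add, h, ← map_add]; exact hii
    set a := 1 • P with ha
    have e1 := hr a i ha0 hi hai (by rw [hin]; exact hai)
    have e2 := hr (a + i) i
      (by
        rw [map_add]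
        intro h
        apply hai
        rw [← hin]
        exact eq_neg_of_add_eq_zero_left h)
      hi
      (by
        rw [map_add]
        intro h
        exact ha0 (add_eq_right.mp h))
      (by
        rw [map_add, hin]
        intro h
        exact ha0 (add_eq_right.mp h))
    have i1 : w (a + i + i) = w a := hinv _ _ (by rw [add_assoc, map_add, hii, add_zero])
    have i2 : w (a - i) = w (a + i) := hinv _ _ (by rw [map_sub, map_add, sub_eq_add_neg, hin])
    rw [i1, show a + i - i = a by abel] at e2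
    rw [i2] at e1
    have e3 : (4 : ℚ) • w i = 0 := by
      have f1 : (2 : ℚ) • w i = w (a + i) + w (a + i) - (2 : ℚ) • w a := by rw [e1]; abel
      have f2 : (2 : ℚ) • w i = w a + w a - (2 : ℚ) • w (a + i) := by rw [e2]; abel
      have f3 : (4 : ℚ) • w i = (2 : ℚ) • w i + (2 : ℚ) • w i := by module
      rw [f3]
      nth_rewrite 1 [f1]
      rw [f2]
      module
    exact (smul_eq_zero.mp e3).resolve_left (by norm_num)
  apply double_zero_all (h := w)
  intro a
  by_cases haa : π (a + a) = 0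
  · rw [h0 _ haa]
    by_cases ha : π a = 0
    · rw [h0 _ ha, smul_zero]
    · rw [htwo a ha haa, smul_zero]
  · exact sub_eq_zero.mp (hρ0 a haa)

end abs

section curve

open WeierstrassCurve.Affine

variable {F : Type*} [Field F] [DecidableEq F] {W W' : WeierstrassCurve.Affine F}

lemma ig_lg_prod {ι : Type*} (s : Finset ι) (f : ι → F) (h : ∀ i ∈ s, f i ≠ 0) :
    lg (∏ i ∈ s, f i) = ∑ i ∈ s, lg (f i) := by
  classical
  induction s using Finset.induction_on with
  | empty => rw [prod_empty, sum_empty, lg_one]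
  | insert a s ha ih =>
    rw [prod_insert ha, sum_insert ha, lg_mul (h a (mem_insert_self a s))
      (prod_ne_zero_iff.mpr fun i hi => h i (mem_insert_of_mem hi)),
      ih fun i hi => h i (mem_insert_of_mem hi)]

namespace Isog

variable (Φ : Isog W W') [Fintype Φ.hom.ker]

/-- the product formula for `x(φ b) - x(φ a)` -/
lemma prod_formula [IsAlgClosed F] [CharZero F] [W.IsElliptic] : ∃ p q : F, p ≠ 0 ∧ q ≠ 0 ∧
    ∀ a b : W.Point, Φ.hom a ≠ 0 → Φ.hom b ≠ 0 →
      dx (Φ.hom b) (Φ.hom a) * (q * ∏ i ∈ (univ : Finset Φ.hom.ker).erase 0, dx b (i : W.Point)) =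
        p * ∏ i : Φ.hom.ker, dx b (a + (i : W.Point)) := by
  obtain ⟨q, hq, hQ⟩ := Φ.fibQ
  refine ⟨Φ.P.leadingCoeff, q, Polynomial.leadingCoeff_ne_zero.mpr Φ.P_ne, hq, ?_⟩
  intro a b ha hb
  have hb0 := Φ.ne_zero_of hb
  have h := congrArg (Polynomial.eval (xc b)) (Φ.fib ha)
  have hQ' := congrArg (Polynomial.eval (xc b)) hQ
  unfold Kp at h
  simp only [Polynomial.eval_sub, Polynomial.eval_mul, Polynomial.eval_C, Polynomial.eval_prod,
    Polynomial.eval_X] at h hQ'
  have e1 : ∏ i ∈ (univ : Finset Φ.hom.ker).erase 0, dx b (i : W.Point) =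
      ∏ i ∈ (univ : Finset Φ.hom.ker).erase 0, (xc b - xc (i : W.Point)) := by
    refine prod_congr rfl fun i hi => ?_
    have hi0 : (i : W.Point) ≠ 0 := fun h => (mem_erase.mp hi).1 (Subtype.ext h)
    unfold dx
    rw [xv_of_ne hb0, xv_of_ne hi0, mul_one, one_mul]
  have e2 : ∏ i : Φ.hom.ker, dx b (a + (i : W.Point)) =
      ∏ i : Φ.hom.ker, (xc b - xc (a + (i : W.Point))) := by
    refine prod_congr rfl fun i _ => ?_
    have hi0 : a + (i : W.Point) ≠ 0 := Φ.ne_zero_of (by rw [Φ.hom_add]; exact ha)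
    unfold dx
    rw [xv_of_ne hb0, xv_of_ne hi0, mul_one, one_mul]
  have e3 : dx (Φ.hom b) (Φ.hom a) = xc (Φ.hom b) - xc (Φ.hom a) := by
    unfold dx
    rw [xv_of_ne hb, xv_of_ne ha, mul_one, one_mul]
  rw [e1, e2, e3, ← hQ', ← h, Φ.val b hb]
  ring

/-- **distribution relation of the units** under an isogeny -/
theorem g_dist [IsAlgClosed F] [CharZero F] [W.IsElliptic]
    {A : AddSubgroup W.Point} [Fintype A] {A' : AddSubgroup W'.Point}
    (h : A.map Φ.hom = A') (hA : Φ.hom.ker ≤ A) {g : A → FT F} (hg : IsSiegel A g)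
    {g' : A' → FT F} (hg' : IsSiegel A' g')
    {P : A} (hP : ∀ k : ℕ, 1 ≤ k → k ≤ 6 → Φ.res h (k • P) ≠ 0) :
    ∃ s e : FT F, ∀ a : A, ∑ i : Φ.hom.ker, g (a + AddSubgroup.inclusion hA i) =
      g' (Φ.res h a) + s + (if Φ.res h a = 0 then e else 0) := by
  classical
  obtain ⟨p, q, hp, hq, hpf⟩ := Φ.prod_formula
  obtain ⟨hg0, hge, hgr⟩ := hg
  obtain ⟨hg0', hge', hgr'⟩ := hg'
  set κ := AddSubgroup.inclusion hA with hκ
  set π := Φ.res h with hπ
  have hκπ : ∀ i, π (κ i) = 0 := fun i => Subtype.ext (AddMonoidHom.mem_ker.mp i.2)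
  have hcoe : ∀ a : A, (π a : W'.Point) = Φ.hom a := fun a => rfl
  have hne : ∀ a : A, π a ≠ 0 → Φ.hom (a : W.Point) ≠ 0 := fun a ha h' => ha (Subtype.ext h')
  have hker : ∀ a : A, π a = 0 → ∃ i, κ i = a := by
    intro a ha
    have : Φ.hom (a : W.Point) = 0 := congrArg Subtype.val ha
    exact ⟨⟨a, this⟩, Subtype.ext rfl⟩
  set G : A → FT F := fun a => ∑ i : Φ.hom.ker, g (a + κ i) with hG
  have Ginv : ∀ a b, π a = π b → G a = G b := by
    intro a b hab
    obtain ⟨j, hj⟩ := hker (a - b) (by rw [map_sub, hab, sub_self])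
    have : a = b + κ j := by rw [hj]; abel
    rw [hG]
    simp only
    rw [this, ← Equiv.sum_comp (Equiv.addLeft j) (fun i => g (b + κ i))]
    refine sum_congr rfl fun i _ => ?_
    rw [Equiv.coe_addLeft, map_add, add_assoc]
  have Geven : ∀ a, G (-a) = G a := by
    intro a
    rw [hG]
    simp only
    rw [← Equiv.sum_comp (Equiv.neg Φ.hom.ker) (fun i => g (a + κ i))]
    refine sum_congr rfl fun i _ => ?_
    rw [Equiv.neg_apply, map_neg, ← hge (a + -κ i)]
    congr 1; abel
  set m : ℚ := (Fintype.card Φ.hom.ker : ℚ) with hm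
  -- the relation
  have hrel : ∀ a b : A, π a ≠ 0 → π b ≠ 0 → π a ≠ π b → π a ≠ - π b →
      g' (π a + π b) + g' (π a - π b) - (2 : ℚ) • g' (π a) - (2 : ℚ) • g' (π b) =
      (lg p - lg q + (2 : ℚ) • G 0) + G (a + b) + G (a - b) - (2 : ℚ) • G a - (2 : ℚ) • G b := by
    intro a b ha hb hab hab'
    have n1 : dx (Φ.hom (b : W.Point)) (Φ.hom (a : W.Point)) ≠ 0 := by
      apply dx_ne
      · intro h'; exact hab (Subtype.ext h'.symm)
      · intro h'
        apply hab'
        apply Subtype.ext
        show Φ.hom (a : W.Point) = - Φ.hom (b : W.Point)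
        rw [h', neg_neg]
    have c1 : ∀ i : Φ.hom.ker, i ≠ 0 → b ≠ κ i ∧ b ≠ -κ i := by
      intro i hi
      constructor
      · intro h'; apply hb; rw [h', hκπ]
      · intro h'; apply hb; rw [h', map_neg, hκπ, neg_zero]
    have c2 : ∀ i : Φ.hom.ker, b ≠ a + κ i ∧ b ≠ -(a + κ i) := by
      intro i
      constructor
      · intro h'; apply hab; rw [h', map_add, hκπ, add_zero]
      · intro h'; apply hab'; rw [h', map_neg, map_add, hκπ, add_zero, neg_neg]
    have m1 : ∀ i ∈ (univ : Finset Φ.hom.ker).erase 0, dx (b : W.Point) (i : W.Point) ≠ 0 := by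
      intro i hi
      exact dxA_ne (b := κ i) (c1 i (mem_erase.mp hi).1).1 (c1 i (mem_erase.mp hi).1).2
    have m2 : ∀ i ∈ (univ : Finset Φ.hom.ker), dx (b : W.Point) ((a : W.Point) + (i : W.Point)) ≠ 0 := by
      intro i _
      exact dxA_ne (b := a + κ i) (c2 i).1 (c2 i).2
    have e := congrArg lg (hpf a b (hne a ha) (hne b hb))
    rw [lg_mul n1 (mul_ne_zero hq (prod_ne_zero_iff.mpr m1)), lg_mul hq (prod_ne_zero_iff.mpr m1),
      lg_mul hp (prod_ne_zero_iff.mpr m2), ig_lg_prod _ _ m1, ig_lg_prod _ _ m2] at e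
    have s1 : ∑ i ∈ (univ : Finset Φ.hom.ker).erase 0, lg (dx (b : W.Point) (i : W.Point)) =
        (2 : ℚ) • G b - (2 : ℚ) • (m • g b) - (2 : ℚ) • G 0 := by
      have t1 : ∀ i ∈ (univ : Finset Φ.hom.ker).erase 0, lg (dx (b : W.Point) (i : W.Point)) =
          g (b + κ i) + g (b - κ i) - (2 : ℚ) • g b - (2 : ℚ) • g (κ i) := by
        intro i hi
        exact hgr b (κ i) (c1 i (mem_erase.mp hi).1).1 (c1 i (mem_erase.mp hi).1).2
      rw [sum_congr rfl t1]
      have t2 : ∑ i ∈ (univ : Finset Φ.hom.ker).erase 0,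
          (g (b + κ i) + g (b - κ i) - (2 : ℚ) • g b - (2 : ℚ) • g (κ i)) =
          ∑ i : Φ.hom.ker, (g (b + κ i) + g (b - κ i) - (2 : ℚ) • g b - (2 : ℚ) • g (κ i)) := by
        rw [← add_sum_erase univ _ (mem_univ (0 : Φ.hom.ker)), map_zero, add_zero, sub_zero, hg0]
        have : g b + g b - (2 : ℚ) • g b - (2 : ℚ) • (0 : FT F) = 0 := by module
        rw [this, zero_add]
      rw [t2]
      simp only [sum_sub_distrib, sum_add_distrib, sum_const, card_univ]
      have t3 : ∑ i : Φ.hom.ker, g (b - κ i) = G b := by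
        rw [← Equiv.sum_comp (Equiv.neg Φ.hom.ker)]
        refine sum_congr rfl fun i _ => ?_
        rw [Equiv.neg_apply, map_neg, sub_neg_eq_add]
      have t4 : ∑ i : Φ.hom.ker, (2 : ℚ) • g (κ i) = (2 : ℚ) • G 0 := by
        rw [← smul_sum, hG]
        simp only [zero_add]
      rw [t3, t4, ← Nat.cast_smul_eq_nsmul ℚ, ← hm]
      have t5 : ∑ i : Φ.hom.ker, g (b + κ i) = G b := rfl
      rw [t5]
      module
    have s2 : ∑ i : Φ.hom.ker, lg (dx (b : W.Point) ((a : W.Point) + (i : W.Point))) =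
        G (a + b) + G (a - b) - (2 : ℚ) • (m • g b) - (2 : ℚ) • G a := by
      have t1 : ∀ i : Φ.hom.ker, lg (dx (b : W.Point) ((a : W.Point) + (i : W.Point))) =
          g (b + (a + κ i)) + g (b - (a + κ i)) - (2 : ℚ) • g b - (2 : ℚ) • g (a + κ i) := by
        intro i
        exact hgr b (a + κ i) (c2 i).1 (c2 i).2
      simp only [t1, sum_sub_distrib, sum_add_distrib, sum_const, card_univ]
      have t2 : ∑ i : Φ.hom.ker, g (b + (a + κ i)) = G (a + b) := by
        refine sum_congr rfl fun i _ => ?_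
        congr 1; abel
      have t3 : ∑ i : Φ.hom.ker, g (b - (a + κ i)) = G (a - b) := by
        refine sum_congr rfl fun i _ => ?_
        rw [← hge]
        congr 1; abel
      have t4 : ∑ i : Φ.hom.ker, (2 : ℚ) • g (a + κ i) = (2 : ℚ) • G a := by
        rw [← smul_sum]
      rw [t2, t3, t4, ← Nat.cast_smul_eq_nsmul ℚ, ← hm]
      module
    rw [s1, s2] at e
    have e' : lg (dx (Φ.hom (b : W.Point)) (Φ.hom (a : W.Point))) =
        g' (π a + π b) + g' (π a - π b) - (2 : ℚ) • g' (π a) - (2 : ℚ) • g' (π b) := by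
      have n2 : π b ≠ π a := fun h' => hab h'.symm
      have n3 : π b ≠ - π a := fun h' => hab' (by rw [h', neg_neg])
      have := hgr' (π b) (π a) n2 n3
      rw [hcoe, hcoe] at this
      rw [this, add_comm (π b) (π a), ← hge' (π b - π a), neg_sub]
      abel
    rw [← e']
    have e2 : lg (dx (Φ.hom (b : W.Point)) (Φ.hom (a : W.Point))) =
        (lg p + (G (a + b) + G (a - b) - (2 : ℚ) • (m • g b) - (2 : ℚ) • G a)) -
        (lg q + ((2 : ℚ) • G b - (2 : ℚ) • (m • g b) - (2 : ℚ) • G 0)) := by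
      rw [← e]; abel
    rw [e2]
    module
  set K : FT F := (1 / 2 : ℚ) • (lg p - lg q + (2 : ℚ) • G 0) with hK
  have hK2 : lg p - lg q + (2 : ℚ) • G 0 = (2 : ℚ) • K := by
    rw [hK, smul_smul]; norm_num
  have hw := quad_zero π (w := fun a => if π a = 0 then (0 : FT F) else G a - g' (π a) - K)
    (by intro a ha; simp only [if_pos ha])
    (by
      intro a b hab
      simp only [hab, Ginv a b hab])
    (by
      intro a b ha hb hab hab'
      have h1 : π (a + b) ≠ 0 := by
        rw [map_add]; exact fun h' => hab' (eq_neg_of_add_eq_zero_left h')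
      have h2 : π (a - b) ≠ 0 := by
        rw [map_sub]; exact fun h' => hab (sub_eq_zero.mp h')
      simp only [if_neg ha, if_neg hb, if_neg h1, if_neg h2]
      have e := hrel a b ha hb hab hab'
      rw [hK2] at e
      rw [map_add, map_sub]
      have e2 : g' (π a + π b) + g' (π a - π b) = (2 : ℚ) • g' (π a) + (2 : ℚ) • g' (π b) +
          ((2 : ℚ) • K + G (a + b) + G (a - b) - (2 : ℚ) • G a - (2 : ℚ) • G b) := by
        rw [← e]; abel
      have e3 : G (a + b) - g' (π a + π b) - K + (G (a - b) - g' (π a - π b) - K) =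
          G (a + b) + G (a - b) - (2 : ℚ) • K - (g' (π a + π b) + g' (π a - π b)) := by module
      rw [e3, e2]
      module) hP
  refine ⟨K, G 0 - K, fun a => ?_⟩
  by_cases ha : π a = 0
  · rw [if_pos ha, ha, hg0']
    have : G a = G 0 := Ginv a 0 (by rw [ha, map_zero])
    show G a = _
    rw [this]
    abel
  · rw [if_neg ha, add_zero]
    have := hw a
    simp only [if_neg ha] at this
    show G a = _
    have e : G a = (G a - g' (π a) - K) + (g' (π a) + K) := by abel
    rw [e, this, zero_add]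

end Isog

end curve

end K4M
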