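import Pool.Agent.Lib_helper76.K4M.IsogT
import Pool.Agent.Lib_helper24.K4D2.Full

/-!
K4M, target 2: the Hecke relation in its isogeny form,
`∑_C ξ_{E/C}(φ_C a, φ_C b) = ∑_M ξ_E((a,b)M)` in `H(F)` modulo `Dec F`.
-/

set_option autoImplicit false
set_option linter.unusedSectionVars false

open Finset

namespace K4M

open WeierstrassCurve.Affine Pool.Agent.K4D2

variable {F : Type*} [Field F] [DecidableEq F] [IsAlgClosed F] [CharZero F]
  {W W' : WeierstrassCurve.Affine F} [W.IsElliptic]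

/-- (D1) for an isogeny in `H(F)` modulo `Dec F` -/
theorem Isog.D1_mod (Φ : Isog W W') [Fintype Φ.hom.ker] [∀ n : ℕ, Fintype (tor (TP W) (n + 1))]
    [∀ n : ℕ, Fintype (tor (TP W') (n + 1))] (hT : TD (TP W)) (hT' : TD (TP W'))
    (h2 : ∀ P : W.Point, ∃ Q, Q + Q = P) (h2' : ∀ P : W'.Point, ∃ Q, Q + Q = P)
    {t : TP W → TP W → B2 F} (ht : Pool.Agent.K4ParP.IsT t)
    (hC : ∀ P a b c d, fT h2 P a b c d = Pool.Agent.K4ParP.CR t P a b c d)
    {t' : TP W' → TP W' → B2 F} (ht' : Pool.Agent.K4ParP.IsT t')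
    (hC' : ∀ P a b c d, fT h2' P a b c d = Pool.Agent.K4ParP.CR t' P a b c d)
    (a b : TP W) :
    ∑ i ∈ Φ.kerT, ∑ j ∈ Φ.kerT, xq t gT (a + i) (b + j) =
      (Fintype.card Φ.hom.ker : ℚ)⁻¹ • xq t' gT (Φ.homT a) (Φ.homT b) := by
  apply hq_inj
  rw [map_smul, map_sum]
  have e1 : ∀ x : TP W, hq F (∑ j ∈ Φ.kerT, xq t gT x (b + j)) =
      ∑ j ∈ Φ.kerT, Pool.Agent.K4ParP.xi (mm F) (Pool.Agent.K4D2.tt (wg F) gT) gT x (b + j) := by
    intro x
    rw [map_sum]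
    exact Finset.sum_congr rfl fun j _ => hq_xq (de_t h2 (TD.half hT) ht hC) _ _
  simp only [e1]
  rw [hq_xq (de_t h2' (TD.half hT') ht' hC')]
  exact Φ.D1T_om hT hT' mm_rel a b

/-- **The Hecke relation modulo `Dec F`, isogeny form.** -/
theorem hecke_isog [∀ n : ℕ, Fintype (tor (TP W) (n + 1))] (hT : TD (TP W))
    (h2 : ∀ P : W.Point, ∃ Q, Q + Q = P)
    {t : TP W → TP W → B2 F} (ht : Pool.Agent.K4ParP.IsT t)
    (hC : ∀ P a b c d, fT h2 P a b c d = Pool.Agent.K4ParP.CR t P a b c d)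
    {l : ℕ} (hl : l.Prime)
    {W' : Pool.Agent.K4TL.subs (TF (TP W)) l → WeierstrassCurve.Affine F}
    (Φ : ∀ C, Isog W (W' C)) (hker : ∀ C (x : TP W), (Φ C).homT x = 0 ↔ x ∈ C.1)
    [∀ C, ∀ n : ℕ, Fintype (tor (TP (W' C)) (n + 1))] (hT' : ∀ C, TD (TP (W' C)))
    (h2' : ∀ C, ∀ P : (W' C).Point, ∃ Q, Q + Q = P)
    {t' : ∀ C, TP (W' C) → TP (W' C) → B2 F} (ht' : ∀ C, Pool.Agent.K4ParP.IsT (t' C))
    (hC' : ∀ C P a b c d, fT (h2' C) P a b c d = Pool.Agent.K4ParP.CR (t' C) P a b c d)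
    (x y : TP W) :
    ∑ C, xq (t' C) gT ((Φ C).homT x) ((Φ C).homT y) =
      ∑ M ∈ Pool.Agent.K4TL.XX l,
        xq t gT (M.1 • x + M.2.1 • y) (M.2.2.1 • x + M.2.2.2 • y) := by
  classical
  rw [← hecke_full hT h2 ht hC hl x y, Finset.smul_sum,
    ← Finset.sum_coe_sort (Pool.Agent.K4TL.subs (TF (TP W)) l)]
  refine Finset.sum_congr rfl fun C _ => ?_
  have : Fintype (Φ C).hom.ker := Fintype.ofFinite _
  have hcard : Nat.card C.1 = l :=
    (@Pool.Agent.K4TL.mem_subs _ _ (TF (TP W)) l ⟨hl⟩ (isTors_TF hT) C.1).mp C.2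
  have hl0 : (l : ℚ) ≠ 0 := Nat.cast_ne_zero.mpr hl.ne_zero
  have hel : Pool.Agent.K4TL.el (TF (TP W)) l C.1 = (Φ C).kerT := by
    ext z
    rw [(Φ C).mem_kerT, hker]
    unfold Pool.Agent.K4TL.el
    rw [Finset.mem_filter, mem_TF hl.pos]
    constructor
    · exact fun h => h.2
    · intro h
      refine ⟨?_, h⟩
      have h1 : (Nat.card C.1) • (⟨z, h⟩ : C.1) = 0 := card_nsmul_eq_zero'
      rw [hcard] at h1
      exact congrArg Subtype.val h1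
  have hc : Fintype.card (Φ C).hom.ker = l := by
    rw [← (Φ C).card_kerT, ← hcard]
    exact (Nat.subtype_card (Φ C).kerT fun x => ((Φ C).mem_kerT x).trans (hker C x)).symm
  rw [hel, (Φ C).D1_mod hT (hT' C) h2 (h2' C) ht hC (ht' C) (hC' C), hc, smul_smul,
    mul_inv_cancel₀ hl0, one_smul]

end K4M
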