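import Pool.Agent.Lib_helper76.K4M.IsogClosed
import Pool.Agent.Lib_helper66.K4M.G0b

/-!
K4M: multiplication by `k` as an isogeny.
-/

set_option autoImplicit false
set_option linter.unusedSectionVars false

open Finset Polynomial

namespace K4M

open WeierstrassCurve.Affine Pool.Agent.K4D2

variable {F : Type*} [Field F] [DecidableEq F] [CharZero F] [IsAlgClosed F]
  {W : WeierstrassCurve.Affine F}

/-- multiplication by `k` as an isogeny -/
noncomputable def Isog.mulN (hΔ : W.Δ ≠ 0) (k : ℕ) (hk : k ≠ 0) : Isog W W where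
  hom := nsmulAddMonoidHom k
  fin := by
    have h := card_tors hΔ hk
    have : Nat.card (nsmulAddMonoidHom (α := W.Point) k).ker = k ^ 2 := by
      rw [← h]; exact Nat.card_congr (Equiv.refl _)
    exact Nat.finite_of_card_ne_zero (by rw [this]; positivity)
  P := WeierstrassCurve.Φ W (k : ℤ)
  Q := WeierstrassCurve.ΨSq W (k : ℤ)
  cop := by
    rw [Polynomial.isCoprime_iff_aeval_ne_zero_of_isAlgClosed F F]
    intro x
    by_contra hcon
    push Not at hcon
    refine no_common hΔ k x ?_ ?_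
    · simpa using hcon.1
    · simpa using hcon.2
  degP := by
    have h := card_tors hΔ hk
    have : Nat.card (nsmulAddMonoidHom (α := W.Point) k).ker = k ^ 2 := by
      rw [← h]; exact Nat.card_congr (Equiv.refl _)
    rw [this, WeierstrassCurve.natDegree_Φ, Int.natAbs_natCast]
  degQ := by
    have h := card_tors hΔ hk
    have : Nat.card (nsmulAddMonoidHom (α := W.Point) k).ker = k ^ 2 := by
      rw [← h]; exact Nat.card_congr (Equiv.refl _)
    rw [this]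
    refine lt_of_le_of_lt (WeierstrassCurve.natDegree_ΨSq_le W (k : ℤ)) ?_
    rw [Int.natAbs_natCast]
    have : 0 < k ^ 2 := by positivity
    omega
  val_zero := by
    intro a ha h0
    obtain ⟨μ, -, -, e2⟩ := mul_x hΔ ha k
    have h1 : k • a = 0 := h0
    rw [e2, h1]
    show μ * (0 : F) = 0
    rw [mul_zero]
  val := by
    intro a h0
    have ha : a ≠ 0 := by
      rintro rfl
      exact h0 (map_zero _)
    obtain ⟨μ, -, e1, e2⟩ := mul_x hΔ ha k
    have h1 : k • a ≠ 0 := h0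
    rw [e1, e2]
    have hx : xv (k • a) = (xc (k • a), 1) := xv_of_ne h1
    show μ * (xv (k • a)).1 = xc (k • a) * (μ * (xv (k • a)).2)
    rw [hx]
    ring

lemma Isog.mulN_homT (hΔ : W.Δ ≠ 0) (k : ℕ) (hk : k ≠ 0) (a : TP W) :
    (Isog.mulN hΔ k hk).homT a = k • a := rfl

lemma Isog.mulN_mem_kerT (hΔ : W.Δ ≠ 0) (k : ℕ) (hk : k ≠ 0) [Fintype (Isog.mulN hΔ k hk).hom.ker]
    (x : TP W) : x ∈ (Isog.mulN hΔ k hk).kerT ↔ k • x = 0 :=
  (Isog.mulN hΔ k hk).mem_kerT x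

lemma Isog.mulN_card (hΔ : W.Δ ≠ 0) (k : ℕ) (hk : k ≠ 0) [Fintype (Isog.mulN hΔ k hk).hom.ker] :
    Fintype.card (Isog.mulN hΔ k hk).hom.ker = k ^ 2 := by
  rw [← Nat.card_eq_fintype_card, ← card_tors hΔ hk]
  exact Nat.card_congr (Equiv.refl _)

/-- **(dt) for multiplication by `k`, honest in `B₂(F)`** -/
theorem dt_mulN (hΔ : W.Δ ≠ 0) {t : TP W → TP W → B2 F} (ht : Pool.Agent.K4ParP.IsT t)
    (hC : ∀ P a b c d, fT (h2_closed hΔ) P a b c d = Pool.Agent.K4ParP.CR t P a b c d)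
    {k : ℕ} (hk : k ≠ 0) {K : Finset (TP W)} (hK : ∀ x, x ∈ K ↔ k • x = 0) (a b : TP W) :
    ∑ i ∈ K, ∑ j ∈ K, t (a + i) (b + j) = t (k • a) (k • b) := by
  have : Fintype (Isog.mulN hΔ k hk).hom.ker := Fintype.ofFinite _
  have hKK : K = (Isog.mulN hΔ k hk).kerT := by
    ext x; rw [hK, Isog.mulN_mem_kerT]
  rw [hKK]
  exact (Isog.mulN hΔ k hk).dt_closed hΔ hΔ ht hC ht hC a b

/-- **(D1) for multiplication by `k`, honest in `H(F)`** -/
theorem D1_mulN (hΔ : W.Δ ≠ 0) {t : TP W → TP W → B2 F} (ht : Pool.Agent.K4ParP.IsT t)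
    (hC : ∀ P a b c d, fT (h2_closed hΔ) P a b c d = Pool.Agent.K4ParP.CR t P a b c d)
    {k : ℕ} (hk : k ≠ 0) {K : Finset (TP W)} (hK : ∀ x, x ∈ K ↔ k • x = 0) (a b : TP W) :
    ∑ i ∈ K, ∑ j ∈ K, Pool.Agent.K4ParP.xi (hkL F) t gT (a + i) (b + j) =
      ((k : ℚ) ^ 2)⁻¹ • Pool.Agent.K4ParP.xi (hkL F) t gT (k • a) (k • b) := by
  have : Fintype (Isog.mulN hΔ k hk).hom.ker := Fintype.ofFinite _
  have hKK : K = (Isog.mulN hΔ k hk).kerT := by
    ext x; rw [hK, Isog.mulN_mem_kerT]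
  rw [hKK, (Isog.mulN hΔ k hk).D1_closed hΔ hΔ ht hC ht hC a b, Isog.mulN_card]
  push_cast
  rfl

end K4M
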