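import Pool.Agent.Lib_helper76.K4M.IsogG
import Pool.Agent.Lib_helper76.K4M.DtT
import Pool.Agent.Lib_helper86.K4.TGeo
import Pool.Agent.Lib_helper60.K4M.GT3

/-!
K4M: an isogeny on all torsion points: (dt), (dg), (D1).
-/

set_option autoImplicit false
set_option linter.unusedSectionVars false

open Finset

namespace K4M

open WeierstrassCurve.Affine Pool.Agent.K4ParP Pool.Agent.K4D2

variable {F : Type*} [Field F] [DecidableEq F] {W W' : WeierstrassCurve.Affine F}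

/-- an isogeny on the torsion points -/
def Isog.homT (Φ : Isog W W') : TP W →+ TP W' :=
  (Φ.hom.comp (TP W).subtype).codRestrict (TP W') fun a => by
    obtain ⟨n, hn, h⟩ := mem_TP.mp a.2
    rw [mem_TP]
    refine ⟨n, hn, ?_⟩
    show n • Φ.hom (a : W.Point) = 0
    rw [← map_nsmul, h, map_zero]

lemma Isog.homT_coe (Φ : Isog W W') (a : TP W) : ((Φ.homT a : TP W') : W'.Point) = Φ.hom a := rfl

instance Isog.finite_ker (Φ : Isog W W') : Finite Φ.hom.ker := Φ.fin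

/-- the kernel as a finite set of torsion points -/
noncomputable def Isog.kerT (Φ : Isog W W') [Fintype Φ.hom.ker] : Finset (TP W) := by
  classical
  exact Finset.image (fun i : Φ.hom.ker => (⟨(i : W.Point), le_TP Φ.hom.ker i.2⟩ : TP W)) univ

lemma Isog.mem_kerT (Φ : Isog W W') [Fintype Φ.hom.ker] (x : TP W) :
    x ∈ Φ.kerT ↔ Φ.homT x = 0 := by
  classical
  unfold Isog.kerT
  rw [Finset.mem_image]
  constructor
  · rintro ⟨i, -, rfl⟩
    exact Subtype.ext (AddMonoidHom.mem_ker.mp i.2)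
  · intro h
    exact ⟨⟨(x : W.Point), AddMonoidHom.mem_ker.mpr (congrArg Subtype.val h)⟩, Finset.mem_univ _, rfl⟩

lemma Isog.sum_kerT (Φ : Isog W W') [Fintype Φ.hom.ker] {M : Type*} [AddCommMonoid M]
    (f : TP W → M) :
    ∑ i ∈ Φ.kerT, f i = ∑ i : Φ.hom.ker, f ⟨(i : W.Point), le_TP Φ.hom.ker i.2⟩ := by
  classical
  unfold Isog.kerT
  rw [Finset.sum_image]
  intro i _ j _ h
  exact Subtype.ext (congrArg (fun z : TP W => (z : W.Point)) h)

lemma Isog.card_kerT (Φ : Isog W W') [Fintype Φ.hom.ker] :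
    Φ.kerT.card = Fintype.card Φ.hom.ker := by
  have := Φ.sum_kerT (fun _ => (1 : ℕ))
  simpa using this

/-- **(dt), honest in `B₂(F)`, on all torsion points** -/
theorem Isog.dtT [IsAlgClosed F] [CharZero F] [W.IsElliptic] (Φ : Isog W W')
    [Fintype Φ.hom.ker]
    (h2 : ∀ P : W.Point, ∃ Q, Q + Q = P) (h2' : ∀ P : W'.Point, ∃ Q, Q + Q = P)
    (hf : ∀ S : Finset (TP W), ∃ A : AddSubgroup (TP W), Finite A ∧ ∀ x ∈ S, x ∈ A)
    {t : TP W → TP W → B2 F} (ht : Pool.Agent.K4ParP.IsT t)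
    (hC : ∀ P a b c d : TP W, ff h2 (P : W.Point) a b c d = Pool.Agent.K4ParP.CR t P a b c d)
    {t' : TP W' → TP W' → B2 F} (ht' : Pool.Agent.K4ParP.IsT t')
    (hC' : ∀ P a b c d : TP W', ff h2' (P : W'.Point) a b c d = Pool.Agent.K4ParP.CR t' P a b c d)
    (a b : TP W) :
    ∑ i ∈ Φ.kerT, ∑ j ∈ Φ.kerT, t (a + i) (b + j) = t' (Φ.homT a) (Φ.homT b) := by
  refine dt_of_CR hf ht ht' Φ.mem_kerT ?_ a b
  intro P a b c d
  obtain ⟨R, hR⟩ := h2 (P : W.Point)
  have e1 : ff h2' ((Φ.homT P : TP W') : W'.Point) (Φ.homT a : TP W') (Φ.homT b : TP W')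
      (Φ.homT c : TP W') (Φ.homT d : TP W') =
      cr dx (Φ.hom ((a : W.Point) + R)) (Φ.hom ((b : W.Point) + R)) (Φ.hom ((c : W.Point) + R))
        (Φ.hom ((d : W.Point) + R)) := by
    have hR' : Φ.hom R + Φ.hom R = ((Φ.homT P : TP W') : W'.Point) := by
      rw [← map_add, hR]; rfl
    rw [ff_eq h2' hR']
    simp only [map_add]
    rfl
  have e2 : ∀ i j k l : Φ.hom.ker,
      Pool.Agent.K4ParP.CR t P (a + ⟨(i : W.Point), le_TP Φ.hom.ker i.2⟩)
        (b + ⟨(j : W.Point), le_TP Φ.hom.ker j.2⟩) (c + ⟨(k : W.Point), le_TP Φ.hom.ker k.2⟩)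
        (d + ⟨(l : W.Point), le_TP Φ.hom.ker l.2⟩) =
      cr dx ((a : W.Point) + R + (i : W.Point)) ((b : W.Point) + R + (j : W.Point))
        ((c : W.Point) + R + (k : W.Point)) ((d : W.Point) + R + (l : W.Point)) := by
    intro i j k l
    rw [← hC, ff_eq h2 hR]
    have : ∀ (x : TP W) (i : Φ.hom.ker), ((x + ⟨(i : W.Point), le_TP Φ.hom.ker i.2⟩ : TP W) : W.Point) + R =
        (x : W.Point) + R + (i : W.Point) := by
      intro x i
      rw [AddSubgroup.coe_add]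
      abel
    rw [this, this, this, this]
  rw [← hC', e1, Φ.card_kerT]
  have := Φ.cr_sum ((a : W.Point) + R) ((b : W.Point) + R) ((c : W.Point) + R) ((d : W.Point) + R)
  rw [← this]
  simp only [Φ.sum_kerT, e2]

section dg

lemma siegel_gT [CharZero F] (A : AddSubgroup W.Point) [Finite A] :
    IsSiegel A (fun a => gT ⟨(a : W.Point), le_TP A a.2⟩) :=
  ⟨(gT_isG4 A).zero, (gT_isG4 A).even, fun _ _ h h' => siegel_rel (gT_isG4 A) h h'⟩

variable [IsAlgClosed F] [CharZero F] [W.IsElliptic]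

lemma Isog.dg_level (Φ : Isog W W') [Fintype Φ.hom.ker] {P₀ : TP W}
    (hP₀ : ∀ k : ℕ, 1 ≤ k → k ≤ 6 → Φ.homT (k • P₀) ≠ 0) {n : ℕ} (hn : 0 < n)
    (hK : ∀ i : Φ.hom.ker, n • (i : W.Point) = 0) (hP : n • P₀ = 0) :
    ∃ s e : FT F, ∀ a : TP W, n • a = 0 → ∑ i ∈ Φ.kerT, gT (a + i) =
      gT (Φ.homT a) + s + if Φ.homT a = 0 then e else 0 := by
  classical
  have : Finite (torS W.Point n) := finite_torS n hn
  have : Fintype (torS W.Point n) := Fintype.ofFinite _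
  set A := torS W.Point n with hA
  have hA' : Finite (A.map Φ.hom) := by
    have : Function.Surjective
        (fun x : A => (⟨Φ.hom x, AddSubgroup.mem_map_of_mem Φ.hom x.2⟩ : A.map Φ.hom)) := by
      rintro ⟨y, hy⟩
      obtain ⟨x, hx, rfl⟩ := AddSubgroup.mem_map.mp hy
      exact ⟨⟨x, hx⟩, rfl⟩
    exact Finite.of_surjective _ this
  have : Fintype (A.map Φ.hom) := Fintype.ofFinite _
  have hKA : Φ.hom.ker ≤ A := fun x hx => mem_torS.mpr (hK ⟨x, hx⟩)
  have hP' : n • (P₀ : W.Point) = 0 := congrArg Subtype.val hP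
  obtain ⟨s, e, h⟩ := Φ.g_dist (A := A) (A' := A.map Φ.hom) rfl hKA (siegel_gT A)
    (siegel_gT (A.map Φ.hom)) (P := ⟨(P₀ : W.Point), mem_torS.mpr hP'⟩) (by
      intro k h1 h6 h0
      apply hP₀ k h1 h6
      apply Subtype.ext
      have := congrArg Subtype.val h0
      exact this)
  refine ⟨s, e, fun a ha => ?_⟩
  have ha' : n • (a : W.Point) = 0 := congrArg Subtype.val ha
  have := h ⟨(a : W.Point), mem_torS.mpr ha'⟩
  rw [Φ.sum_kerT]
  have e1 : (Φ.res (A := A) (A' := A.map Φ.hom) rfl ⟨(a : W.Point), mem_torS.mpr ha'⟩ = 0) ↔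
      (Φ.homT a = 0) := by
    rw [Subtype.ext_iff, Subtype.ext_iff]
    exact Iff.rfl
  simp only [e1] at this
  exact this

/-- **(dg) for the Siegel units of all torsion points under an isogeny** -/
theorem Isog.dgT (Φ : Isog W W') [Fintype Φ.hom.ker] {P₀ : TP W}
    (hP₀ : ∀ k : ℕ, 1 ≤ k → k ≤ 6 → Φ.homT (k • P₀) ≠ 0) :
    ∃ s e : FT F, DGh Φ.homT Φ.kerT gT gT s e := by
  obtain ⟨p, hp, hpP⟩ := TP_tor P₀
  set c := Fintype.card Φ.hom.ker with hc
  have hc0 : 0 < c := Fintype.card_pos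
  have hck : ∀ i : Φ.hom.ker, c • (i : W.Point) = 0 := by
    intro i
    have : c • i = 0 := card_nsmul_eq_zero
    have := congrArg Subtype.val this
    exact this
  have hn0 : 0 < p * c := Nat.mul_pos hp hc0
  obtain ⟨s, e, h⟩ := Φ.dg_level hP₀ hn0 (fun i => by rw [mul_smul, hck, smul_zero])
    (by rw [mul_comm, mul_smul, hpP, smul_zero])
  refine ⟨s, e, fun a => ?_⟩
  obtain ⟨q, hq, hqa⟩ := TP_tor a
  obtain ⟨s', e', h'⟩ := Φ.dg_level hP₀ (Nat.mul_pos hn0 hq)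
    (fun i => by rw [mul_comm, mul_smul, mul_smul, hck, smul_zero, smul_zero])
    (by rw [mul_comm p c, mul_assoc, mul_comm p q, ← mul_assoc, mul_smul, hpP, smul_zero])
  have hP1 : Φ.homT P₀ ≠ 0 := by
    have := hP₀ 1 le_rfl (by norm_num)
    rwa [one_smul] at this
  have e1 := h P₀ (by rw [mul_comm, mul_smul, hpP, smul_zero])
  have e2 := h' P₀ (by rw [mul_comm p c, mul_assoc, mul_comm p q, ← mul_assoc, mul_smul, hpP,
    smul_zero])
  rw [if_neg hP1] at e1 e2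
  have hs : s' = s := by
    rw [e1] at e2
    simpa using e2.symm
  have e3 := h 0 (smul_zero _)
  have e4 := h' 0 (smul_zero _)
  rw [map_zero, if_pos rfl] at e3 e4
  have he : e' = e := by
    rw [e3, hs] at e4
    simpa using e4.symm
  have e5 := h' a (by rw [mul_smul, hqa, smul_zero])
  rw [hs, he] at e5
  exact e5

end dg

lemma finset_TP [CharZero F] (S : Finset (TP W)) :
    ∃ A : AddSubgroup (TP W), Finite A ∧ ∀ x ∈ S, x ∈ A := by
  classical
  have hlev : ∀ s : Finset (TP W), ∃ n : ℕ, 0 < n ∧ ∀ x ∈ s, n • x = 0 := by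
    intro s
    induction s using Finset.induction_on with
    | empty => exact ⟨1, one_pos, by simp⟩
    | insert a s _ ih =>
      obtain ⟨n, hn, h⟩ := ih
      obtain ⟨m, hm, hm'⟩ := TP_tor a
      refine ⟨n * m, Nat.mul_pos hn hm, ?_⟩
      intro x hx
      rcases Finset.mem_insert.mp hx with rfl | hx
      · rw [mul_smul, hm', smul_zero]
      · rw [mul_comm, mul_smul, h x hx, smul_zero]
  obtain ⟨n, hn, h⟩ := hlev S
  exact ⟨torS (TP W) n, finite_torS' n hn, fun x hx => mem_torS.mpr (h x hx)⟩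

/-- a torsion point whose small multiples are outside the kernel -/
lemma Isog.exists_P₀ (Φ : Isog W W') [∀ n : ℕ, Fintype (tor (TP W) (n + 1))] (hT : TD (TP W)) :
    ∃ P₀ : TP W, ∀ k : ℕ, 1 ≤ k → k ≤ 6 → Φ.homT (k • P₀) ≠ 0 := by
  classical
  have : Fintype Φ.hom.ker := Fintype.ofFinite _
  set c := Fintype.card Φ.hom.ker with hc
  obtain ⟨l, hl, hlp⟩ := Nat.exists_infinite_primes (c + 7)
  obtain ⟨n, rfl⟩ : ∃ n, l = n + 1 := ⟨l - 1, by have := hlp.pos; omega⟩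
  have hcard := hT.card n
  have h1 : 1 < Fintype.card (tor (TP W) (n + 1)) := by
    rw [hcard]
    have : 2 ≤ n + 1 := hlp.two_le
    nlinarith
  obtain ⟨P, hP⟩ := Fintype.exists_ne_of_one_lt_card h1 0
  have hP' : (n + 1) • (P : TP W) = 0 := mem_tor.mp P.2
  have hP0 : (P : TP W) ≠ 0 := fun h => hP (Subtype.ext h)
  have hord : addOrderOf (P : TP W) = n + 1 := by
    rcases (Nat.dvd_prime hlp).mp (addOrderOf_dvd_of_nsmul_eq_zero hP') with h | h
    · exact absurd (AddMonoid.addOrderOf_eq_one_iff.mp h) hP0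
    · exact h
  refine ⟨P, fun k hk hk6 h0 => ?_⟩
  have hker : (k • (P : TP W) : TP W) ∈ Φ.kerT := (Φ.mem_kerT _).mpr h0
  -- multiplication by `c` kills the kernel
  have hck : c • (k • (P : TP W)) = 0 := by
    have hk' : Φ.hom ((k • (P : TP W) : TP W) : W.Point) = 0 := congrArg Subtype.val h0
    have h2 : c • (⟨((k • (P : TP W) : TP W) : W.Point), AddMonoidHom.mem_ker.mpr hk'⟩ : Φ.hom.ker) = 0 :=
      card_nsmul_eq_zero
    apply Subtype.ext
    have := congrArg Subtype.val h2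
    exact this
  rw [← mul_smul] at hck
  have hdvd : n + 1 ∣ c * k := by
    rw [← hord]; exact addOrderOf_dvd_of_nsmul_eq_zero hck
  have hc0 : 0 < c := Fintype.card_pos
  rcases (Nat.Prime.dvd_mul hlp).mp hdvd with h | h
  · have := Nat.le_of_dvd hc0 h
    omega
  · have := Nat.le_of_dvd (by omega) h
    omega

section main

variable [IsAlgClosed F] [CharZero F] [W.IsElliptic]
  {H : Type*} [AddCommGroup H] [Module ℚ H]

/-- **(D1) for an isogeny, honest in `H(F)` (any target `m`), on all torsion points** -/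
theorem Isog.D1T (Φ : Isog W W') [Fintype Φ.hom.ker] [∀ n : ℕ, Fintype (tor (TP W) (n + 1))]
    (hT : TD (TP W))
    (h2 : ∀ P : W.Point, ∃ Q, Q + Q = P) (h2' : ∀ P : W'.Point, ∃ Q, Q + Q = P)
    {m : B2 F →ₗ[ℚ] FT F →ₗ[ℚ] H}
    {t : TP W → TP W → B2 F} (ht : Pool.Agent.K4ParP.IsT t)
    (hC : ∀ P a b c d : TP W, ff h2 (P : W.Point) a b c d = Pool.Agent.K4ParP.CR t P a b c d)
    (hr : ∀ P, Pool.Agent.K4ParP.Rel m t gT P)
    {t' : TP W' → TP W' → B2 F} (ht' : Pool.Agent.K4ParP.IsT t')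
    (hC' : ∀ P a b c d : TP W', ff h2' (P : W'.Point) a b c d = Pool.Agent.K4ParP.CR t' P a b c d)
    (hr' : ∀ P, Pool.Agent.K4ParP.Rel m t' gT P)
    (a b : TP W) :
    ∑ i ∈ Φ.kerT, ∑ j ∈ Φ.kerT, Pool.Agent.K4ParP.xi m t gT (a + i) (b + j) =
      (Fintype.card Φ.hom.ker : ℚ)⁻¹ •
        Pool.Agent.K4ParP.xi m t' gT (Φ.homT a) (Φ.homT b) := by
  obtain ⟨P₀, hP₀⟩ := Φ.exists_P₀ hT
  obtain ⟨s, e, hd⟩ := Φ.dgT hP₀
  rw [← Φ.card_kerT]
  exact D1_homT finset_TP ht (fun a => gT_neg a) hr ht' (fun a => gT_neg a) hr' Φ.mem_kerT hd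
    (Φ.dtT h2 h2' finset_TP ht hC ht' hC') a b

/-- (D1) for an isogeny, for `t = om w g` (the version modulo decomposable elements) -/
theorem Isog.D1T_om (Φ : Isog W W') [Fintype Φ.hom.ker] [∀ n : ℕ, Fintype (tor (TP W) (n + 1))]
    [∀ n : ℕ, Fintype (tor (TP W') (n + 1))]
    (hT : TD (TP W)) (hT' : TD (TP W'))
    {m : EA F →ₗ[ℚ] FT F →ₗ[ℚ] H}
    (hm : ∀ f : F, f ≠ 0 → f ≠ 1 → m (wg F (lg (1 - f)) (lg f)) (lg f) = 0)
    (a b : TP W) :
    ∑ i ∈ Φ.kerT, ∑ j ∈ Φ.kerT,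
      Pool.Agent.K4ParP.xi m (Pool.Agent.K4D2.tt (wg F) gT) gT (a + i) (b + j) =
      (Fintype.card Φ.hom.ker : ℚ)⁻¹ •
        Pool.Agent.K4ParP.xi m (Pool.Agent.K4D2.tt (wg F) gT) gT (Φ.homT a) (Φ.homT b) := by
  obtain ⟨P₀, hP₀⟩ := Φ.exists_P₀ hT
  obtain ⟨s, e, hd⟩ := Φ.dgT hP₀
  rw [← Φ.card_kerT]
  exact D1_homT finset_TP (Pool.Agent.K4D2.tt_isT wg_self fun a => gT_neg a)
    (fun a => gT_neg a) (fun P => rel_gT hm P (TD.half hT P))
    (Pool.Agent.K4D2.tt_isT wg_self fun a => gT_neg a) (fun a => gT_neg a)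
    (fun P => rel_gT hm P (TD.half hT' P)) Φ.mem_kerT hd
    (dt_hom wg_self (fun a => gT_neg a) Φ.mem_kerT hd) a b

end main

end K4M
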