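import Pool.Agent.Lib_helper76.K4M.Fibre

/-!
The reciprocity formula: for `f = a ∏ [t, α] / (c ∏ [t, β])` with `1 - f = b ∏ [t, γ] / (c ∏ [t, β])`
on the projective line over an algebraically closed field,
`∑ {α, γ, t, t'} + ∑ {γ, β, t, t'} + ∑ {β, α, t, t'} = {f(t')} - {f(t)}`.
-/

set_option autoImplicit false
set_option linter.unusedSectionVars false

open Polynomial

namespace K4M

section

variable {F : Type*} [Field F]

/-- `∑_{b ∈ M} {a, b, t, t'}` -/
noncomputable def c1 (t t' : NV F) (a : NV F) (M : Multiset (NV F)) : B2 F :=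
  (M.map fun b => cr brV a b t t').sum

/-- `∑_{a ∈ L, b ∈ M} {a, b, t, t'}` -/
noncomputable def cs (t t' : NV F) (L M : Multiset (NV F)) : B2 F := (L.map fun a => c1 t t' a M).sum

variable {t t' : NV F}

lemma cs_cons_left (a : NV F) (L M : Multiset (NV F)) :
    cs t t' (a ::ₘ L) M = c1 t t' a M + cs t t' L M := by
  unfold cs; rw [Multiset.map_cons, Multiset.sum_cons]

lemma c1_cons (a b : NV F) (M : Multiset (NV F)) :
    c1 t t' a (b ::ₘ M) = cr brV a b t t' + c1 t t' a M := by
  unfold c1; rw [Multiset.map_cons, Multiset.sum_cons]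

lemma c1_par {a a' : NV F} (h : brV a a' = 0) (M : Multiset (NV F)) :
    c1 t t' a M = c1 t t' a' M := by
  unfold c1
  congr 1
  refine Multiset.map_congr rfl fun b _ => ?_
  exact cr_congr_a brV_nbracket h b t t'

lemma cs_anti [Infinite F] (L M : Multiset (NV F)) : cs t t' M L = - cs t t' L M := by
  have e : ∀ a : NV F, (M.map fun b => cr brV b a t t').sum = - c1 t t' a M := by
    intro a
    unfold c1
    rw [← Multiset.sum_map_neg]
    congr 1
    refine Multiset.map_congr rfl fun b _ => ?_
    exact cr_swap_ab brV_nbracket.toBracket _ _ _ _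
  unfold cs
  rw [← Multiset.sum_map_neg]
  unfold c1
  rw [Multiset.sum_map_sum_map]
  congr 1
  refine Multiset.map_congr rfl fun a _ => ?_
  exact e a

lemma cs_cons_right [Infinite F] (b : NV F) (L M : Multiset (NV F)) :
    cs t t' L (b ::ₘ M) = cs t t' L M - c1 t t' b L := by
  rw [cs_anti, cs_cons_left, cs_anti L M]; abel

/-- the cyclic sum over zeros, ones, poles -/
noncomputable def S3 (t t' : NV F) (La Lb Lc : Multiset (NV F)) : B2 F :=
  cs t t' La Lb + cs t t' Lb Lc + cs t t' Lc La

/-- the case of degree one -/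
lemma S_deg1 [Infinite F] {α β γ : NV F} (h2 : brV γ α ≠ 0) (t t' : NV F) : cr brV α γ t t' + cr brV γ β t t' + cr brV β α t t' =
      sy (brV t' α * brV γ β / (brV t' β * brV γ α)) - sy (brV t α * brV γ β / (brV t β * brV γ α)) := by
  have hN := brV_nbracket (F := F)
  have hB := hN.toBracket
  have key := coc_eq_zero hN α β γ t t'
  have e : ∀ s : NV F, sy (brV s α * brV γ β / (brV s β * brV γ α)) = - cr brV α β γ s := by
    intro s
    rcases eq_or_ne (brV s β) 0 with h0 | h0
    · rw [h0, zero_mul, div_zero, sy_zero, cr_zero_bd, neg_zero]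
      rw [hN.anti s β, h0, neg_zero]
    · rw [← neg_neg (sy _), ← sy_compl]
      congr 1
      unfold cr
      congr 1
      rw [hB.anti γ α, hB.anti s β, hB.anti s γ, one_sub_div (mul_ne_zero h0 h2),
        div_eq_div_iff (mul_ne_zero h0 h2) (by
          rw [neg_mul_neg]; exact mul_ne_zero h2 h0)]
      have hp := hB.pl s α β γ
      rw [hB.anti γ β, hB.anti γ α] at hp
      linear_combination (brV s β * brV γ α) * hp
  rw [e, e]
  unfold coc at key
  have e1 : cr brV γ β t t' = - cr brV β γ t t' := cr_swap_ab hB β γ t t'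
  have e2 : cr brV β α t t' = - cr brV α β t t' := cr_swap_ab hB α β t t'
  rw [e1, e2]
  have : cr brV α γ t t' + -cr brV β γ t t' + -cr brV α β t t' =
    -(cr brV β γ t t' - cr brV α γ t t' + cr brV α β t t' - cr brV α β γ t' + cr brV α β γ t)
    - cr brV α β γ t' + cr brV α β γ t := by abel
  rw [this, key]
  abel

/-- the Plücker relation for linear forms -/
lemma lin_pl (α β γ : NV F) :
    C (brV γ β) * lin α - C (brV γ α) * lin β = C (brV α β) * lin γ := by
  unfold lin brV br
  simp only [C_sub, C_mul]
  ring

/-- removing a common factor -/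
lemma S3_common [Infinite F] {α β γ : NV F} (h1 : brV α β = 0) (h2 : brV α γ = 0)
    (A G B : Multiset (NV F)) :
    S3 t t' (α ::ₘ A) (γ ::ₘ G) (β ::ₘ B) = S3 t t' A G B := by
  have hN := brV_nbracket (F := F)
  have hγβ : brV γ β = 0 := hN.trans _ _ _ (hN.symm0 h2) h1
  unfold S3
  rw [cs_cons_left, cs_cons_left, cs_cons_left, cs_cons_right, cs_cons_right, cs_cons_right,
    c1_cons, c1_cons, c1_cons, cr_zero_ab _ _ _ _ h2, cr_zero_ab _ _ _ _ hγβ,
    cr_zero_ab _ _ _ _ (hN.symm0 h1), ← c1_par h1, ← c1_par h2, ← c1_par h1, ← c1_par h2]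
  abel

theorem S3_eq [IsAlgClosed F] (n : ℕ) : ∀ (La Lb Lc : Multiset (NV F)), Multiset.card La = n →
    Multiset.card Lb = n → Multiset.card Lc = n → ∀ (a b c : F), a ≠ 0 → b ≠ 0 → c ≠ 0 →
    C a * pr La + C b * pr Lb = C c * pr Lc → ∀ t t' : NV F, (ev La t ≠ 0 ∨ ev Lc t ≠ 0) →
    (ev La t' ≠ 0 ∨ ev Lc t' ≠ 0) →
    S3 t t' La Lb Lc = sy (a * ev La t' / (c * ev Lc t')) - sy (a * ev La t / (c * ev Lc t)) := by
  have hinf : Infinite F := IsAlgClosed.instInfinite
  have hN := brV_nbracket (F := F)
  have hB := hN.toBracket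
  induction n with
  | zero =>
    intro La Lb Lc hLa hLb hLc a b c ha hb hc h t t' ht ht'
    rw [Multiset.card_eq_zero] at hLa hLb hLc
    subst hLa hLb hLc
    rw [ev_zero, ev_zero, sub_self]
    unfold S3 cs
    simp
  | succ m ih =>
    intro La Lb Lc hLa hLb hLc a b c ha hb hc h t t' ht ht'
    have hom := hom3 hLa hLb hLc h
    by_cases hcom : ∃ α ∈ La, ∃ β ∈ Lc, brV α β = 0
    · -- a common factor
      obtain ⟨α, hα, β, hβ, hαβ⟩ := hcom
      have h1 : ev La α = 0 := ev_eq_zero.mpr ⟨α, hα, brV_self α⟩
      have h2 : ev Lc α = 0 := ev_eq_zero.mpr ⟨β, hβ, hαβ⟩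
      have h3 : ev Lb α = 0 := by
        have := hom α
        rw [h1, h2, mul_zero, mul_zero, zero_add] at this
        exact (mul_eq_zero.mp this).resolve_left hb
      obtain ⟨γ, hγ, hαγ⟩ := ev_eq_zero.mp h3
      obtain ⟨A, rfl⟩ := Multiset.exists_cons_of_mem hα
      obtain ⟨B, rfl⟩ := Multiset.exists_cons_of_mem hβ
      obtain ⟨G, rfl⟩ := Multiset.exists_cons_of_mem hγ
      rw [Multiset.card_cons] at hLa hLb hLc
      rw [S3_common hαβ hαγ]
      obtain ⟨k, hk, ek, ek'⟩ := lin_par hαβ
      obtain ⟨l, hl, el, el'⟩ := lin_par hαγ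
      have hne : ∀ s : NV F, (ev (α ::ₘ A) s ≠ 0 ∨ ev (β ::ₘ B) s ≠ 0) → brV s α ≠ 0 ∧
          (ev A s ≠ 0 ∨ ev B s ≠ 0) := by
        intro s hs
        rw [ev_cons, ev_cons, ek'] at hs
        refine ⟨?_, ?_⟩
        · intro h0
          rw [h0] at hs
          rcases hs with hs | hs
          · exact hs (zero_mul _)
          · exact hs (by rw [mul_zero, zero_mul])
        · rcases hs with hs | hs
          · left; exact fun h0 => hs (by rw [h0, mul_zero])
          · right; exact fun h0 => hs (by rw [h0, mul_zero])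
      have hpoly : C a * pr A + C (b * l) * pr G = C (c * k) * pr B := by
        apply mul_left_cancel₀ (lin_ne α)
        rw [pr_cons, pr_cons, pr_cons, ek, el] at h
        rw [C_mul, C_mul]
        linear_combination h
      rw [ih A G B (by omega) (by omega) (by omega) a (b * l) (c * k) ha (mul_ne_zero hb hl)
        (mul_ne_zero hc hk) hpoly t t' (hne t ht).2 (hne t' ht').2]
      have hval : ∀ s : NV F, brV s α ≠ 0 →
          a * ev A s / (c * k * ev B s) = a * ev (α ::ₘ A) s / (c * ev (β ::ₘ B) s) := by
        intro s hs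
        rw [ev_cons, ev_cons, ek']
        rw [show a * (brV s α * ev A s) = brV s α * (a * ev A s) by ring,
          show c * (k * brV s α * ev B s) = brV s α * (c * k * ev B s) by ring,
          mul_div_mul_left _ _ hs]
      rw [hval t (hne t ht).1, hval t' (hne t' ht').1]
    · -- no common factor
      have hac : ∀ s : NV F, ev La s ≠ 0 ∨ ev Lc s ≠ 0 := by
        intro s
        by_contra h0
        push Not at h0
        obtain ⟨α, hα, h1⟩ := ev_eq_zero.mp h0.1
        obtain ⟨β, hβ, h2⟩ := ev_eq_zero.mp h0.2
        exact hcom ⟨α, hα, β, hβ, hN.trans _ _ _ (hN.symm0 h1) h2⟩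
      have hab : ∀ s : NV F, ev La s ≠ 0 ∨ ev Lb s ≠ 0 := by
        intro s
        by_contra h0
        push Not at h0
        have := hom s
        rw [h0.1, h0.2, mul_zero, mul_zero, zero_add] at this
        rcases hac s with h1 | h1
        · exact h1 h0.1
        · exact h1 ((mul_eq_zero.mp this.symm).resolve_left hc)
      have hcb : ∀ s : NV F, ev Lc s ≠ 0 ∨ ev Lb s ≠ 0 := by
        intro s
        by_contra h0
        push Not at h0
        have := hom s
        rw [h0.1, h0.2, mul_zero, mul_zero, add_zero] at this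
        rcases hac s with h1 | h1
        · exact h1 ((mul_eq_zero.mp this).resolve_left ha)
        · exact h1 h0.1
      obtain ⟨α, hα⟩ := Multiset.card_pos_iff_exists_mem.mp (by omega : 0 < Multiset.card La)
      obtain ⟨β, hβ⟩ := Multiset.card_pos_iff_exists_mem.mp (by omega : 0 < Multiset.card Lc)
      obtain ⟨γ, hγ⟩ := Multiset.card_pos_iff_exists_mem.mp (by omega : 0 < Multiset.card Lb)
      obtain ⟨A, rfl⟩ := Multiset.exists_cons_of_mem hα
      obtain ⟨B, rfl⟩ := Multiset.exists_cons_of_mem hβ
      obtain ⟨G, rfl⟩ := Multiset.exists_cons_of_mem hγ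
      rw [Multiset.card_cons] at hLa hLb hLc
      have hA : Multiset.card A = m := by omega
      have hBc : Multiset.card B = m := by omega
      have hG : Multiset.card G = m := by omega
      have hw : brV α β ≠ 0 := fun h0 => hcom ⟨α, hα, β, hβ, h0⟩
      have hv : brV γ α ≠ 0 := by
        intro h0
        rcases hab γ with h1 | h1
        · exact h1 (ev_eq_zero.mpr ⟨α, hα, h0⟩)
        · exact h1 (ev_eq_zero.mpr ⟨γ, hγ, brV_self γ⟩)
      have hu : brV γ β ≠ 0 := by
        intro h0
        rcases hcb γ with h1 | h1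
        · exact h1 (ev_eq_zero.mpr ⟨β, hβ, h0⟩)
        · exact h1 (ev_eq_zero.mpr ⟨γ, hγ, brV_self γ⟩)
      set u := brV γ β with hu'
      set v := brV γ α with hv'
      set w := brV α β with hw'
      have hpl : C u * lin α - C v * lin β = C w * lin γ := lin_pl α β γ
      have hmain := h
      rw [pr_cons, pr_cons, pr_cons] at hmain
      have hSx := S_deg1 (β := β) hv t t'
      by_cases hD : C (c * u) * pr B - C (a * v) * pr A = 0
      · -- degree one
        have hA0 : A = 0 := by
          by_contra hA0
          obtain ⟨δ, hδ⟩ := Multiset.exists_mem_of_ne_zero hA0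
          have h1 : ev A δ = 0 := ev_eq_zero.mpr ⟨δ, hδ, brV_self δ⟩
          have h2 : C (a * v) * pr A + C 0 * pr A = C (c * u) * pr B := by
            rw [C_0, zero_mul, add_zero]
            linear_combination -hD
          have h3 := hom3 hA hA hBc h2 δ
          rw [h1, mul_zero, mul_zero, add_zero] at h3
          have h4 := (mul_eq_zero.mp h3.symm).resolve_left (mul_ne_zero hc hu)
          obtain ⟨ε, hε, h5⟩ := ev_eq_zero.mp h4
          exact hcom ⟨δ, Multiset.mem_cons_of_mem hδ, ε, Multiset.mem_cons_of_mem hε, h5⟩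
        have hm : m = 0 := by rw [← hA, hA0]; rfl
        have hB0 : B = 0 := Multiset.card_eq_zero.mp (by rw [hBc, hm])
        have hG0 : G = 0 := Multiset.card_eq_zero.mp (by rw [hG, hm])
        subst hA0 hB0 hG0
        rw [pr_zero, mul_one, mul_one, sub_eq_zero] at hD
        have hD' : c * u = a * v := C_injective hD
        have hval : ∀ s : NV F, a * ev (α ::ₘ 0) s / (c * ev (β ::ₘ 0) s) =
            brV s α * u / (brV s β * v) := by
          intro s
          rw [ev_cons, ev_cons, ev_zero, mul_one, mul_one]
          rcases eq_or_ne (brV s β) 0 with h0 | h0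
          · rw [h0, mul_zero, div_zero, zero_mul, div_zero]
          · rw [div_eq_div_iff (mul_ne_zero hc h0) (mul_ne_zero h0 hv)]
            linear_combination (-(brV s α * brV s β)) * hD'
        rw [hval, hval, ← hSx]
        unfold S3
        rw [cs_cons_left, cs_cons_left, cs_cons_left, c1_cons, c1_cons, c1_cons]
        unfold c1 cs
        simp
      · -- the induction step
        have hdeg : (C (c * u) * pr B - C (a * v) * pr A).natDegree ≤ m := by
          refine (natDegree_sub_le _ _).trans ?_
          refine max_le ?_ ?_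
          · refine (natDegree_C_mul_le _ _).trans ?_
            rw [← hBc]; exact pr_natDegree B
          · refine (natDegree_C_mul_le _ _).trans ?_
            rw [← hA]; exact pr_natDegree A
        obtain ⟨d, hd, Ld, hLd, eD⟩ := exists_factor hD hdeg
        have hfx : C (a * v) * pr A + C d * pr Ld = C (c * u) * pr B := by
          rw [← eD]; ring
        have hδ0 : ev Ld γ = 0 := by
          have h1 := hom3 hA hLd hBc hfx γ
          have h2 := hom γ
          rw [ev_cons, ev_cons, ev_cons, brV_self, zero_mul, mul_zero, add_zero] at h2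
          have h3 : d * ev Ld γ = 0 := by linear_combination h1 - h2
          exact (mul_eq_zero.mp h3).resolve_left hd
        obtain ⟨δ, hδ, hγδ⟩ := ev_eq_zero.mp hδ0
        obtain ⟨D, rfl⟩ := Multiset.exists_cons_of_mem hδ
        rw [Multiset.card_cons] at hLd
        obtain ⟨k, hk, ek, ek'⟩ := lin_par hγδ
        rw [pr_cons, ek] at eD
        have h2nd : C (-(a * w)) * pr A + C (k * d) * pr (β ::ₘ D) = C (b * u) * pr G := by
          apply mul_left_cancel₀ (lin_ne γ)
          rw [pr_cons]
          simp only [C_mul, C_neg] at hmain hpl eD ⊢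
          linear_combination (-lin β) * eD + (C a * pr A) * hpl - C u * hmain
        have h3rd : C (-(c * w)) * pr B + C (k * d) * pr (α ::ₘ D) = C (b * v) * pr G := by
          apply mul_left_cancel₀ (lin_ne γ)
          rw [pr_cons]
          simp only [C_mul, C_neg] at hmain hpl eD ⊢
          linear_combination (-lin α) * eD + (C c * pr B) * hpl - C v * hmain
        have cD : Multiset.card (δ ::ₘ D) = m := by rw [Multiset.card_cons]; omega
        have cD1 : Multiset.card (β ::ₘ D) = m := by rw [Multiset.card_cons]; omega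
        have cD2 : Multiset.card (α ::ₘ D) = m := by rw [Multiset.card_cons]; omega
        have n1 : ∀ s : NV F, ev A s ≠ 0 ∨ ev B s ≠ 0 := by
          intro s
          rcases hac s with h1 | h1
          · left; rw [ev_cons] at h1; exact right_ne_zero_of_mul h1
          · right; rw [ev_cons] at h1; exact right_ne_zero_of_mul h1
        have n2 : ∀ s : NV F, ev A s ≠ 0 ∨ ev G s ≠ 0 := by
          intro s
          rcases hab s with h1 | h1
          · left; rw [ev_cons] at h1; exact right_ne_zero_of_mul h1
          · right; rw [ev_cons] at h1; exact right_ne_zero_of_mul h1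
        have n3 : ∀ s : NV F, ev B s ≠ 0 ∨ ev G s ≠ 0 := by
          intro s
          rcases hcb s with h1 | h1
          · left; rw [ev_cons] at h1; exact right_ne_zero_of_mul h1
          · right; rw [ev_cons] at h1; exact right_ne_zero_of_mul h1
        have s1 := ih A (δ ::ₘ D) B hA cD hBc (a * v) d (c * u) (mul_ne_zero ha hv) hd
          (mul_ne_zero hc hu) hfx t t' (n1 t) (n1 t')
        have s2 := ih A (β ::ₘ D) G hA cD1 hG (-(a * w)) (k * d) (b * u)
          (neg_ne_zero.mpr (mul_ne_zero ha hw)) (mul_ne_zero hk hd) (mul_ne_zero hb hu) h2nd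
          t t' (n2 t) (n2 t')
        have s3 := ih B (α ::ₘ D) G hBc cD2 hG (-(c * w)) (k * d) (b * v)
          (neg_ne_zero.mpr (mul_ne_zero hc hw)) (mul_ne_zero hk hd) (mul_ne_zero hb hv) h3rd
          t t' (n3 t) (n3 t')
        have hval : ∀ s : NV F, sy (brV s α * u / (brV s β * v))
            - sy (a * ev (α ::ₘ A) s / (c * ev (β ::ₘ B) s))
            + sy (a * v * ev A s / (c * u * ev B s))
            - sy (-(a * w) * ev A s / (b * u * ev G s))
            + sy (-(c * w) * ev B s / (b * v * ev G s)) = 0 := by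
          intro s
          have h1 := hom s
          rw [ev_cons, ev_cons, ev_cons] at h1
          have h2 : brV s α * u - brV s β * v = brV s γ * w := by
            have := hB.pl s α β γ
            rw [hu', hv', hw', hB.anti β γ, hB.anti α γ]
            linear_combination -this
          have h3 : brV s α ≠ 0 ∨ brV s β ≠ 0 := by
            rcases hac s with h1 | h1
            · left; rw [ev_cons] at h1; exact left_ne_zero_of_mul h1
            · right; rw [ev_cons] at h1; exact left_ne_zero_of_mul h1
          have h4 := hac s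
          rw [ev_cons, ev_cons] at h4
          have := val5 ha hb hc hu hv hw h1 h2 h3 h4
          rw [ev_cons, ev_cons]
          rw [show -(a * w) * ev A s = -(w * a * ev A s) by ring,
            show -(c * w) * ev B s = -(w * c * ev B s) by ring,
            show b * v * ev G s = v * b * ev G s by ring]
          exact this
        have hS : S3 t t' (α ::ₘ A) (γ ::ₘ G) (β ::ₘ B) =
            (cr brV α γ t t' + cr brV γ β t t' + cr brV β α t t') + S3 t t' A (δ ::ₘ D) B
            - S3 t t' A (β ::ₘ D) G + S3 t t' B (α ::ₘ D) G := by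
          unfold S3
          simp only [cs_cons_left, cs_cons_right, c1_cons]
          have e1 : cr brV γ α t t' = - cr brV α γ t t' := cr_swap_ab hB _ _ _ _
          have e2 : cr brV β γ t t' = - cr brV γ β t t' := cr_swap_ab hB _ _ _ _
          have e3 : cr brV α β t t' = - cr brV β α t t' := cr_swap_ab hB _ _ _ _
          rw [← c1_par hγδ, ← c1_par hγδ, cs_anti G A, cs_anti D B, e1, e2, e3]
          abel
        rw [hS, hSx, s1, s2, s3]
        have v1 := hval t
        have v2 := hval t'
        have e1 : sy (a * ev (α ::ₘ A) t / (c * ev (β ::ₘ B) t)) =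
            sy (brV t α * u / (brV t β * v)) + sy (a * v * ev A t / (c * u * ev B t))
            - sy (-(a * w) * ev A t / (b * u * ev G t))
            + sy (-(c * w) * ev B t / (b * v * ev G t)) := by
          rw [← sub_eq_zero, ← neg_eq_zero, ← v1]; abel
        have e2 : sy (a * ev (α ::ₘ A) t' / (c * ev (β ::ₘ B) t')) =
            sy (brV t' α * u / (brV t' β * v)) + sy (a * v * ev A t' / (c * u * ev B t'))
            - sy (-(a * w) * ev A t' / (b * u * ev G t'))
            + sy (-(c * w) * ev B t' / (b * v * ev G t')) := by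
          rw [← sub_eq_zero, ← neg_eq_zero, ← v2]; abel
        rw [e1, e2]
        abel

end

end K4M
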