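import Pool.Agent.Lib_helper60.K4M.Crs

/-!
The five term relation for the values of five rational functions at a point, degenerate positions
included.
-/

set_option autoImplicit false

namespace K4M

section

variable {F : Type*} [Field F]

lemma val5 [Infinite F] {a b c p q r u v w A B C : F} (ha : a ≠ 0) (hb : b ≠ 0) (hc : c ≠ 0)
    (hu : u ≠ 0) (hv : v ≠ 0) (hw : w ≠ 0)
    (h1 : a * (p * A) + b * (r * B) = c * (q * C)) (h2 : p * u - q * v = r * w)
    (hpq : p ≠ 0 ∨ q ≠ 0) (hAC : p * A ≠ 0 ∨ q * C ≠ 0) :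
    sy (p * u / (q * v)) - sy (a * (p * A) / (c * (q * C))) + sy (a * v * A / (c * u * C))
      - sy (-(w * a * A) / (b * u * B)) + sy (-(w * c * C) / (v * b * B)) = 0 := by
  rcases eq_or_ne p 0 with rfl | hp
  · have hq : q ≠ 0 := hpq.resolve_left (fun h => h rfl)
    have hC : C ≠ 0 := fun h => by
      rcases hAC with h' | h'
      · exact h' (zero_mul _)
      · exact h' (by rw [h, mul_zero])
    rw [zero_mul, mul_zero, zero_add] at h1
    rw [zero_mul, zero_sub] at h2
    have hr : r ≠ 0 := fun h => by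
      rw [h, zero_mul, neg_eq_zero] at h2
      exact mul_ne_zero hq hv h2
    have hB : B ≠ 0 := fun h => by
      rw [h, mul_zero, mul_zero] at h1
      exact mul_ne_zero hc (mul_ne_zero hq hC) h1.symm
    have e1 : -(w * c * C) / (v * b * B) = 1 := by
      rw [div_eq_one_iff_eq (mul_ne_zero (mul_ne_zero hv hb) hB)]
      apply mul_left_cancel₀ hr
      linear_combination (c * C) * h2 - v * h1
    have e2 : -(w * a * A) / (b * u * B) = a * v * A / (c * u * C) := by
      rw [div_eq_div_iff (mul_ne_zero (mul_ne_zero hb hu) hB) (mul_ne_zero (mul_ne_zero hc hu) hC)]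
      apply mul_left_cancel₀ hr
      linear_combination (c * C * a * A * u) * h2 - (a * A * u * v) * h1
    rw [e1, e2, zero_mul, zero_div, zero_mul, mul_zero, zero_div, sy_one, sy_zero]
    abel
  rcases eq_or_ne q 0 with rfl | hq
  · have hA : A ≠ 0 := fun h => by
      rcases hAC with h' | h'
      · exact h' (by rw [h, mul_zero])
      · exact h' (zero_mul _)
    rw [zero_mul, mul_zero] at h1
    rw [zero_mul, sub_zero] at h2
    have hr : r ≠ 0 := fun h => by
      rw [h, zero_mul] at h2
      exact mul_ne_zero hp hu h2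
    have hB : B ≠ 0 := fun h => by
      rw [h, mul_zero, mul_zero, add_zero] at h1
      exact mul_ne_zero ha (mul_ne_zero hp hA) h1
    have e1 : -(w * a * A) / (b * u * B) = 1 := by
      rw [div_eq_one_iff_eq (mul_ne_zero (mul_ne_zero hb hu) hB)]
      apply mul_left_cancel₀ hr
      linear_combination (a * A) * h2 - u * h1
    have e2 : -(w * c * C) / (v * b * B) = (a * v * A / (c * u * C))⁻¹ := by
      rw [inv_div, div_eq_div_iff (mul_ne_zero (mul_ne_zero hv hb) hB)
        (mul_ne_zero (mul_ne_zero ha hv) hA)]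
      apply mul_left_cancel₀ hr
      linear_combination (a * A * c * C * v) * h2 - (u * c * C * v) * h1
    rw [e1, e2, zero_mul, div_zero, zero_mul, mul_zero, div_zero, sy_one, sy_zero, sy_inv]
    abel
  rcases eq_or_ne r 0 with rfl | hr
  · rw [zero_mul, mul_zero, add_zero] at h1
    rw [zero_mul] at h2
    have hA : A ≠ 0 := fun h => by
      rcases hAC with h' | h'
      · exact h' (by rw [h, mul_zero])
      · rw [h, mul_zero, mul_zero] at h1
        exact mul_ne_zero hc h' h1.symm
    have hC : C ≠ 0 := fun h => by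
      rw [h, mul_zero, mul_zero] at h1
      exact mul_ne_zero ha (mul_ne_zero hp hA) h1
    have e0 : p * u / (q * v) = 1 := by
      rw [div_eq_one_iff_eq (mul_ne_zero hq hv)]
      linear_combination h2
    have e1 : a * (p * A) / (c * (q * C)) = 1 := by
      rw [div_eq_one_iff_eq (mul_ne_zero hc (mul_ne_zero hq hC))]
      exact h1
    have e2 : a * v * A / (c * u * C) = 1 := by
      rw [div_eq_one_iff_eq (mul_ne_zero (mul_ne_zero hc hu) hC)]
      apply mul_left_cancel₀ hq
      linear_combination u * h1 - (a * A) * h2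
    have e3 : -(w * a * A) / (b * u * B) = -(w * c * C) / (v * b * B) := by
      rcases eq_or_ne B 0 with rfl | hB
      · rw [mul_zero, mul_zero, div_zero, div_zero]
      rw [div_eq_div_iff (mul_ne_zero (mul_ne_zero hb hu) hB)
        (mul_ne_zero (mul_ne_zero hv hb) hB)]
      apply mul_left_cancel₀ hq
      linear_combination (-(w * b * B * u)) * h1 + (a * A * w * b * B) * h2
    rw [e0, e1, e2, e3, sy_one]
    abel
  have hX0 : p * u / (q * v) ≠ 0 := div_ne_zero (mul_ne_zero hp hu) (mul_ne_zero hq hv)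
  rcases eq_or_ne A 0 with rfl | hA
  · have hC : C ≠ 0 := fun h => by
      rcases hAC with h' | h'
      · exact h' (mul_zero _)
      · exact h' (by rw [h, mul_zero])
    rw [mul_zero, mul_zero, zero_add] at h1
    have hB : B ≠ 0 := fun h => by
      rw [h, mul_zero, mul_zero] at h1
      exact mul_ne_zero hc (mul_ne_zero hq hC) h1.symm
    have e1 : -(w * c * C) / (v * b * B) = 1 - p * u / (q * v) := by
      rw [one_sub_div (mul_ne_zero hq hv), div_eq_div_iff (mul_ne_zero (mul_ne_zero hv hb) hB)
        (mul_ne_zero hq hv)]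
      linear_combination (v * b * B) * h2 + (w * v) * h1
    rw [e1, mul_zero, mul_zero, zero_div, mul_zero, zero_div, mul_zero, neg_zero, zero_div,
      sy_compl, sy_zero]
    abel
  rcases eq_or_ne C 0 with rfl | hC
  · rw [mul_zero, mul_zero] at h1
    have hB : B ≠ 0 := fun h => by
      rw [h, mul_zero, mul_zero, add_zero] at h1
      exact mul_ne_zero ha (mul_ne_zero hp hA) h1
    have e1 : -(w * a * A) / (b * u * B) = 1 - (p * u / (q * v))⁻¹ := by
      rw [inv_div, one_sub_div (mul_ne_zero hp hu),
        div_eq_div_iff (mul_ne_zero (mul_ne_zero hb hu) hB) (mul_ne_zero hp hu)]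
      linear_combination (-(b * u * B)) * h2 - (w * u) * h1
    rw [e1, mul_zero, mul_zero, div_zero, mul_zero, div_zero, mul_zero, neg_zero, zero_div,
      sy_compl, sy_inv, sy_zero]
    abel
  rcases eq_or_ne B 0 with rfl | hB
  · rw [mul_zero, mul_zero, add_zero] at h1
    have e1 : a * (p * A) / (c * (q * C)) = 1 := by
      rw [div_eq_one_iff_eq (mul_ne_zero hc (mul_ne_zero hq hC))]
      exact h1
    have e2 : a * v * A / (c * u * C) = (p * u / (q * v))⁻¹ := by
      rw [inv_div, div_eq_div_iff (mul_ne_zero (mul_ne_zero hc hu) hC) (mul_ne_zero hp hu)]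
      linear_combination (v * u) * h1
    rw [e1, e2, mul_zero, div_zero, mul_zero, div_zero, sy_one, sy_zero, sy_inv]
    abel
  set x : F := p * u / (q * v) with hx
  set y : F := a * (p * A) / (c * (q * C)) with hy
  have hY0 : y ≠ 0 :=
    div_ne_zero (mul_ne_zero ha (mul_ne_zero hp hA)) (mul_ne_zero hc (mul_ne_zero hq hC))
  have X1 : 1 - x = -(r * w) / (q * v) := by
    rw [hx, one_sub_div (mul_ne_zero hq hv)]
    congr 1
    linear_combination -h2
  have Y1 : 1 - y = b * (r * B) / (c * (q * C)) := by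
    rw [hy, one_sub_div (mul_ne_zero hc (mul_ne_zero hq hC))]
    congr 1
    linear_combination -h1
  have hX1 : x ≠ 1 := fun h => by
    rw [h, sub_self] at X1
    exact div_ne_zero (neg_ne_zero.mpr (mul_ne_zero hr hw)) (mul_ne_zero hq hv) X1.symm
  have hY1 : y ≠ 1 := fun h => by
    rw [h, sub_self] at Y1
    exact div_ne_zero (mul_ne_zero hb (mul_ne_zero hr hB)) (mul_ne_zero hc (mul_ne_zero hq hC))
      Y1.symm
  have eYX : a * v * A / (c * u * C) = y / x := by
    rw [hx, hy]; field_simp
  have e3 : -(w * c * C) / (v * b * B) = (1 - x) / (1 - y) := by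
    rw [X1, Y1]; field_simp
  have e2 : -(w * a * A) / (b * u * B) = (1 - x⁻¹) / (1 - y⁻¹) := by
    have : (1 - x⁻¹) / (1 - y⁻¹) = ((1 - x) / (1 - y)) * (y / x) := by
      have hy1 : 1 - y ≠ 0 := sub_ne_zero.mpr hY1.symm
      have a1 : (1 - x⁻¹) = -(1 - x) / x := by field_simp; ring
      have a2 : (1 - y⁻¹) = -(1 - y) / y := by field_simp; ring
      rw [a1, a2]
      field_simp
    rw [this, ← e3, ← eYX]
    field_simp
  rw [eYX, e2, e3]
  rcases eq_or_ne x y with hxy | hxy
  · rw [← hxy, div_self hX0]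
    have g1 : 1 - x⁻¹ ≠ 0 := sub_ne_zero.mpr fun h => hX1 (by
      rw [eq_comm, inv_eq_one] at h
      exact h)
    rw [div_self g1, div_self (sub_ne_zero.mpr hX1.symm), sy_one]
    abel
  · exact five hX0 hX1 hY0 hY1 hxy

end

end K4M
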