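import Pool.Agent.Lib_helper76.K4M.ERdef
import Pool.Agent.Lib_helper24.K4D2.Induct

/-!
From even reciprocity to the relation between the sums `Z_l`: the `t`-bookkeeping.
-/

set_option autoImplicit false
set_option linter.unusedSectionVars false

open Finset

namespace K4M

open Pool.Agent.K4ParP Pool.Agent.K4D2

variable {A B : Type*} [AddCommGroup A] [AddCommGroup B] [Module ℚ B]

/-- the triangle symbol -/
def TT (t : A → A → B) (a b c : A) : B := t (a - b) (b - c)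

section TT

variable {t : A → A → B}

lemma TT_swap12 (ht : IsT t) (a b c : A) : TT t b a c = - TT t a b c := by
  unfold TT
  have := ht.swap13 (-(a - b)) (-(b - c))
  rw [ht.even] at this
  rw [← this]; congr 1 <;> abel

lemma TT_swap23 (ht : IsT t) (a b c : A) : TT t a c b = - TT t a b c := by
  unfold TT
  have e4 := ht.rot (b - a) (a - c)
  rw [show -(b - a) - (a - c) = c - b by abel] at e4
  rw [e4]
  have e5 := ht.swap13 (-(a - b)) (-(b - c))
  rw [ht.even] at e5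
  rw [← e5]; congr 1 <;> abel

lemma TT_neg (ht : IsT t) (a b c : A) : TT t (-a) (-b) (-c) = TT t a b c := by
  unfold TT
  rw [← ht.even (a - b)]
  congr 1 <;> abel

lemma TT_neg1 (ht : IsT t) (a b c : A) : TT t (-a) b c = TT t a (-b) (-c) := by
  rw [← TT_neg ht a, neg_neg, neg_neg]

lemma TT_neg2 (ht : IsT t) (a b c : A) : TT t a b (-c) = TT t (-a) (-b) c := by
  rw [← TT_neg ht a, neg_neg]

lemma th_TT (ht : IsT t) (a b c : A) : th t 0 a b c =
    TT t a b c + TT t (-a) (-b) c + TT t a (-b) c + TT t (-a) b c := by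
  rw [← TT_neg2 ht]
  unfold th TT
  congr 1
  · congr 1
    · congr 1
      rw [add_zero, sub_neg_eq_add]
    · rw [add_zero, sub_neg_eq_add, neg_zero, zero_sub]
  · rw [neg_zero, zero_sub]

lemma CR_th (x y c c₀ : A) : CR t 0 x y c c₀ =
    th t 0 y c c₀ - th t 0 x c c₀ + (th t 0 x y c₀ - th t 0 x y c) := by
  unfold CR; abel

lemma th_zero_rot (ht : IsT t) (a b c : A) : th t 0 b c a = th t 0 a b c := by
  rw [th_swap23 ht 0 b a c, th_swap12 ht 0 a b c, neg_neg]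

end TT

section sums

lemma sum_neg_set {S S' : Finset A} (h : ∀ z, z ∈ S' ↔ -z ∈ S) (f : A → B) :
    ∑ z ∈ S, f (-z) = ∑ z ∈ S', f z := by
  classical
  have e : S' = S.image (fun z => -z) := by
    ext z
    rw [h, mem_image]
    constructor
    · intro hz; exact ⟨-z, hz, neg_neg z⟩
    · rintro ⟨w, hw, rfl⟩; rwa [neg_neg]
  rw [e, sum_image (fun x _ y _ h => neg_injective h)]

variable {t : A → A → B}

lemma sum_th (ht : IsT t) {S : Finset A} (hS : ∀ z, z ∈ S ↔ -z ∈ S) (b c : A) :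
    ∑ z ∈ S, th t 0 z b c = (2 : ℚ) • ∑ z ∈ S, TT t z b c + (2 : ℚ) • ∑ z ∈ S, TT t z (-b) c := by
  simp only [th_TT ht, sum_add_distrib]
  rw [sum_neg_set hS (fun z => TT t z (-b) c), sum_neg_set hS (fun z => TT t z b c)]
  module

/-- the general sum of type `Z` -/
def AA (t : A → A → B) (S W : Finset A) (u b c : A) : B :=
  ∑ z ∈ S, TT t z b c + ∑ w ∈ W, TT t b w c + ∑ w ∈ W, ∑ z ∈ S, TT t w z c + t u (b - c)

lemma AA_last (ht : IsT t) (p b c : A) : t (p + c) (b - c) = - TT t (-p) b c := by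
  unfold TT
  have h := ht.rot (-p - b) (b - c)
  rw [show -(-p - b) - (b - c) = p + c by abel] at h
  rw [← h, ht.swap (b - c) (p + c)]

lemma sum_th2 (ht : IsT t) {S W V : Finset A} (hS : ∀ z, z ∈ S ↔ -z ∈ S)
    (hV : ∀ z, z ∈ V ↔ -z ∈ W) (c : A) :
    ∑ z ∈ S, ∑ w ∈ W, th t 0 z w c = (2 : ℚ) • ∑ w ∈ W, ∑ z ∈ S, TT t z w c +
      (2 : ℚ) • ∑ w ∈ V, ∑ z ∈ S, TT t z w c := by
  rw [sum_comm]
  simp only [sum_th ht hS, sum_add_distrib, ← smul_sum]
  rw [sum_neg_set hV (fun w => ∑ z ∈ S, TT t z w c)]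

theorem Pform (ht : IsT t) {S₁ S₂ W V : Finset A} (hS₁ : ∀ z, z ∈ S₁ ↔ -z ∈ S₁)
    (hS₂ : ∀ z, z ∈ S₂ ↔ -z ∈ S₂) (hV : ∀ z, z ∈ V ↔ -z ∈ W) (p b c : A) :
    ∑ z ∈ S₁, th t 0 z b c - ∑ z ∈ S₁, ∑ w ∈ W, th t 0 z w c +
      (∑ z ∈ S₂, th t 0 z b c - ∑ z ∈ S₂, ∑ w ∈ W, th t 0 z w c) +
      (2 : ℚ) • th t 0 p c b - (2 : ℚ) • ∑ w ∈ W, th t 0 w b c =
    (2 : ℚ) • (AA t S₂ V (p + c) b c + AA t S₂ W (p + c) (-b) c - AA t W S₁ (p - b) b c -
      AA t V S₁ (p + b) (-b) c) := by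
  have e1 : th t 0 p c b = - (TT t p b c + TT t (-p) (-b) c + TT t p (-b) c + TT t (-p) b c) := by
    rw [th_swap23 ht, th_TT ht]
  have e2 : ∑ w ∈ W, th t 0 w b c = ∑ w ∈ W, TT t w b c + ∑ w ∈ V, TT t w (-b) c +
      ∑ w ∈ W, TT t w (-b) c + ∑ w ∈ V, TT t w b c := by
    simp only [th_TT ht, sum_add_distrib]
    rw [sum_neg_set hV (fun w => TT t w (-b) c), sum_neg_set hV (fun w => TT t w b c)]
  have n1 : ∀ (U : Finset A) (x : A), ∑ w ∈ U, TT t x w c = - ∑ w ∈ U, TT t w x c := by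
    intro U x
    rw [← sum_neg_distrib]
    exact sum_congr rfl fun w _ => TT_swap12 ht w x c
  have n2 : ∀ (U U' : Finset A), ∑ w ∈ U, ∑ z ∈ U', TT t w z c = - ∑ w ∈ U, ∑ z ∈ U', TT t z w c := by
    intro U U'
    rw [← sum_neg_distrib]
    exact sum_congr rfl fun w _ => n1 U' w
  have e3 : t (p + c) (b - c) = - TT t (-p) b c := AA_last ht p b c
  have e4 : t (p + c) (-b - c) = - TT t (-p) (-b) c := AA_last ht p (-b) c
  have e5 : t (p - b) (b - c) = TT t p b c := rfl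
  have e6 : t (p + b) (-b - c) = TT t p (-b) c := by unfold TT; rw [sub_neg_eq_add]
  rw [sum_th ht hS₁, sum_th ht hS₂, sum_th2 ht hS₁ hV, sum_th2 ht hS₂ hV, e1, e2]
  unfold AA
  rw [e3, e4, e5, e6, n1 V b, n1 W (-b), n1 S₁ b, n1 S₁ (-b), n2 V S₂, n2 W S₂,
    sum_comm (s := S₁) (t := W), sum_comm (s := S₁) (t := V)]
  module

end sums

end K4M
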