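import Pool.Agent.Lib_helper76.K4M.ZY1

/-!
From even reciprocity to the relation between the sums `Z_l`, II.
-/

set_option autoImplicit false
set_option linter.unusedSectionVars false

open Finset

namespace K4M

open Pool.Agent.K4ParP Pool.Agent.K4D2

variable {A B : Type*} [AddCommGroup A] [AddCommGroup B] [Module ℚ B] {t : A → A → B}

/-- the constant parts cancel -/
lemma exp_ER {j : ℕ} {S₁ S₂ W₁ W₂ : Finset A} (h1 : S₁.card = j ^ 2) (h2 : S₂.card = (j + 2) ^ 2)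
    (h3 : W₁.card = (j + 1) ^ 2) (h4 : W₂.card = (j + 1) ^ 2) (h : A → B) (g : A → A → B)
    (b₁ b₂ : A) :
    ∑ z ∈ S₁, (∑ w ∈ W₂, (h w - h z + g z w) + (h b₁ - h z + g z b₁) -
        (∑ w ∈ W₁, (h w - h z + g z w) + (h b₂ - h z + g z b₂))) +
      ∑ z ∈ S₂, (∑ w ∈ W₂, (h w - h z + g z w) + (h b₁ - h z + g z b₁) -
        (∑ w ∈ W₁, (h w - h z + g z w) + (h b₂ - h z + g z b₂))) +
      2 • (∑ w ∈ W₂, ∑ w' ∈ W₁, (h w' - h w + g w w') + ∑ w ∈ W₂, (h b₂ - h w + g w b₂) +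
        ∑ w' ∈ W₁, (h w' - h b₁ + g b₁ w') + (h b₂ - h b₁ + g b₁ b₂)) =
    (∑ z ∈ S₁, g z b₁ - ∑ z ∈ S₁, ∑ w ∈ W₁, g z w + (∑ z ∈ S₂, g z b₁ - ∑ z ∈ S₂, ∑ w ∈ W₁, g z w)) -
      (∑ z ∈ S₁, g z b₂ - ∑ z ∈ S₁, ∑ w ∈ W₂, g z w +
        (∑ z ∈ S₂, g z b₂ - ∑ z ∈ S₂, ∑ w ∈ W₂, g z w)) +
      (2 : ℚ) • (∑ w ∈ W₂, ∑ w' ∈ W₁, g w w' + ∑ w ∈ W₂, g w b₂ + ∑ w' ∈ W₁, g b₁ w' + g b₁ b₂) := by
  simp only [sum_add_distrib, sum_sub_distrib, sum_const, h1, h2, h3, h4, ← smul_sum]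
  module

/-- the distribution relation on cosets -/
lemma dt_sets {j : ℕ} [Fintype (tor A (j + 1))]
    (td : ∀ a b, ∑ h : tor A (j + 1), ∑ h' : tor A (j + 1), t (a + h) (b + h') =
      t ((j + 1) • a) ((j + 1) • b)) (div : ∀ a : A, ∃ b, (j + 1) • b = a)
    {x y c : A} {W W' : Finset A} (hW : ∀ w, w ∈ W ↔ (j + 1) • w = x)
    (hW' : ∀ w, w ∈ W' ↔ (j + 1) • w = y) :
    ∑ w ∈ W, ∑ w' ∈ W', TT t w w' c = TT t x y ((j + 1) • c) := by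
  classical
  obtain ⟨w₀, hw₀⟩ := div x
  obtain ⟨w₁, hw₁⟩ := div y
  have key : ∀ (U : Finset A) (u v : A) (f : A → B), (∀ w, w ∈ U ↔ (j + 1) • w = v) →
      (j + 1) • u = v → ∑ w ∈ U, f w = ∑ h : tor A (j + 1), f (u + h) := by
    intro U u v f hU hu
    have e : U = Finset.image (fun h : tor A (j + 1) => u + (h : A)) univ := by
      ext w
      rw [hU, mem_image]
      constructor
      · intro hw
        refine ⟨⟨w - u, ?_⟩, mem_univ _, by simp⟩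
        rw [mem_tor, smul_sub, hw, hu, sub_self]
      · rintro ⟨h, -, rfl⟩
        rw [smul_add, hu, mem_tor.mp h.2, add_zero]
    rw [e, sum_image]
    intro h _ h' _ hh
    exact Subtype.ext (add_left_cancel hh)
  rw [key W w₀ x (fun w => ∑ w' ∈ W', TT t w w' c) hW hw₀]
  simp only [fun w => key W' w₁ y (fun w' => TT t w w' c) hW' hw₁]
  rw [sum_comm]
  have e2 : ∀ h' : tor A (j + 1), ∑ h : tor A (j + 1), TT t (w₀ + h) (w₁ + h') c =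
      ∑ h : tor A (j + 1), t (w₀ - w₁ + h) (w₁ - c + h') := by
    intro h'
    rw [← Equiv.sum_comp (Equiv.addRight h')]
    refine sum_congr rfl fun h _ => ?_
    unfold TT
    rw [Equiv.coe_addRight, AddSubgroup.coe_add]
    congr 1 <;> abel
  simp only [e2]
  rw [sum_comm, td]
  unfold TT
  rw [smul_sub, smul_sub, hw₀, hw₁]

lemma dt_th (ht : IsT t) {j : ℕ} [Fintype (tor A (j + 1))]
    (td : ∀ a b, ∑ h : tor A (j + 1), ∑ h' : tor A (j + 1), t (a + h) (b + h') =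
      t ((j + 1) • a) ((j + 1) • b)) (div : ∀ a : A, ∃ b, (j + 1) • b = a)
    {e x y c : A} (he : e + e = 0) {W W' : Finset A} (hW : ∀ w, w ∈ W ↔ (j + 1) • w + e = x)
    (hW' : ∀ w, w ∈ W' ↔ (j + 1) • w + e = y) :
    ∑ w ∈ W, ∑ w' ∈ W', th t 0 w w' c = th t 0 x y ((j + 1) • c + e) := by
  classical
  have hneg : -e = e := neg_eq_of_add_eq_zero_left he
  have hx : ∀ {U : Finset A} {x : A}, (∀ w, w ∈ U ↔ (j + 1) • w + e = x) →
      ∀ w, w ∈ U ↔ (j + 1) • w = x + e := by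
    intro U x h w
    rw [h]
    constructor
    · rintro rfl
      rw [add_assoc, he, add_zero]
    · intro h'
      rw [h', add_assoc, he, add_zero]
  have hn : ∀ {U : Finset A} {x : A}, (∀ w, w ∈ U ↔ (j + 1) • w + e = x) →
      ∀ w, w ∈ U.image (fun z => -z) ↔ (j + 1) • w + e = -x := by
    intro U x h w
    rw [mem_image]
    constructor
    · rintro ⟨z, hz, rfl⟩
      rw [h] at hz
      rw [smul_neg, ← hz, neg_add, hneg]
    · intro hw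
      refine ⟨-w, ?_, neg_neg w⟩
      rw [h, smul_neg]
      rw [← hneg, ← neg_add, hw, neg_neg]
  have hm : ∀ (U : Finset A) (z : A), z ∈ U.image (fun z => -z) ↔ -z ∈ U := by
    intro U z
    rw [mem_image]
    constructor
    · rintro ⟨w, hw, rfl⟩; rwa [neg_neg]
    · intro h; exact ⟨-z, h, neg_neg z⟩
  have hTT : ∀ u v : A, TT t (u + e) (v + e) ((j + 1) • c) = TT t u v ((j + 1) • c + e) := by
    intro u v
    unfold TT
    congr 1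
    · abel
    · calc v + e - (j + 1) • c = v - ((j + 1) • c + -e) := by abel
        _ = _ := by rw [hneg]
  have f1 := dt_sets td div (c := c) (hx hW) (hx hW')
  have f2 := dt_sets td div (c := c) (hx (hn hW)) (hx (hn hW'))
  have f3 := dt_sets td div (c := c) (hx hW) (hx (hn hW'))
  have f4 := dt_sets td div (c := c) (hx (hn hW)) (hx hW')
  rw [hTT] at f1 f2 f3 f4
  rw [th_TT ht, ← f1, ← f2, ← f3, ← f4]
  simp only [th_TT ht, sum_add_distrib]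
  have g2 : ∑ w ∈ W, ∑ w' ∈ W', TT t (-w) (-w') c =
      ∑ w ∈ W.image (fun z => -z), ∑ w' ∈ W'.image (fun z => -z), TT t w w' c := by
    rw [← sum_neg_set (hm W) (fun w => ∑ w' ∈ W'.image (fun z => -z), TT t w w' c)]
    refine sum_congr rfl fun w _ => ?_
    exact sum_neg_set (hm W') (fun w' => TT t (-w) w' c)
  have g3 : ∑ w ∈ W, ∑ w' ∈ W', TT t w (-w') c =
      ∑ w ∈ W, ∑ w' ∈ W'.image (fun z => -z), TT t w w' c :=
    sum_congr rfl fun w _ => sum_neg_set (hm W') (fun w' => TT t w w' c)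
  have g4 : ∑ w ∈ W, ∑ w' ∈ W', TT t (-w) w' c =
      ∑ w ∈ W.image (fun z => -z), ∑ w' ∈ W', TT t w w' c :=
    sum_neg_set (hm W) (fun w => ∑ w' ∈ W', TT t w w' c)
  rw [g2, g3, g4]

/-- the difference of the `Z`-sums does not depend on `c` -/
theorem Y_rel (ht : IsT t) {j : ℕ} [Fintype (tor A (j + 1))]
    (td : ∀ a b, ∑ h : tor A (j + 1), ∑ h' : tor A (j + 1), t (a + h) (b + h') =
      t ((j + 1) • a) ((j + 1) • b)) (div : ∀ a : A, ∃ b, (j + 1) • b = a)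
    {e : A} (he : e + e = 0) (hER : ERab t j e) {S₁ S₂ W₁ W₂ V₁ V₂ : Finset A} {b₁ b₂ c c₀ : A}
    (hS₁ : ∀ z, z ∈ S₁ ↔ j • z = e) (hS₂ : ∀ z, z ∈ S₂ ↔ (j + 2) • z = e)
    (hW₁ : ∀ w, w ∈ W₁ ↔ (j + 1) • w + e = b₁) (hW₂ : ∀ w, w ∈ W₂ ↔ (j + 1) • w + e = b₂)
    (hV₁ : ∀ w, w ∈ V₁ ↔ (j + 1) • w + e = -b₁) (hV₂ : ∀ w, w ∈ V₂ ↔ (j + 1) • w + e = -b₂)
    (k1 : S₁.card = j ^ 2) (k2 : S₂.card = (j + 2) ^ 2)
    (k3 : W₁.card = (j + 1) ^ 2) (k4 : W₂.card = (j + 1) ^ 2)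
    (hc : (j • c ≠ e ∧ (j + 2) • c ≠ e) ∨ (c ≠ b₁ ∧ c ≠ -b₁ ∧ c ≠ b₂ ∧ c ≠ -b₂))
    (hc₀ : (j • c₀ ≠ e ∧ (j + 2) • c₀ ≠ e) ∨ (c₀ ≠ b₁ ∧ c₀ ≠ -b₁ ∧ c₀ ≠ b₂ ∧ c₀ ≠ -b₂))
    {Y : A → B} (hY : ∀ c, Y c =
      (AA t S₂ V₁ ((j + 1) • c + e + c) b₁ c + AA t S₂ W₁ ((j + 1) • c + e + c) (-b₁) c -
        AA t W₁ S₁ ((j + 1) • c + e - b₁) b₁ c - AA t V₁ S₁ ((j + 1) • c + e + b₁) (-b₁) c) -
      (AA t S₂ V₂ ((j + 1) • c + e + c) b₂ c + AA t S₂ W₂ ((j + 1) • c + e + c) (-b₂) c -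
        AA t W₂ S₁ ((j + 1) • c + e - b₂) b₂ c - AA t V₂ S₁ ((j + 1) • c + e + b₂) (-b₂) c)) :
    Y c = Y c₀ := by
  have hneg : -e = e := neg_eq_of_add_eq_zero_left he
  have hsym : ∀ {m : ℕ} {S : Finset A}, (∀ z, z ∈ S ↔ m • z = e) → ∀ z, z ∈ S ↔ -z ∈ S := by
    intro m S h z
    rw [h, h, smul_neg, neg_eq_iff_eq_neg, hneg]
  have hVW : ∀ {b : A} {V W : Finset A}, (∀ w, w ∈ W ↔ (j + 1) • w + e = b) →
      (∀ w, w ∈ V ↔ (j + 1) • w + e = -b) → ∀ z, z ∈ V ↔ -z ∈ W := by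
    intro b V W hW hV z
    rw [hV, hW, smul_neg]
    constructor
    · intro h
      rw [← neg_neg b, ← h, neg_add, hneg]
    · intro h
      rw [← h, neg_add, neg_neg, hneg]
  have key := hER S₁ S₂ W₁ W₂ b₁ b₂ c c₀ hS₁ hS₂ hW₁ hW₂ hc hc₀
  simp only [fun x y => CR_th (t := t) x y c c₀] at key
  have hx := exp_ER k1 k2 k3 k4 (fun x => th t 0 x c c₀)
    (fun x y => th t 0 x y c₀ - th t 0 x y c) b₁ b₂
  simp only at hx
  rw [hx] at key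
  clear hx
  have d1 : ∀ c, ∑ w ∈ W₂, ∑ w' ∈ W₁, th t 0 w w' c = th t 0 b₂ b₁ ((j + 1) • c + e) :=
    fun c => dt_th ht td div he hW₂ hW₁
  have d2 : ∀ c, ∑ w' ∈ W₁, th t 0 b₁ w' c = - ∑ w ∈ W₁, th t 0 w b₁ c := by
    intro c
    rw [← sum_neg_distrib]
    exact sum_congr rfl fun w _ => th_swap12 ht 0 w b₁ c
  have d3 : ∀ x : A, th t 0 x b₁ b₂ = th t 0 b₁ b₂ x := fun x => by
    rw [← th_zero_rot ht x b₁ b₂]
  have d4 : ∀ x : A, th t 0 b₂ b₁ x = - th t 0 b₁ b₂ x := fun x => th_swap12 ht 0 b₁ b₂ x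
  have P1 := fun c => Pform ht (hsym hS₁) (hsym hS₂) (hVW hW₁ hV₁) ((j + 1) • c + e) b₁ c
  have P2 := fun c => Pform ht (hsym hS₁) (hsym hS₂) (hVW hW₂ hV₂) ((j + 1) • c + e) b₂ c
  have hY2 : ∀ c, (2 : ℚ) • Y c = _ := fun c => by
    rw [hY, smul_sub, ← P1 c, ← P2 c]
  have h2 : (2 : ℚ) • Y c = (2 : ℚ) • Y c₀ := by
    rw [hY2, hY2]
    simp only [sum_sub_distrib, d1, d2, CR_th, d3, d4] at key
    rw [← sub_eq_zero] at key ⊢
    rw [← neg_eq_zero, ← key]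
    module
  have := congrArg (fun x => (2⁻¹ : ℚ) • x) h2
  simpa [smul_smul] using this

end K4M
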